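import Pool.Agent.SWT46.Base
import Pool.Agent.SWT58.Sg
import Pool.Agent.SWT58.Rep

/-!
# The state sum of `gl(3)` for flows without sources and sinks
-/

set_option autoImplicit false

namespace Pool.Agent.SWT89

open Equiv Pool.Agent.SWT80 Pool.Agent.SWT45 Pool.Agent.SWT46
open scoped Classical

variable {V : Type} {n : ℕ}

/-! ### The product over the vertices -/

theorem sg_even [Fintype V] (e r : Perm V) : sg e r (fun _ => false) (fun _ => false) = 1 := by
  have h : ∃ κ, IsK e r (fun _ => false) (fun _ => false) κ :=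
    ⟨1, fun v _ => rfl, fun v hv => absurd hv (by decide)⟩
  unfold sg
  rw [dif_pos h]
  have h1 : h.choose = 1 := Equiv.ext fun v => h.choose_spec.fix v rfl
  rw [h1, Equiv.Perm.sign_one]
  rfl

section Prod

variable {G : Gr V n} {φ : V → ZMod 3}

theorem vp_reg [Fintype V] (h : Reg G φ) {f : V → ℤ} (hf : ∀ v, f (G.r v) = f v)
    (h1 : ∀ v, Lg G v → Lg G (G.r v) → Lg G (G.r (G.r v)) → f v = 1) :
    vp G.r f = ∏ v ∈ (Finset.univ : Finset V).filter (fun v => φ v = 1), f v := by
  obtain ⟨Q0, hQ0⟩ := SWT58.exists_rep G.r G.r3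
  set Q : Finset V := Finset.univ.filter fun v => φ v = 1 ∨
    (v ∈ Q0 ∧ Lg G v ∧ Lg G (G.r v) ∧ Lg G (G.r (G.r v))) with hQd
  have mQ : ∀ v, v ∈ Q ↔ (φ v = 1 ∨ (v ∈ Q0 ∧ Lg G v ∧ Lg G (G.r v) ∧ Lg G (G.r (G.r v)))) :=
    fun v => by rw [hQd, Finset.mem_filter]; simp
  have n1 : ∀ v, Lg G v → φ v ≠ 1 := fun v hv hv1 => by
    rw [h.lg hv] at hv1
    revert hv1
    decide
  have hQ : IsRep G.r Q := by
    refine ⟨?_, ?_, ?_⟩
    · intro v hv
      rcases (mQ v).1 hv with hv | hv
      · exact h.r_ne hv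
      · exact hQ0.nf v hv.1
    · intro v hv
      by_cases h3 : Lg G v ∧ Lg G (G.r v) ∧ Lg G (G.r (G.r v))
      · rcases hQ0.ex v hv with h4 | h4 | h4
        · exact Or.inl ((mQ v).2 (Or.inr ⟨h4, h3⟩))
        · refine Or.inr (Or.inl ((mQ _).2 (Or.inr ⟨h4, h3.2.1, h3.2.2, ?_⟩)))
          rw [G.r3]
          exact h3.1
        · refine Or.inr (Or.inr ((mQ _).2 (Or.inr ⟨h4, h3.2.2, ?_, ?_⟩)))
          · rw [G.r3]
            exact h3.1
          · rw [G.r3]
            exact h3.2.1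
      · rcases h.some1 hv h3 with h4 | h4 | h4
        · exact Or.inl ((mQ _).2 (Or.inl h4))
        · exact Or.inr (Or.inl ((mQ _).2 (Or.inl h4)))
        · exact Or.inr (Or.inr ((mQ _).2 (Or.inl h4)))
    · intro v hv
      rcases (mQ v).1 hv with hv | ⟨hv0, hv1, hv2, hv3⟩
      · rw [mQ, mQ]
        have key : ∀ u, φ u ≠ 1 → ¬ Lg G v → (Lg G u → Lg G (G.r u) → Lg G (G.r (G.r u)) →
            Lg G v) → ¬ (φ u = 1 ∨ (u ∈ Q0 ∧ Lg G u ∧ Lg G (G.r u) ∧ Lg G (G.r (G.r u)))) := by
          rintro u hu hl hi (h5 | h5)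
          · exact hu h5
          · exact hl (hi h5.2.1 h5.2.2.1 h5.2.2.2)
        have hl := h.not_lg1 hv
        rcases h.tri1 hv with h4 | h4
        · exact ⟨key _ (by rw [h4.1]; decide) hl (fun _ _ h5 => by rwa [G.r3] at h5),
            key _ (by rw [h4.2]; decide) hl (fun _ h5 _ => by rwa [G.r3] at h5)⟩
        · exact ⟨key _ (by rw [h4.1]; decide) hl (fun _ _ h5 => by rwa [G.r3] at h5),
            key _ (by rw [h4.2]; decide) hl (fun _ h5 _ => by rwa [G.r3] at h5)⟩
      · rw [mQ, mQ]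
        have hu := hQ0.un v hv0
        constructor
        · rintro (h5 | h5)
          · exact n1 _ hv2 h5
          · exact hu.1 h5.1
        · rintro (h5 | h5)
          · exact n1 _ hv3 h5
          · exact hu.2 h5.1
  rw [SWT58.vp_eq G.r3 hQ hf]
  symm
  refine Finset.prod_subset ?_ ?_
  · intro v hv
    rw [mQ]
    exact Or.inl (Finset.mem_filter.1 hv).2
  · intro v hv hv'
    rcases (mQ v).1 hv with h5 | h5
    · exact (hv' (by simp [h5])).elim
    · exact h1 v h5.2.1 h5.2.2.1 h5.2.2.2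

end Prod

/-! ### The labels -/

/-- The value of a chord end. -/
def gg (a b : Fin 3) : ℤ := (if b = a then 1 else 0) - (if b = a + 1 then 1 else 0)

theorem gg_sum : ∀ a a' : Fin 3, ∑ b, gg a b * gg a' b = 3 * (if a = a' then 1 else 0) - 1 := by
  decide

theorem gT3_cyc : ∀ x y z : Fin 3 × Fin 3, gT3 x y z = gT3 y z x := by
  intro x y z
  unfold gT3
  have e1 : (x.2 = y.1 ∧ y.2 = z.1 ∧ z.2 = x.1) ↔ (y.2 = z.1 ∧ z.2 = x.1 ∧ x.2 = y.1) := by tauto
  have e2 : (x.2 = z.1 ∧ z.2 = y.1 ∧ y.2 = x.1) ↔ (y.2 = x.1 ∧ x.2 = z.1 ∧ z.2 = y.1) := by tauto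
  rw [if_congr e1 rfl rfl, if_congr e2 rfl rfl]

theorem gl_cyc (a b c : Option (Fin 3 × Fin 3)) : gl.T a b c = gl.T b c a := by
  rcases a with _ | a <;> rcases b with _ | b <;> rcases c with _ | c <;> try rfl
  exact gT3_cyc a b c

theorem T_lg0 : ∀ a c : Fin 3, gl.T (some (a, a + 1)) none (some (c + 1, c)) =
    -1 * (if a = c then 1 else 0) := by
  show ∀ a c : Fin 3, gh (c + 1, c) (a, a + 1) = -1 * (if a = c then 1 else 0)
  decide

theorem T_lg1 : ∀ a c : Fin 3, gl.T (some (a, a + 1)) (some (c + 1, c)) none =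
    1 * (if a = c then 1 else 0) := by
  show ∀ a c : Fin 3, gh (a, a + 1) (c + 1, c) = 1 * (if a = c then 1 else 0)
  decide

theorem T_ch0 : ∀ a b c : Fin 3, gl.T (some (a, a + 1)) (some (b, b)) (some (c + 1, c)) =
    -1 * (if a = c then gg a b else 0) := by
  show ∀ a b c : Fin 3, gT3 (a, a + 1) (b, b) (c + 1, c) = -1 * (if a = c then gg a b else 0)
  decide

theorem T_ch1 : ∀ a b c : Fin 3, gl.T (some (a, a + 1)) (some (c + 1, c)) (some (b, b)) =
    1 * (if a = c then gg a b else 0) := by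
  show ∀ a b c : Fin 3, gT3 (a, a + 1) (c + 1, c) (b, b) = 1 * (if a = c then gg a b else 0)
  decide

theorem gcl1 : ∀ l : Fin 3 × Fin 3, gcl l = 1 ↔ l.2 = l.1 + 1 := by decide

theorem gcl2 : ∀ l : Fin 3 × Fin 3, gcl l = 2 ↔ l.1 = l.2 + 1 := by decide

theorem gcl0 : ∀ l : Fin 3 × Fin 3, gcl l = 0 ↔ l.1 = l.2 := by decide

section Lab

variable (G : Gr V n) (φ : V → ZMod 3)

/-- The state given by the labels of the half-edges with flow one and zero. -/
noncomputable def lab (A B : V → Fin 3) (v : V) : Option (Fin 3 × Fin 3) :=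
  if Lg G v then none else if φ v = 1 then some (A v, A v + 1) else
    if φ v = 2 then some (A (G.e v) + 1, A (G.e v)) else some (B v, B v)

variable {G φ} {A B : V → Fin 3}

theorem lab_lg {v : V} (h : Lg G v) : lab G φ A B v = none := if_pos h

theorem lab_1 {v : V} (h : ¬ Lg G v) (h1 : φ v = 1) : lab G φ A B v = some (A v, A v + 1) := by
  unfold lab
  rw [if_neg h, if_pos h1]

theorem lab_2 {v : V} (h : ¬ Lg G v) (h1 : φ v = 2) :
    lab G φ A B v = some (A (G.e v) + 1, A (G.e v)) := by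
  unfold lab
  rw [if_neg h, if_neg (by rw [h1]; decide), if_pos h1]

theorem lab_0 {v : V} (h : ¬ Lg G v) (h1 : φ v = 0) : lab G φ A B v = some (B v, B v) := by
  unfold lab
  rw [if_neg h, if_neg (by rw [h1]; decide), if_neg (by rw [h1]; decide)]

theorem z3 (x : ZMod 3) : x = 0 ∨ x = 1 ∨ x = 2 := by
  revert x
  decide

/-- The states are the `lab A B`. -/
theorem isSt_lab (h : Reg G φ) (hB : ∀ v, φ v = 0 → ¬ Lg G v → B (G.e v) = B v) :
    IsSt gl G (Al gcl G φ) (lab G φ A B) := by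
  constructor
  · intro v
    by_cases hl : Lg G v
    · rw [lab_lg hl]
      exact hl
    · rcases z3 (φ v) with h1 | h1 | h1
      · rw [lab_0 hl h1]
        exact ⟨hl, by rw [h1, gcl0]⟩
      · rw [lab_1 hl h1]
        exact ⟨hl, by rw [h1, gcl1]⟩
      · rw [lab_2 hl h1]
        exact ⟨hl, by rw [h1, gcl2]⟩
  · intro v
    by_cases hl : Lg G v
    · rw [lab_lg hl, lab_lg (lg_e.2 hl)]
      rfl
    · have hl' : ¬ Lg G (G.e v) := fun h1 => hl (lg_e.1 h1)
      rcases z3 (φ v) with h1 | h1 | h1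
      · have h2 : φ (G.e v) = 0 := by rw [h.fl.e, h1, neg_zero]
        rw [lab_0 hl h1, lab_0 hl' h2, hB v h1 hl]
        rfl
      · rw [lab_1 hl h1, lab_2 hl' (h.e1 h1), G.e2]
        rfl
      · rw [lab_2 hl h1, lab_1 hl' (h.e2 h1)]
        rfl

theorem eq_lab {s : V → Option (Fin 3 × Fin 3)} (h : Reg G φ)
    (hs : IsSt gl G (Al gcl G φ) s) (hA : ∀ v, φ v = 1 → A v = ((s v).getD (0, 0)).1)
    (hB : ∀ v, φ v = 0 → ¬ Lg G v → B v = ((s v).getD (0, 0)).1) : s = lab G φ A B := by
  obtain ⟨h1, h2⟩ := hs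
  funext v
  by_cases hl : Lg G v
  · rw [lab_lg hl]
    have h3 := h1 v
    rcases hv : s v with _ | b
    · rfl
    · rw [hv] at h3
      exact absurd hl h3.1
  · have hsome : ∀ u, ¬ Lg G u → ∃ b, s u = some b ∧ gcl b = φ u := by
      intro u hu
      have h3 := h1 u
      rcases hv : s u with _ | b
      · rw [hv] at h3
        exact absurd h3 hu
      · rw [hv] at h3
        exact ⟨b, rfl, h3.2⟩
    obtain ⟨b, hb, hb2⟩ := hsome v hl
    rcases z3 (φ v) with h4 | h4 | h4
    · rw [lab_0 hl h4, hB v h4 hl, hb]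
      rw [h4, gcl0] at hb2
      show some b = some (b.1, b.1)
      rw [Option.some_inj]
      exact Prod.ext rfl hb2.symm
    · rw [lab_1 hl h4, hA v h4, hb]
      rw [h4, gcl1] at hb2
      show some b = some (b.1, b.1 + 1)
      rw [Option.some_inj]
      exact Prod.ext rfl hb2
    · rw [lab_2 hl h4, hA _ (h.e2 h4), h2 v, hb]
      rw [h4, gcl2] at hb2
      show some b = some (b.2 + 1, b.2)
      rw [Option.some_inj]
      exact Prod.ext hb2 rfl

/-- The value at the vertex of a half-edge with flow one. -/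
theorem T_lab (h : Reg G φ) {v : V} (hv : φ v = 1) :
    gl.T (lab G φ A B v) (lab G φ A B (G.r v)) (lab G φ A B (G.r (G.r v))) =
      eps G φ v * (if A v = A (G.e (op G φ v)) then
        (if Lg G (zr G φ v) then 1 else gg (A v) (B (zr G φ v))) else 0) := by
  unfold eps op zr
  rcases h.tri1 hv with h1 | h1
  · rw [if_pos h1.1, if_pos h1.1, if_pos h1.1, lab_1 (h.not_lg1 hv) hv,
      lab_2 (h.not_lg2 h1.2) h1.2]
    by_cases hl : Lg G (G.r v)
    · rw [lab_lg hl, if_pos hl, T_lg0]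
    · rw [lab_0 hl h1.1, if_neg hl, T_ch0]
  · have h3 : ¬ φ (G.r v) = 0 := by rw [h1.1]; decide
    rw [if_neg h3, if_neg h3, if_neg h3, lab_1 (h.not_lg1 hv) hv,
      lab_2 (h.not_lg2 h1.1) h1.1]
    by_cases hl : Lg G (G.r (G.r v))
    · rw [lab_lg hl, if_pos hl, T_lg1]
    · rw [lab_0 hl h1.2, if_neg hl, T_ch1]

/-- The weight of a state. -/
theorem wt_lab [Fintype V] (h : Reg G φ) :
    wt gl G (lab G φ A B) = ep G φ * ∏ v ∈ (Finset.univ : Finset V).filter (fun v => φ v = 1),
      (if A v = A (G.e (op G φ v)) then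
        (if Lg G (zr G φ v) then 1 else gg (A v) (B (zr G φ v))) else 0) := by
  unfold wt
  have h1 : sg G.e G.r (fun v => gl.odd (lab G φ A B v)) (fun v => gl.pos (lab G φ A B v)) = 1 :=
    sg_even G.e G.r
  rw [h1, one_mul, vp_reg h]
  · rw [ep, ← Finset.prod_mul_distrib]
    refine Finset.prod_congr rfl fun v hv => ?_
    exact T_lab h (Finset.mem_filter.1 hv).2
  · intro v
    rw [G.r3]
    exact (gl_cyc _ _ _).symm
  · intro v h2 h3 h4
    rw [lab_lg h2, lab_lg h3, lab_lg h4]
    rfl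

end Lab

/-! ### The sum over the states -/

section Sum

variable {φ : V → ZMod 3}

/-- Labels of the half-edges with flow one. -/
noncomputable def xA (φ : V → ZMod 3) (a : {v : V // φ v = 1} → Fin 3) (v : V) :
    Fin 3 := if h : φ v = 1 then a ⟨v, h⟩ else 0

theorem xA_eq (a : {v : V // φ v = 1} → Fin 3) {v : V} (h : φ v = 1) :
    xA φ a v = a ⟨v, h⟩ := dif_pos h

variable [Fintype V] {G : Gr V n}

/-- One half-edge of every chord. -/
def Rp (G : Gr V n) (φ : V → ZMod 3) (w : V) : Prop :=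
  φ w = 0 ∧ ¬ Lg G w ∧ Fintype.equivFin V w < Fintype.equivFin V (G.e w)

/-- The chord ends. -/
def Ch (G : Gr V n) (φ : V → ZMod 3) (w : V) : Prop := φ w = 0 ∧ ¬ Lg G w

omit [Fintype V] in
theorem ch_e (h : Reg G φ) {w : V} : Ch G φ (G.e w) ↔ Ch G φ w := by
  unfold Ch
  rw [lg_e, h.fl.e, neg_eq_zero]

theorem rp_ch {w : V} (hw : Rp G φ w) : Ch G φ w := ⟨hw.1, hw.2.1⟩

theorem rp_or (h : Reg G φ) {w : V} (hw : Ch G φ w) : Rp G φ w ∨ Rp G φ (G.e w) := by
  have h1 : Fintype.equivFin V w ≠ Fintype.equivFin V (G.e w) := fun h2 =>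
    G.e1 w ((Fintype.equivFin V).injective h2).symm
  have h3 := (ch_e h).2 hw
  rcases lt_or_gt_of_ne h1 with h2 | h2
  · exact Or.inl ⟨hw.1, hw.2, h2⟩
  · refine Or.inr ⟨h3.1, h3.2, ?_⟩
    rw [G.e2]
    exact h2

theorem rp_not {w : V} (hw : Rp G φ w) : ¬ Rp G φ (G.e w) := fun h1 => by
  have h2 := h1.2.2
  rw [G.e2] at h2
  exact lt_asymm hw.2.2 h2

/-- Labels of the half-edges with flow zero. -/
noncomputable def xB (G : Gr V n) (φ : V → ZMod 3) (b : {w : V // Rp G φ w} → Fin 3) (w : V) :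
    Fin 3 := if h : Rp G φ w then b ⟨w, h⟩ else if h : Rp G φ (G.e w) then b ⟨G.e w, h⟩ else 0

theorem xB_eq (b : {w : V // Rp G φ w} → Fin 3) {w : V} (h : Rp G φ w) :
    xB G φ b w = b ⟨w, h⟩ := dif_pos h

theorem xB_eq' (b : {w : V // Rp G φ w} → Fin 3) {w : V} (h : Rp G φ w) :
    xB G φ b (G.e w) = b ⟨w, h⟩ := by
  unfold xB
  rw [dif_neg (rp_not h)]
  have h1 : Rp G φ (G.e (G.e w)) := by
    rw [G.e2]
    exact h
  rw [dif_pos h1]
  congr 1
  exact Subtype.ext (G.e2 w)

theorem xB_e (h : Reg G φ) (b : {w : V // Rp G φ w} → Fin 3) {w : V} (hw : Ch G φ w) :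
    xB G φ b (G.e w) = xB G φ b w := by
  rcases rp_or h hw with h1 | h1
  · rw [xB_eq' b h1, xB_eq b h1]
  · have h2 := xB_eq' b h1
    rw [G.e2] at h2
    rw [h2, xB_eq b h1]

/-- The state sum as a sum over the labels. -/
theorem cgl_sum (h : Reg G φ) : cgl G φ =
    ∑ a : {v : V // φ v = 1} → Fin 3, ∑ b : {w : V // Rp G φ w} → Fin 3,
      ep G φ * ∏ v ∈ (Finset.univ : Finset V).filter (fun v => φ v = 1),
      (if xA φ a v = xA φ a (G.e (op G φ v)) then
        (if Lg G (zr G φ v) then 1 else gg (xA φ a v) (xB G φ b (zr G φ v))) else 0) := by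
  unfold cgl Z
  rw [← Finset.sum_product', Finset.univ_product_univ]
  symm
  refine Finset.sum_bij' (fun p _ => lab G φ (xA φ p.1) (xB G φ p.2))
    (fun s _ => (fun v => ((s v.1).getD (0, 0)).1, fun w => ((s w.1).getD (0, 0)).1))
    ?_ ?_ ?_ ?_ ?_
  · rintro ⟨a, b⟩ _
    rw [Finset.mem_filter]
    exact ⟨Finset.mem_univ _, isSt_lab h fun v h1 h2 => xB_e h b ⟨h1, h2⟩⟩
  · intro s _
    exact Finset.mem_univ _
  · rintro ⟨a, b⟩ _
    refine Prod.ext (funext fun v => ?_) (funext fun w => ?_)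
    · show ((lab G φ (xA φ a) (xB G φ b) v.1).getD (0, 0)).1 = a v
      rw [lab_1 (h.not_lg1 v.2) v.2]
      exact xA_eq a v.2
    · show ((lab G φ (xA φ a) (xB G φ b) w.1).getD (0, 0)).1 = b w
      rw [lab_0 w.2.2.1 w.2.1]
      exact xB_eq b w.2
  · intro s hs
    have h1 := (Finset.mem_filter.1 hs).2
    symm
    refine eq_lab h h1 ?_ ?_
    · intro v hv
      exact xA_eq _ hv
    · intro v hv hl
      rcases rp_or h (⟨hv, hl⟩ : Ch G φ v) with h2 | h2
      · exact xB_eq _ h2
      · have h3 := xB_eq' (fun w : {w : V // Rp G φ w} => ((s w.1).getD (0, 0)).1) h2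
        rw [G.e2] at h3
        rw [h3]
        show ((s (G.e v)).getD (0, 0)).1 = ((s v).getD (0, 0)).1
        rw [h1.2 v]
        have h4 := h1.1 v
        rcases hsv : s v with _ | c
        · rfl
        · rw [hsv] at h4
          have h5 := h4.2
          rw [hv, gcl0] at h5
          exact h5.symm
  · rintro ⟨a, b⟩ _
    exact (wt_lab h).symm

/-! ### The chords -/

/-- The half-edge with flow one at the vertex of a chord end. -/
noncomputable def vz (G : Gr V n) (φ : V → ZMod 3) (w : V) : V :=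
  if φ (G.r w) = 1 then G.r w else G.r (G.r w)

omit [Fintype V] in
theorem vz_spec (h : Reg G φ) {w : V} (hw : Ch G φ w) :
    φ (vz G φ w) = 1 ∧ zr G φ (vz G φ w) = w := by
  have h0 : G.r w ≠ w := fun h1 => hw.2 (Or.inl h1)
  unfold vz
  by_cases h1 : φ (G.r w) = 1
  · rw [if_pos h1]
    refine ⟨h1, ?_⟩
    rcases h.tri1 h1 with h2 | h2
    · rw [G.r3, hw.1] at h2
      exact absurd h2.2 (by decide)
    · unfold zr
      rw [h2.1, if_neg (by decide), G.r3]
  · rw [if_neg h1]
    rcases h.some1 h0 (fun h2 => hw.2 h2.1) with h2 | h2 | h2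
    · rw [hw.1] at h2
      exact absurd h2 (by decide)
    · exact absurd h2 h1
    · refine ⟨h2, ?_⟩
      unfold zr
      rw [G.r3, hw.1, if_pos rfl]

omit [Fintype V] in
theorem vz_zr (h : Reg G φ) {v : V} (hv : φ v = 1) : vz G φ (zr G φ v) = v := by
  unfold vz zr
  rcases h.tri1 hv with h1 | h1
  · rw [if_pos h1.1, h1.2, if_neg (by decide), G.r3]
  · have h3 : ¬ φ (G.r v) = 0 := by rw [h1.1]; decide
    rw [if_neg h3, G.r3, hv, if_pos rfl]

theorem prod_ch (h : Reg G φ) (A B : V → Fin 3) :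
    ∏ v ∈ (Finset.univ : Finset V).filter (fun v => φ v = 1),
      (if Lg G (zr G φ v) then 1 else gg (A v) (B (zr G φ v))) =
    ∏ w ∈ (Finset.univ : Finset V).filter (fun w => Ch G φ w), gg (A (vz G φ w)) (B w) := by
  rw [Finset.prod_ite, Finset.prod_const_one, one_mul]
  refine Finset.prod_bij' (fun v _ => zr G φ v) (fun w _ => vz G φ w) ?_ ?_ ?_ ?_ ?_
  · intro v hv
    rw [Finset.mem_filter, Finset.mem_filter] at hv
    rw [Finset.mem_filter]
    exact ⟨Finset.mem_univ _, h.zr0 hv.1.2, hv.2⟩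
  · intro w hw
    rw [Finset.mem_filter] at hw
    rw [Finset.mem_filter, Finset.mem_filter]
    obtain ⟨h1, h2⟩ := vz_spec h hw.2
    refine ⟨⟨Finset.mem_univ _, h1⟩, ?_⟩
    rw [h2]
    exact hw.2.2
  · intro v hv
    rw [Finset.mem_filter, Finset.mem_filter] at hv
    exact vz_zr h hv.1.2
  · intro w hw
    exact (vz_spec h (Finset.mem_filter.1 hw).2).2
  · intro v hv
    rw [Finset.mem_filter, Finset.mem_filter] at hv
    rw [vz_zr h hv.1.2]

theorem prod_rp (h : Reg G φ) (F : V → ℤ) :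
    ∏ w ∈ (Finset.univ : Finset V).filter (fun w => Ch G φ w), F w =
      ∏ w : {w : V // Rp G φ w}, F w * F (G.e w) := by
  rw [← Finset.prod_filter_mul_prod_filter_not _ (fun w => Rp G φ w), Finset.prod_mul_distrib]
  have e1 : ((Finset.univ : Finset V).filter (fun w => Ch G φ w)).filter (fun w => Rp G φ w) =
      Finset.univ.filter (fun w => Rp G φ w) := by
    ext w
    simp only [Finset.mem_filter, Finset.mem_univ, true_and]
    exact ⟨fun h1 => h1.2, fun h1 => ⟨rp_ch h1, h1⟩⟩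
  have e2 : ∏ w ∈ ((Finset.univ : Finset V).filter (fun w => Ch G φ w)).filter
      (fun w => ¬ Rp G φ w), F w = ∏ w ∈ Finset.univ.filter (fun w => Rp G φ w), F (G.e w) := by
    refine Finset.prod_bij' (fun w _ => G.e w) (fun w _ => G.e w) ?_ ?_ ?_ ?_ ?_
    · intro w hw
      simp only [Finset.mem_filter, Finset.mem_univ, true_and] at hw ⊢
      exact (rp_or h hw.1).resolve_left hw.2
    · intro w hw
      simp only [Finset.mem_filter, Finset.mem_univ, true_and] at hw ⊢
      exact ⟨(ch_e h).2 (rp_ch hw), rp_not hw⟩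
    · intro w _
      exact G.e2 w
    · intro w _
      exact G.e2 w
    · intro w _
      rw [G.e2]
  rw [e1, e2]
  congr 1
  · exact Finset.prod_subtype _ (by simp) F
  · exact Finset.prod_subtype _ (by simp) fun w => F (G.e w)

/-- The sum over the labels of the chords. -/
noncomputable def KK (G : Gr V n) (φ : V → ZMod 3) (a : {v : V // φ v = 1} → Fin 3) : ℤ :=
  ∏ w : {w : V // Rp G φ w},
    (3 * (if xA φ a (vz G φ w) = xA φ a (vz G φ (G.e w)) then 1 else 0) - 1)

theorem sum_b (h : Reg G φ) (a : {v : V // φ v = 1} → Fin 3)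
    (ha : ∀ v, φ v = 1 → xA φ a v = xA φ a (G.e (op G φ v))) :
    ∑ b : {w : V // Rp G φ w} → Fin 3, ∏ v ∈ (Finset.univ : Finset V).filter (fun v => φ v = 1),
      (if xA φ a v = xA φ a (G.e (op G φ v)) then
        (if Lg G (zr G φ v) then 1 else gg (xA φ a v) (xB G φ b (zr G φ v))) else 0) =
      KK G φ a := by
  have e1 : ∀ b : {w : V // Rp G φ w} → Fin 3,
      ∏ v ∈ (Finset.univ : Finset V).filter (fun v => φ v = 1),
      (if xA φ a v = xA φ a (G.e (op G φ v)) then
        (if Lg G (zr G φ v) then 1 else gg (xA φ a v) (xB G φ b (zr G φ v))) else 0) =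
      ∏ w : {w : V // Rp G φ w},
        gg (xA φ a (vz G φ w)) (b w) * gg (xA φ a (vz G φ (G.e w))) (b w) := by
    intro b
    have e2 : ∏ v ∈ (Finset.univ : Finset V).filter (fun v => φ v = 1),
        (if xA φ a v = xA φ a (G.e (op G φ v)) then
        (if Lg G (zr G φ v) then 1 else gg (xA φ a v) (xB G φ b (zr G φ v))) else 0) =
        ∏ v ∈ (Finset.univ : Finset V).filter (fun v => φ v = 1),
        (if Lg G (zr G φ v) then 1 else gg (xA φ a v) (xB G φ b (zr G φ v))) := by
      refine Finset.prod_congr rfl fun v hv => ?_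
      rw [if_pos (ha v (Finset.mem_filter.1 hv).2)]
    rw [e2, prod_ch h, prod_rp h]
    refine Finset.prod_congr rfl fun w _ => ?_
    rw [xB_eq b w.2, xB_eq' b w.2]
  rw [Finset.sum_congr rfl fun b _ => e1 b]
  have e3 := Finset.prod_univ_sum (fun _ : {w : V // Rp G φ w} => (Finset.univ : Finset (Fin 3)))
    fun w x => gg (xA φ a (vz G φ w)) x * gg (xA φ a (vz G φ (G.e w))) x
  rw [Fintype.piFinset_univ] at e3
  rw [← e3]
  unfold KK
  refine Finset.prod_congr rfl fun w _ => ?_
  exact gg_sum _ _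

omit [Fintype V] in
theorem inv_iff (h : Reg G φ) (a : {v : V // φ v = 1} → Fin 3) :
    (∀ v, φ v = 1 → xA φ a v = xA φ a (G.e (op G φ v))) ↔ ∀ v, a (h.N v) = a v := by
  constructor
  · intro h1 v
    have h2 := h1 (nx G φ v.1) (h.nx1 v.2)
    rw [h.op_nx v.2, G.e2, xA_eq a (h.nx1 v.2), xA_eq a v.2] at h2
    exact h2
  · intro h1 v hv
    have h2 := h1 ⟨G.e (op G φ v), h.e2 (h.op2 hv)⟩
    rw [xA_eq a hv, xA_eq a (h.e2 (h.op2 hv)), ← h2]
    congr 1
    exact Subtype.ext (h.nx_op hv).symm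

/-- The state sum as a sum over the labels of the circuits. -/
theorem cgl_eq (h : Reg G φ) : cgl G φ =
    ep G φ * ∑ a ∈ (Finset.univ : Finset ({v : V // φ v = 1} → Fin 3)).filter
      (fun a => ∀ v, a (h.N v) = a v), KK G φ a := by
  rw [cgl_sum h, Finset.mul_sum, Finset.sum_filter]
  refine Finset.sum_congr rfl fun a _ => ?_
  rw [← Finset.mul_sum]
  by_cases ha : ∀ v, a (h.N v) = a v
  · rw [if_pos ha, sum_b h a ((inv_iff h a).2 ha)]
  · rw [if_neg ha]
    have h1 : ∃ v, φ v = 1 ∧ xA φ a v ≠ xA φ a (G.e (op G φ v)) := by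
      by_contra h2
      refine ha ((inv_iff h a).1 fun v hv => ?_)
      by_contra h3
      exact h2 ⟨v, hv, h3⟩
    obtain ⟨v, hv, hv2⟩ := h1
    have h3 : ∀ b : {w : V // Rp G φ w} → Fin 3,
        ∏ v ∈ (Finset.univ : Finset V).filter (fun v => φ v = 1),
        (if xA φ a v = xA φ a (G.e (op G φ v)) then
        (if Lg G (zr G φ v) then 1 else gg (xA φ a v) (xB G φ b (zr G φ v))) else 0) = 0 := by
      intro b
      refine Finset.prod_eq_zero (i := v) (by simp [hv]) ?_
      rw [if_neg hv2]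
    rw [Finset.sum_congr rfl fun b _ => h3 b, Finset.sum_const_zero, mul_zero]

/-! ### Counting -/

theorem card_ch (h : Reg G φ)
    (hc : ((Finset.univ : Finset V).filter fun v => Real G v).card = 24) :
    ((Finset.univ : Finset V).filter fun w => Ch G φ w).card = 8 := by
  have h1 := h.card_real
  rw [hc] at h1
  have h2 : ((Finset.univ : Finset V).filter fun v => Real G v ∧ φ v = 1).card =
      ((Finset.univ : Finset V).filter fun w => Ch G φ w).card := by
    refine Finset.card_bij' (fun v _ => zr G φ v) (fun w _ => vz G φ w) ?_ ?_ ?_ ?_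
    · intro v hv
      simp only [Finset.mem_filter, Finset.mem_univ, true_and] at hv ⊢
      exact ⟨h.zr0 hv.2, (h.real_iff hv.2).1 hv.1⟩
    · intro w hw
      simp only [Finset.mem_filter, Finset.mem_univ, true_and] at hw ⊢
      obtain ⟨h3, h4⟩ := vz_spec h hw
      refine ⟨(h.real_iff h3).2 ?_, h3⟩
      rw [h4]
      exact hw.2
    · intro v hv
      simp only [Finset.mem_filter, Finset.mem_univ, true_and] at hv
      exact vz_zr h hv.2
    · intro w hw
      simp only [Finset.mem_filter, Finset.mem_univ, true_and] at hw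
      exact (vz_spec h hw).2
  rw [← h2]
  omega

theorem card_rp (h : Reg G φ)
    (hc : ((Finset.univ : Finset V).filter fun v => Real G v).card = 24) :
    Fintype.card {w : V // Rp G φ w} = 4 := by
  have h1 := card_ch h hc
  have h2 := Finset.card_filter_add_card_filter_not
    (s := (Finset.univ : Finset V).filter fun w => Ch G φ w) (fun w => Rp G φ w)
  have e1 : (((Finset.univ : Finset V).filter (fun w => Ch G φ w)).filter
      (fun w => Rp G φ w)).card = Fintype.card {w : V // Rp G φ w} := by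
    rw [Fintype.card_subtype]
    congr 1
    ext w
    simp only [Finset.mem_filter, Finset.mem_univ, true_and]
    exact ⟨fun h1 => h1.2, fun h1 => ⟨rp_ch h1, h1⟩⟩
  have e2 : (((Finset.univ : Finset V).filter (fun w => Ch G φ w)).filter
      (fun w => ¬ Rp G φ w)).card = Fintype.card {w : V // Rp G φ w} := by
    rw [Fintype.card_subtype]
    refine Finset.card_bij' (fun w _ => G.e w) (fun w _ => G.e w) ?_ ?_ ?_ ?_
    · intro w hw
      simp only [Finset.mem_filter, Finset.mem_univ, true_and] at hw ⊢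
      exact (rp_or h hw.1).resolve_left hw.2
    · intro w hw
      simp only [Finset.mem_filter, Finset.mem_univ, true_and] at hw ⊢
      exact ⟨(ch_e h).2 (rp_ch hw), rp_not hw⟩
    · intro w _
      exact G.e2 w
    · intro w _
      exact G.e2 w
  rw [e1, e2, h1] at h2
  omega

theorem KK_three (a : {v : V // φ v = 1} → Fin 3) (hR : Fintype.card {w : V // Rp G φ w} = 4) :
    ∃ m : ℤ, KK G φ a = 3 * m + 1 := by
  have h1 : ((KK G φ a : ℤ) : ZMod 3) = ((1 : ℤ) : ZMod 3) := by
    unfold KK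
    rw [Int.cast_prod]
    have h2 : ∀ w : {w : V // Rp G φ w},
        (((3 * (if xA φ a (vz G φ w) = xA φ a (vz G φ (G.e w)) then 1 else 0) - 1 : ℤ)) :
          ZMod 3) = -1 := by
      intro w
      split_ifs
      · decide
      · decide
    rw [Finset.prod_congr rfl fun w _ => h2 w, Finset.prod_const, Finset.card_univ, hR]
    decide
  rw [ZMod.intCast_eq_intCast_iff] at h1
  obtain ⟨m, hm⟩ := h1.symm.dvd
  exact ⟨m, by push_cast at hm; omega⟩

/-- Adding a constant to the labels does not change the value. -/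
theorem KK_shift (a a' : {v : V // φ v = 1} → Fin 3) (c : Fin 3) (h : Reg G φ)
    (ha : ∀ v, a' v = a v + c) : KK G φ a' = KK G φ a := by
  unfold KK
  refine Finset.prod_congr rfl fun w _ => ?_
  have h1 := (vz_spec h (rp_ch w.2)).1
  have h2 := (vz_spec h ((ch_e h).2 (rp_ch w.2))).1
  rw [xA_eq a h1, xA_eq a h2, xA_eq a' h1, xA_eq a' h2, ha, ha]
  have h3 : ∀ x y c : Fin 3, (x + c = y + c) ↔ (x = y) := by decide
  rw [if_congr (h3 _ _ c) rfl rfl]

theorem KK_const (a : {v : V // φ v = 1} → Fin 3) (c : Fin 3) (h : Reg G φ)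
    (ha : ∀ v, a v = c) (hR : Fintype.card {w : V // Rp G φ w} = 4) : KK G φ a = 16 := by
  unfold KK
  have h0 : ∀ w : {w : V // Rp G φ w},
      (3 * (if xA φ a (vz G φ w) = xA φ a (vz G φ (G.e w)) then 1 else 0) - 1 : ℤ) = 2 := by
    intro w
    have h1 := (vz_spec h (rp_ch w.2)).1
    have h2 := (vz_spec h ((ch_e h).2 (rp_ch w.2))).1
    rw [xA_eq a h1, xA_eq a h2, ha, ha, if_pos rfl]
    norm_num
  rw [Finset.prod_congr rfl fun w _ => h0 w, Finset.prod_const, Finset.card_univ, hR]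
  norm_num

omit [Fintype V] in
theorem same_const (h : Reg G φ) {a : {v : V // φ v = 1} → Fin 3} (ha : ∀ v, a (h.N v) = a v)
    {u v : {v : V // φ v = 1}} (huv : h.N.SameCycle u v) : a v = a u := by
  obtain ⟨k, hk⟩ := huv
  rw [← hk]
  have h1 : ∀ (m : ℕ) (w : {v : V // φ v = 1}), a ((h.N ^ m) w) = a w := by
    intro m
    induction m with
    | zero => intro w; rfl
    | succ m ih =>
      intro w
      rw [pow_succ, Equiv.Perm.mul_apply, ih, ha]
  rcases Int.eq_nat_or_neg k with ⟨m, rfl | rfl⟩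
  · rw [zpow_natCast]
    exact h1 m u
  · rw [zpow_neg, zpow_natCast]
    have h2 := h1 m ((h.N ^ m)⁻¹ u)
    have h3 : (h.N ^ m) ((h.N ^ m)⁻¹ u) = u := by
      rw [← Equiv.Perm.mul_apply, mul_inv_cancel, Equiv.Perm.one_apply]
    rw [h3] at h2
    exact h2.symm

/-- One circuit. -/
theorem cgl_one (h : Reg G φ)
    (hc : ((Finset.univ : Finset V).filter fun v => Real G v).card = 24) (h1 : h.One) :
    cgl G φ = 48 * ep G φ := by
  have hR := card_rp h hc
  obtain ⟨w, hw⟩ : ∃ w, Ch G φ w := by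
    have h2 := card_ch h hc
    have h3 : ((Finset.univ : Finset V).filter fun w => Ch G φ w).Nonempty := by
      rw [← Finset.card_pos, h2]
      norm_num
    obtain ⟨w, hw⟩ := h3
    exact ⟨w, (Finset.mem_filter.1 hw).2⟩
  let u : {v : V // φ v = 1} := ⟨vz G φ w, (vz_spec h hw).1⟩
  have h4 : ∑ a ∈ (Finset.univ : Finset ({v : V // φ v = 1} → Fin 3)).filter
      (fun a => ∀ v, a (h.N v) = a v), KK G φ a = ∑ _c : Fin 3, (16 : ℤ) := by
    refine Finset.sum_bij' (fun a _ => a u) (fun c _ => fun _ => c) ?_ ?_ ?_ ?_ ?_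
    · intro a _
      exact Finset.mem_univ _
    · intro c _
      rw [Finset.mem_filter]
      exact ⟨Finset.mem_univ _, fun _ => rfl⟩
    · intro a ha
      funext v
      exact (same_const h (Finset.mem_filter.1 ha).2 (h1 u v)).symm
    · intro c _
      rfl
    · intro a ha
      exact KK_const a (a u) h (fun v => same_const h (Finset.mem_filter.1 ha).2 (h1 u v)) hR
  rw [cgl_eq h, h4]
  simp
  ring

theorem fin3 : ∀ x y : Fin 3, x - y + y = x := by decide

/-- The labels with the constant `x` added on the circuit of `u` and `y` elsewhere. -/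
noncomputable def sh (h : Reg G φ) (u : {v : V // φ v = 1}) (x y : Fin 3)
    (a : {v : V // φ v = 1} → Fin 3) (v : {v : V // φ v = 1}) : Fin 3 :=
  a v + (if h.N.SameCycle u v then x else y)

/-- Several circuits. -/
theorem cgl_not_one (h : Reg G φ)
    (hc : ((Finset.univ : Finset V).filter fun v => Real G v).card = 24) (h1 : ¬ h.One) :
    (9 : ℤ) ∣ cgl G φ := by
  have hR := card_rp h hc
  obtain ⟨u, h2⟩ := not_forall.1 h1
  obtain ⟨w, h3⟩ := not_forall.1 h2
  have hshinv : ∀ (x y : Fin 3) (a : {v : V // φ v = 1} → Fin 3), (∀ v, a (h.N v) = a v) →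
      ∀ v, sh h u x y a (h.N v) = sh h u x y a v := by
    intro x y a ha v
    unfold sh
    rw [ha v, if_congr (Equiv.Perm.sameCycle_apply_right) rfl rfl]
  have hu : ∀ (x y : Fin 3) (a : {v : V // φ v = 1} → Fin 3), sh h u x y a u = a u + x := by
    intro x y a
    unfold sh
    rw [if_pos (Equiv.Perm.SameCycle.refl _ _)]
  have hw : ∀ (x y : Fin 3) (a : {v : V // φ v = 1} → Fin 3), sh h u x y a w = a w + y := by
    intro x y a
    unfold sh
    rw [if_neg h3]
  have h4 : ∑ a ∈ (Finset.univ : Finset ({v : V // φ v = 1} → Fin 3)).filter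
      (fun a => ∀ v, a (h.N v) = a v), KK G φ a =
      ∑ a ∈ (Finset.univ : Finset ({v : V // φ v = 1} → Fin 3)).filter
      (fun a => (∀ v, a (h.N v) = a v) ∧ a u = 0 ∧ a w = 0),
      ∑ p : Fin 3 × Fin 3, KK G φ (sh h u p.1 p.2 a) := by
    rw [← Finset.sum_product']
    refine Finset.sum_bij' (fun a _ => (sh h u (-a u) (-a w) a, (a u, a w)))
      (fun q _ => sh h u q.2.1 q.2.2 q.1) ?_ ?_ ?_ ?_ ?_
    · intro a ha
      have ha' := (Finset.mem_filter.1 ha).2
      rw [Finset.mem_product, Finset.mem_filter]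
      refine ⟨⟨Finset.mem_univ _, hshinv _ _ a ha', ?_, ?_⟩, Finset.mem_univ _⟩
      · show sh h u (-a u) (-a w) a u = 0
        rw [hu]
        exact add_neg_cancel _
      · show sh h u (-a u) (-a w) a w = 0
        rw [hw]
        exact add_neg_cancel _
    · rintro ⟨a, x, y⟩ hq
      rw [Finset.mem_product, Finset.mem_filter] at hq
      rw [Finset.mem_filter]
      exact ⟨Finset.mem_univ _, hshinv _ _ a hq.1.2.1⟩
    · intro a _
      funext v
      show sh h u (a u) (a w) (sh h u (-a u) (-a w) a) v = a v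
      unfold sh
      split_ifs
      · exact neg_add_cancel_right _ _
      · exact neg_add_cancel_right _ _
    · rintro ⟨a, x, y⟩ hq
      rw [Finset.mem_product, Finset.mem_filter] at hq
      obtain ⟨⟨_, h5, h6, h7⟩, _⟩ := hq
      replace h6 : a u = 0 := h6
      replace h7 : a w = 0 := h7
      have e1 : sh h u x y a u = x := by
        rw [hu]
        rw [h6, zero_add]
      have e2 : sh h u x y a w = y := by
        rw [hw]
        rw [h7, zero_add]
      show (sh h u (-(sh h u x y a u)) (-(sh h u x y a w)) (sh h u x y a),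
        (sh h u x y a u, sh h u x y a w)) = (a, (x, y))
      rw [e1, e2]
      congr 1
      funext v
      unfold sh
      split_ifs
      · exact add_neg_cancel_right _ _
      · exact add_neg_cancel_right _ _
    · intro a _
      show KK G φ a = KK G φ (sh h u (a u) (a w) (sh h u (-a u) (-a w) a))
      congr 1
      funext v
      unfold sh
      split_ifs
      · exact (neg_add_cancel_right _ _).symm
      · exact (neg_add_cancel_right _ _).symm
  rw [cgl_eq h, h4]
  refine Dvd.dvd.mul_left (Finset.dvd_sum fun a _ => ?_) _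
  have key : ∀ x y x' y' c : Fin 3, x' = x + c → y' = y + c →
      KK G φ (sh h u x' y' a) = KK G φ (sh h u x y a) := by
    intro x y x' y' c hx hy
    refine KK_shift _ _ c h fun v => ?_
    unfold sh
    rw [hx, hy]
    split_ifs
    · exact (add_assoc _ _ _).symm
    · exact (add_assoc _ _ _).symm
  obtain ⟨m0, hm0⟩ := KK_three (G := G) (sh h u 0 0 a) hR
  obtain ⟨m1, hm1⟩ := KK_three (G := G) (sh h u 1 0 a) hR
  obtain ⟨m2, hm2⟩ := KK_three (G := G) (sh h u 2 0 a) hR
  have k1 := key 0 0 1 1 1 (by decide) (by decide)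
  have k2 := key 0 0 2 2 2 (by decide) (by decide)
  have k3 := key 1 0 2 1 1 (by decide) (by decide)
  have k4 := key 1 0 0 2 2 (by decide) (by decide)
  have k5 := key 2 0 0 1 1 (by decide) (by decide)
  have k6 := key 2 0 1 2 2 (by decide) (by decide)
  rw [Fintype.sum_prod_type]
  simp only [Fin.sum_univ_three]
  rw [k1, k2, k3, k4, k5, k6, hm0, hm1, hm2]
  exact ⟨m0 + m1 + m2 + 1, by ring⟩

theorem cgl_base (h : Reg G φ)
    (hc : ((Finset.univ : Finset V).filter fun v => Real G v).card = 24) :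
    (h.One → cgl G φ ≡ 3 * ep G φ [ZMOD 9]) ∧ (¬ h.One → (9 : ℤ) ∣ cgl G φ) := by
  refine ⟨fun h1 => ?_, fun h1 => cgl_not_one h hc h1⟩
  rw [cgl_one h hc h1]
  refine (Int.modEq_iff_dvd.2 ⟨-5 * ep G φ, ?_⟩)
  ring

end Sum

end Pool.Agent.SWT89
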