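import Pool.Agent.SWT46.Osp
import Pool.Agent.SWT89.Gl
import Pool.Agent.SWT67.Rep
import Pool.Agent.SWT67.Sgn

/-!
# The congruence for flows without sources and sinks
-/

set_option autoImplicit false

namespace Pool.Agent.SWT89

open Equiv Pool.Agent.SWT80 Pool.Agent.SWT45 Pool.Agent.SWT46
open scoped Classical

theorem base_of (hz : S_Czero) : S_base := by
  intro V _ n G φ hf h24 hns
  by_cases h0 : ∃ x, G.r x ≠ x ∧ ¬ (Lg G x ∧ Lg G (G.r x) ∧ Lg G (G.r (G.r x))) ∧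
      (φ x = 0 ∧ φ (G.r x) = 0 ∧ φ (G.r (G.r x)) = 0)
  · obtain ⟨x, h1, h2, h3, h4, h5⟩ := h0
    obtain ⟨e1, e2⟩ := hz V n G x φ hf h1 h3 h4 h5 h2
    unfold C
    rw [e1, e2, sub_zero]
    exact dvd_zero _
  · have h : Reg G φ := ⟨hf, hns, fun x h1 h2 h3 => h0 ⟨x, h1, h2, h3⟩⟩
    have ho := h.cosp_base SWT67.sg_eq SWT67.rep SWT67.vp_eq h24
    have hg := cgl_base h h24
    unfold C
    by_cases h1 : h.One
    · have e1 := ho.1 h1
      have e2 := (hg.1 h1).dvd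
      have e3 := dvd_add e1 e2
      have e4 : cosp G φ - 3 * ep G φ + (3 * ep G φ - cgl G φ) = cosp G φ - cgl G φ := by ring
      rwa [e4] at e3
    · exact dvd_sub (ho.2 h1) (hg.2 h1)

end Pool.Agent.SWT89
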