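import Mathlib
import Pool.Agent.SWT80.Ops
import Pool.Agent.SWT84.Cy

/-!
# Graphs with some edges removed: connectivity, induction on the length of the rim

`D` is a set of half-edges (closed under `e`), the edges which are going to be opened. The graphs
without these edges are not formed; instead all statements are about `G` and `D`.
-/

set_option autoImplicit false

namespace Pool.Agent.SWT89

open Equiv Pool.Agent.SWT49 Pool.Agent.SWT80 Pool.Agent.SWT93 Pool.Agent.SWT84
  Pool.Agent.SWT84.Cy

variable {V W : Type} {n : ℕ}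

/-- A union of components of the graph without the edges in `D`. -/
structure CldD (G : Gr V n) (D S : Set V) : Prop where
  e : ∀ v ∈ S, v ∉ D → G.e v ∈ S
  r : ∀ v ∈ S, G.r v ∈ S

/-- The graph without the edges in `D` is connected. -/
def CD (G : Gr V n) (D : Set V) : Prop := ∀ S : Set V, CldD G D S → S.Nonempty → S = Set.univ

/-- `D` is a set of edges. -/
def Ecl (G : Gr V n) (D : Set V) : Prop := ∀ v ∈ D, G.e v ∈ D

theorem Ecl.iff {G : Gr V n} {D : Set V} (h : Ecl G D) {v : V} : G.e v ∈ D ↔ v ∈ D :=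
  ⟨fun h1 => by rw [← G.e2 v]; exact h _ h1, h v⟩

theorem Ecl.union {G : Gr V n} {D D' : Set V} (h : Ecl G D) (h' : Ecl G D') : Ecl G (D ∪ D') := by
  rintro v (hv | hv)
  · exact Or.inl (h v hv)
  · exact Or.inr (h' v hv)

theorem ecl_pair (G : Gr V n) (h : V) : Ecl G {h, G.e h} := by
  rintro v (hv | hv)
  · rw [hv]
    exact Or.inr rfl
  · have hv' : v = G.e h := hv
    rw [hv', G.e2]
    exact Or.inl rfl

theorem gconn_iff {G : Gr V n} : GConn G ↔ CD G ∅ := by
  constructor
  · intro h S hS
    exact h S ⟨fun v hv => hS.e v hv (fun h => h), hS.r⟩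
  · intro h S hS
    exact h S ⟨fun v hv _ => hS.e v hv, hS.r⟩

theorem CD.mono {G : Gr V n} {D D' : Set V} (h : CD G D) (hD : D' ⊆ D) : CD G D' :=
  fun S hS => h S ⟨fun v hv hv' => hS.e v hv fun h' => hv' (hD h'), hS.r⟩

theorem CD.gconn {G : Gr V n} {D : Set V} (h : CD G D) : GConn G :=
  gconn_iff.2 (h.mono (Set.empty_subset D))

theorem cd_smul {G : Gr V n} {D : Set V} (g : Perm (Fin n)) : CD (g • G) D ↔ CD G D :=
  ⟨fun h S hS => h S ⟨hS.e, hS.r⟩, fun h S hS => h S ⟨hS.e, hS.r⟩⟩

theorem cldD_map {G : Gr V n} {D S : Set V} (f : V ≃ W) :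
    CldD (G.map f) (f '' D) (f '' S) ↔ CldD G D S := by
  have hm : ∀ (T : Set V) v, f v ∈ f '' T ↔ v ∈ T := fun T v => f.injective.mem_set_image
  constructor
  · intro h
    refine ⟨fun v hv hv' => ?_, fun v hv => ?_⟩
    · have h1 := h.e (f v) ((hm _ _).2 hv) fun h' => hv' ((hm _ _).1 h')
      rw [Gr.map_e, hm] at h1
      exact h1
    · have h1 := h.r (f v) ((hm _ _).2 hv)
      rw [Gr.map_r, hm] at h1
      exact h1
  · intro h
    refine ⟨?_, ?_⟩
    · rintro _ ⟨v, hv, rfl⟩ hv'
      rw [Gr.map_e, hm]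
      exact h.e v hv fun h' => hv' ((hm _ _).2 h')
    · rintro _ ⟨v, hv, rfl⟩
      rw [Gr.map_r, hm]
      exact h.r v hv

theorem cd_map {G : Gr V n} {D : Set V} (f : V ≃ W) : CD (G.map f) (f '' D) ↔ CD G D := by
  constructor
  · intro h S hS hne
    have h1 := h (f '' S) ((cldD_map f).2 hS) (hne.image f)
    rw [← Set.image_univ_of_surjective f.surjective] at h1
    exact f.injective.image_injective h1
  · intro h S hS hne
    have h0 : S = f '' (f ⁻¹' S) := (Set.image_preimage_eq S f.surjective).symm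
    have h1 := h (f ⁻¹' S) ((cldD_map f).1 (by rw [← h0]; exact hS)) ?_
    · rw [h0, h1, Set.image_univ_of_surjective f.surjective]
    · obtain ⟨w, hw⟩ := hne
      exact ⟨f.symm w, by show f (f.symm w) ∈ S; rw [f.apply_symm_apply]; exact hw⟩

theorem cd_flip {G : Gr V n} {D : Set V} {x : V} : CD (G.flip x) D ↔ CD G D := by
  have key : ∀ S : Set V, (∀ v ∈ S, (G.flip x).r v ∈ S) ↔ ∀ v ∈ S, G.r v ∈ S := by
    intro S
    constructor
    · intro h v hv
      by_cases hx : G.vt x v
      · have h1 := h v hv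
        rw [Gr.flip_r, Gr.fr_pos hx] at h1
        have h2 := h _ h1
        rw [Gr.flip_r, Gr.fr_pos (Gr.vt_r _ |>.2 (Gr.vt_r _ |>.2 hx)), G.r3] at h2
        exact h2
      · have h1 := h v hv
        rw [Gr.flip_r, Gr.fr_neg hx] at h1
        exact h1
    · intro h v hv
      rw [Gr.flip_r]
      by_cases hx : G.vt x v
      · rw [Gr.fr_pos hx]
        exact h _ (h _ hv)
      · rw [Gr.fr_neg hx]
        exact h _ hv
  exact ⟨fun h S hS => h S ⟨hS.e, (key S).2 hS.r⟩, fun h S hS => h S ⟨hS.e, (key S).1 hS.r⟩⟩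

/-! ### IHX -/

section Loc

variable {I J X : Gr V n} {x : V} {D : Set V}

theorem cldD_J (h : Gr.Loc I J X x) (hD : Ecl I D) (hxD : x ∉ D) (S : Set V) :
    CldD J D S ↔ CldD I D S := by
  have hyD : I.e x ∉ D := fun h' => hxD (hD.iff.1 h')
  have ho : ∀ v, ¬ SWT36.DD I x v → J.r v = I.r v := fun v hv =>
    (h.oth v (SWT36.out_vt hv).1 (SWT36.out_vt hv).2).1
  constructor
  · intro hS
    refine ⟨fun v hv hv' => by rw [← h.eJ]; exact hS.e v hv hv', fun v hv => ?_⟩
    by_cases hD : SWT36.DD I x v
    · have hx : x ∈ S := by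
        have hy : I.e x ∈ S → x ∈ S := fun h1 => by
          have h2 := hS.e _ h1 hyD
          rwa [h.eJ, I.e2] at h2
        rcases hD with h1 | h1 | h1 | h1 | h1 | h1
        · exact h1 ▸ hv
        · exact hy (h1 ▸ hv)
        · refine hy ?_
          have h2 := hS.r _ hv
          rwa [h1, h.j6] at h2
        · have h2 := hS.r _ (hS.r _ hv)
          rwa [h1, h.j2, h.j3] at h2
        · have h2 := hS.r _ hv
          rwa [h1, h.j3] at h2
        · refine hy ?_
          have h2 := hS.r _ (hS.r _ hv)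
          rwa [h1, h.j5, h.j6] at h2
      have hy : I.e x ∈ S := by
        have h2 := hS.e _ hx hxD
        rwa [h.eJ] at h2
      have hb : I.r (I.r x) ∈ S := by
        have h2 := hS.r _ hx
        rwa [h.j1] at h2
      have hc : I.r (I.e x) ∈ S := by
        have h2 := hS.r _ hb
        rwa [h.j2] at h2
      have hd : I.r (I.r (I.e x)) ∈ S := by
        have h2 := hS.r _ hy
        rwa [h.j4] at h2
      have ha : I.r x ∈ S := by
        have h2 := hS.r _ hd
        rwa [h.j5] at h2
      rcases hD with h1 | h1 | h1 | h1 | h1 | h1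
      · rw [h1]; exact ha
      · rw [h1]; exact hc
      · rw [h1]; exact hb
      · rw [h1, I.r3]; exact hx
      · rw [h1]; exact hd
      · rw [h1, I.r3]; exact hy
    · rw [← ho v hD]
      exact hS.r v hv
  · intro hS
    refine ⟨fun v hv hv' => by rw [h.eJ]; exact hS.e v hv hv', fun v hv => ?_⟩
    by_cases hD : SWT36.DD I x v
    · have hx : x ∈ S := by
        have hy : I.e x ∈ S → x ∈ S := fun h1 => by
          have h2 := hS.e _ h1 hyD
          rwa [I.e2] at h2
        rcases hD with h1 | h1 | h1 | h1 | h1 | h1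
        · exact h1 ▸ hv
        · exact hy (h1 ▸ hv)
        · have h2 := hS.r _ (hS.r _ hv)
          rwa [h1, I.r3] at h2
        · have h2 := hS.r _ hv
          rwa [h1, I.r3] at h2
        · refine hy ?_
          have h2 := hS.r _ (hS.r _ hv)
          rwa [h1, I.r3] at h2
        · refine hy ?_
          have h2 := hS.r _ hv
          rwa [h1, I.r3] at h2
      have hy := hS.e _ hx hxD
      have ha := hS.r _ hx
      have hb := hS.r _ ha
      have hc := hS.r _ hy
      have hd := hS.r _ hc
      rcases hD with h1 | h1 | h1 | h1 | h1 | h1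
      · rw [h1, h.j1]; exact hb
      · rw [h1, h.j4]; exact hd
      · rw [h1, h.j6]; exact hy
      · rw [h1, h.j2]; exact hc
      · rw [h1, h.j3]; exact hx
      · rw [h1, h.j5]; exact ha
    · rw [ho v hD]
      exact hS.r v hv

theorem cldD_X (h : Gr.Loc I J X x) (hD : Ecl I D) (hxD : x ∉ D) (S : Set V) :
    CldD X D S ↔ CldD I D S := by
  have hyD : I.e x ∉ D := fun h' => hxD (hD.iff.1 h')
  have ho : ∀ v, ¬ SWT36.DD I x v → X.r v = I.r v := fun v hv =>
    (h.oth v (SWT36.out_vt hv).1 (SWT36.out_vt hv).2).2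
  constructor
  · intro hS
    refine ⟨fun v hv hv' => by rw [← h.eX]; exact hS.e v hv hv', fun v hv => ?_⟩
    by_cases hD : SWT36.DD I x v
    · have hx : x ∈ S := by
        have hy : I.e x ∈ S → x ∈ S := fun h1 => by
          have h2 := hS.e _ h1 hyD
          rwa [h.eX, I.e2] at h2
        rcases hD with h1 | h1 | h1 | h1 | h1 | h1
        · exact h1 ▸ hv
        · exact hy (h1 ▸ hv)
        · have h2 := hS.r _ (hS.r _ hv)
          rwa [h1, h.x2, h.x3] at h2
        · refine hy ?_
          have h2 := hS.r _ hv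
          rwa [h1, h.x6] at h2
        · have h2 := hS.r _ hv
          rwa [h1, h.x3] at h2
        · refine hy ?_
          have h2 := hS.r _ (hS.r _ hv)
          rwa [h1, h.x5, h.x6] at h2
      have hy : I.e x ∈ S := by
        have h2 := hS.e _ hx hxD
        rwa [h.eX] at h2
      have ha : I.r x ∈ S := by
        have h2 := hS.r _ hx
        rwa [h.x1] at h2
      have hc : I.r (I.e x) ∈ S := by
        have h2 := hS.r _ ha
        rwa [h.x2] at h2
      have hd : I.r (I.r (I.e x)) ∈ S := by
        have h2 := hS.r _ hy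
        rwa [h.x4] at h2
      have hb : I.r (I.r x) ∈ S := by
        have h2 := hS.r _ hd
        rwa [h.x5] at h2
      rcases hD with h1 | h1 | h1 | h1 | h1 | h1
      · rw [h1]; exact ha
      · rw [h1]; exact hc
      · rw [h1]; exact hb
      · rw [h1, I.r3]; exact hx
      · rw [h1]; exact hd
      · rw [h1, I.r3]; exact hy
    · rw [← ho v hD]
      exact hS.r v hv
  · intro hS
    refine ⟨fun v hv hv' => by rw [h.eX]; exact hS.e v hv hv', fun v hv => ?_⟩
    by_cases hD : SWT36.DD I x v
    · have hx : x ∈ S := by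
        have hy : I.e x ∈ S → x ∈ S := fun h1 => by
          have h2 := hS.e _ h1 hyD
          rwa [I.e2] at h2
        rcases hD with h1 | h1 | h1 | h1 | h1 | h1
        · exact h1 ▸ hv
        · exact hy (h1 ▸ hv)
        · have h2 := hS.r _ (hS.r _ hv)
          rwa [h1, I.r3] at h2
        · have h2 := hS.r _ hv
          rwa [h1, I.r3] at h2
        · refine hy ?_
          have h2 := hS.r _ (hS.r _ hv)
          rwa [h1, I.r3] at h2
        · refine hy ?_
          have h2 := hS.r _ hv
          rwa [h1, I.r3] at h2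
      have hy := hS.e _ hx hxD
      have ha := hS.r _ hx
      have hb := hS.r _ ha
      have hc := hS.r _ hy
      have hd := hS.r _ hc
      rcases hD with h1 | h1 | h1 | h1 | h1 | h1
      · rw [h1, h.x1]; exact ha
      · rw [h1, h.x4]; exact hd
      · rw [h1, h.x2]; exact hc
      · rw [h1, h.x6]; exact hy
      · rw [h1, h.x3]; exact hx
      · rw [h1, h.x5]; exact hb
    · rw [ho v hD]
      exact hS.r v hv

/-- The three diagrams are connected at the same time. -/
theorem cd_J (h : Gr.Loc I J X x) (hD : Ecl I D) (hxD : x ∉ D) : CD J D ↔ CD I D :=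
  ⟨fun h1 S hS => h1 S ((cldD_J h hD hxD S).2 hS), fun h1 S hS => h1 S ((cldD_J h hD hxD S).1 hS)⟩

theorem cd_X (h : Gr.Loc I J X x) (hD : Ecl I D) (hxD : x ∉ D) : CD X D ↔ CD I D :=
  ⟨fun h1 S hS => h1 S ((cldD_X h hD hxD S).2 hS), fun h1 S hS => h1 S ((cldD_X h hD hxD S).1 hS)⟩

theorem ecl_J (h : Gr.Loc I J X x) : Ecl J D ↔ Ecl I D := by
  unfold Ecl
  rw [h.eJ]

theorem ecl_X (h : Gr.Loc I J X x) : Ecl X D ↔ Ecl I D := by
  unfold Ecl
  rw [h.eX]

end Loc

/-- **Induction on the length of the rim**, without expanding the edges in `D`. -/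
theorem rim_ind_D [Finite V] (D : Set V) (P : Gr V n → Set V → Prop)
    (base : ∀ (G : Gr V n) (R : Set V), Cy G R → R.Nonempty → (∀ v, v ∉ R → v ∉ D → G.r v ∈ R →
      On G R (G.e v) ∨ G.r (G.e v) = G.e v) → P G R)
    (step : ∀ (I J X : Gr V n) (x : V) (R : Set V), Cy I R → R.Nonempty → Gr.Loc I J X x →
      x ∉ R → x ∉ D → I.r x ∈ R → ¬ On I R (I.e x) → P J (R ∪ {x, I.e x}) →
      P X (R ∪ {x, I.e x}) → P I R)
    {G : Gr V n} {R : Set V} (hR : Cy G R) (hne : R.Nonempty) : P G R := by
  have key : ∀ m : ℕ, ∀ (G : Gr V n) (R : Set V), (Rᶜ).ncard = m → Cy G R →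
      R.Nonempty → P G R := by
    intro m
    induction m using Nat.strong_induction_on with
    | _ m ih =>
      intro G R hm hR hne
      by_cases ht : ∀ v, v ∉ R → v ∉ D → G.r v ∈ R → On G R (G.e v) ∨ G.r (G.e v) = G.e v
      · exact base G R hR hne ht
      · push Not at ht
        obtain ⟨x, hx, hxD, ha, hy, hy2⟩ := ht
        have hb := hR.rr_of hx ha
        have hok : Gr.Ok G x := by
          refine ⟨fun h1 => hx (h1 ▸ ha), hy2, fun h1 => ?_, fun h1 => ?_⟩
          · apply hx
            rw [← hR.e_iff, h1]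
            exact ha
          · apply hx
            rw [← hR.e_iff, h1]
            exact hb
        obtain ⟨J, X, hL⟩ := SWT36.exists_loc hok
        obtain ⟨hJ, hX⟩ := hR.loc hL hx ha hy
        have hlt : ((R ∪ {x, G.e x})ᶜ).ncard < m := by
          rw [← hm]
          apply Set.ncard_lt_ncard
          · refine ⟨?_, fun h1 => ?_⟩
            · exact Set.compl_subset_compl.2 Set.subset_union_left
            · have h2 : x ∈ (R ∪ {x, G.e x})ᶜ := h1 hx
              exact h2 (Or.inr (Or.inl rfl))
          · exact Set.toFinite _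
        have hne' : (R ∪ {x, G.e x}).Nonempty := ⟨x, Or.inr (Or.inl rfl)⟩
        exact step G J X x R hR hne hL hx hxD ha hy
          (ih _ hlt J _ rfl hJ hne') (ih _ hlt X _ rfl hX hne')
  exact key _ G R rfl hR hne

end Pool.Agent.SWT89
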