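import Mathlib
import Pool.Agent.SWT65.Ops
import Pool.Agent.SWT67.Opn
import Pool.Agent.SWT89.Rimd

/-!
# Two opened edges
-/

set_option autoImplicit false

namespace Pool.Agent.SWT89

open Equiv Pool.Agent.SWT49 Pool.Agent.SWT80 Pool.Agent.SWT93 Pool.Agent.SWT84
  Pool.Agent.SWT84.Cy Pool.Agent.SWT65

variable {V W : Type} {n : ℕ}

/-- The half-edges of the two edges. -/
def D2 (G : Gr V n) (a b : V) : Set V := {v | v = a ∨ v = G.e a ∨ v = b ∨ v = G.e b}

theorem ecl_D2 (G : Gr V n) (a b : V) : Ecl G (D2 G a b) := by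
  rintro v (hv | hv | hv | hv)
  · rw [hv]; exact Or.inr (Or.inl rfl)
  · rw [hv, G.e2]; exact Or.inl rfl
  · rw [hv]; exact Or.inr (Or.inr (Or.inr rfl))
  · rw [hv, G.e2]; exact Or.inr (Or.inr (Or.inl rfl))

theorem D2_J {I J X : Gr V n} {x : V} (h : Gr.Loc I J X x) (a b : V) : D2 J a b = D2 I a b := by
  unfold D2
  rw [h.eJ]

theorem D2_X {I J X : Gr V n} {x : V} (h : Gr.Loc I J X x) (a b : V) : D2 X a b = D2 I a b := by
  unfold D2
  rw [h.eX]

theorem D2_comm (G : Gr V n) (a b : V) : D2 G a b = D2 G b a := by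
  ext v
  constructor
  · rintro (h | h | h | h)
    · exact Or.inr (Or.inr (Or.inl h))
    · exact Or.inr (Or.inr (Or.inr h))
    · exact Or.inl h
    · exact Or.inr (Or.inl h)
  · rintro (h | h | h | h)
    · exact Or.inr (Or.inr (Or.inl h))
    · exact Or.inr (Or.inr (Or.inr h))
    · exact Or.inl h
    · exact Or.inr (Or.inl h)

theorem D2_eb (G : Gr V n) (a b : V) : D2 G a (G.e b) = D2 G a b := by
  ext v
  constructor
  · rintro (h | h | h | h)
    · exact Or.inl h
    · exact Or.inr (Or.inl h)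
    · exact Or.inr (Or.inr (Or.inr h))
    · rw [G.e2] at h
      exact Or.inr (Or.inr (Or.inl h))
  · rintro (h | h | h | h)
    · exact Or.inl h
    · exact Or.inr (Or.inl h)
    · refine Or.inr (Or.inr (Or.inr ?_))
      rw [G.e2]
      exact h
    · exact Or.inr (Or.inr (Or.inl h))

/-! ### Connectedness -/

theorem inl_mem {S : Set V} {v : V} : (Sum.inl v : V ⊕ Bool) ∈ (Sum.inl '' S : Set (V ⊕ Bool)) ↔
    v ∈ S := Sum.inl_injective.mem_set_image

theorem inr_mem {S : Set V} {t : Bool} : (Sum.inr t : V ⊕ Bool) ∉ (Sum.inl '' S : Set (V ⊕ Bool)) := by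
  rintro ⟨v, _, hv⟩
  cases hv

theorem cd_opn {G : Gr V n} {D : Set V} (hD : Ecl G D) {h : V} (hh : h ∉ D) :
    CD (G.opn h) (Sum.inl '' D) ↔ CD G (D ∪ {h, G.e h}) := by
  have hh' : G.e h ∉ D := fun h' => hh (hD.iff.1 h')
  constructor
  · intro hc S hS hne
    let S' : Set (V ⊕ Bool) := {w | (∃ v ∈ S, w = Sum.inl v) ∨ (w = Sum.inr false ∧ h ∈ S) ∨
      (w = Sum.inr true ∧ G.e h ∈ S)}
    have h1 : S' = Set.univ := by
      refine hc S' ⟨?_, ?_⟩ ?_
      · rintro w (⟨v, hv, rfl⟩ | ⟨rfl, hv⟩ | ⟨rfl, hv⟩) hw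
        · rw [inl_mem] at hw
          by_cases k1 : v = h
          · subst k1
            rw [Gr.opn_e_h]
            exact Or.inr (Or.inl ⟨rfl, hv⟩)
          by_cases k2 : v = G.e h
          · subst k2
            rw [Gr.opn_e_eh]
            exact Or.inr (Or.inr ⟨rfl, hv⟩)
          rw [Gr.opn_e_o _ _ k1 k2]
          refine Or.inl ⟨_, hS.e v hv ?_, rfl⟩
          rintro (k3 | k3 | k3)
          · exact hw k3
          · exact k1 k3
          · exact k2 k3
        · exact Or.inl ⟨h, hv, rfl⟩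
        · exact Or.inl ⟨G.e h, hv, rfl⟩
      · rintro w (⟨v, hv, rfl⟩ | ⟨rfl, hv⟩ | ⟨rfl, hv⟩)
        · exact Or.inl ⟨_, hS.r v hv, rfl⟩
        · exact Or.inr (Or.inl ⟨rfl, hv⟩)
        · exact Or.inr (Or.inr ⟨rfl, hv⟩)
      · obtain ⟨v, hv⟩ := hne
        exact ⟨Sum.inl v, Or.inl ⟨v, hv, rfl⟩⟩
    ext v
    refine ⟨fun _ => Set.mem_univ _, fun _ => ?_⟩
    have h2 : (Sum.inl v : V ⊕ Bool) ∈ S' := by rw [h1]; exact Set.mem_univ _
    rcases h2 with ⟨u, hu, h3⟩ | ⟨h3, _⟩ | ⟨h3, _⟩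
    · rw [Sum.inl.inj h3]
      exact hu
    · cases h3
    · cases h3
  · intro hc S' hS hne
    have hF : Sum.inr false ∈ S' ↔ Sum.inl h ∈ S' := by
      constructor
      · intro h1
        exact hS.e _ h1 inr_mem
      · intro h1
        have h2 := hS.e _ h1 (fun h' => hh (inl_mem.1 h'))
        rw [Gr.opn_e_h] at h2
        exact h2
    have hT : Sum.inr true ∈ S' ↔ Sum.inl (G.e h) ∈ S' := by
      constructor
      · intro h1
        exact hS.e _ h1 inr_mem
      · intro h1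
        have h2 := hS.e _ h1 (fun h' => hh' (inl_mem.1 h'))
        rw [Gr.opn_e_eh] at h2
        exact h2
    have h1 : {v : V | Sum.inl v ∈ S'} = Set.univ := by
      refine hc _ ⟨?_, ?_⟩ ?_
      · intro v hv hv'
        have k1 : v ≠ h := fun h' => hv' (Or.inr (Or.inl h'))
        have k2 : v ≠ G.e h := fun h' => hv' (Or.inr (Or.inr h'))
        have h2 := hS.e _ hv (fun h' => hv' (Or.inl (inl_mem.1 h')))
        rw [Gr.opn_e_o _ _ k1 k2] at h2
        exact h2
      · intro v hv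
        exact hS.r _ hv
      · obtain ⟨w, hw⟩ := hne
        rcases w with v | t
        · exact ⟨v, hw⟩
        · cases t
          · exact ⟨h, hF.1 hw⟩
          · exact ⟨G.e h, hT.1 hw⟩
    have h2 : ∀ v : V, Sum.inl v ∈ S' := fun v => by
      have h3 : v ∈ {v : V | Sum.inl v ∈ S'} := by rw [h1]; exact Set.mem_univ _
      exact h3
    ext w
    refine ⟨fun _ => Set.mem_univ _, fun _ => ?_⟩
    rcases w with v | t
    · exact h2 v
    · cases t
      · exact hF.2 (h2 _)
      · exact hT.2 (h2 _)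

theorem D2_eq {G : Gr V n} {a b : V} :
    D2 G a b = {b, G.e b} ∪ {a, G.e a} := by
  ext v
  constructor
  · rintro (h | h | h | h)
    · exact Or.inr (Or.inl h)
    · exact Or.inr (Or.inr h)
    · exact Or.inl (Or.inl h)
    · exact Or.inl (Or.inr h)
  · rintro ((h | h) | (h | h))
    · exact Or.inr (Or.inr (Or.inl h))
    · exact Or.inr (Or.inr (Or.inr h))
    · exact Or.inl h
    · exact Or.inr (Or.inl h)

theorem gconn_opn2 {G : Gr V n} {a b : V} (h1 : b ≠ a) (h2 : b ≠ G.e a) :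
    GConn (opn2 G a b) ↔ CD G (D2 G a b) := by
  have h3 : (G.opn a).e (Sum.inl b) = Sum.inl (G.e b) := Gr.opn_e_o G a h1 h2
  have h4 : (∅ : Set (V ⊕ Bool)) ∪ {Sum.inl b, (G.opn a).e (Sum.inl b)} =
      Sum.inl '' ({b, G.e b} : Set V) := by
    rw [h3, Set.empty_union, Set.image_pair]
  have h5 : a ∉ ({b, G.e b} : Set V) := by
    rintro (h | h)
    · exact h1 h.symm
    · have h' : a = G.e b := h
      apply h2
      rw [h', G.e2]
  have h6 : Ecl (G.opn a) ∅ := fun _ h => h.elim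
  rw [gconn_iff, ← Set.image_empty Sum.inl, opn2, cd_opn h6 (fun h => h), h4,
    cd_opn (ecl_pair G b) h5, ← D2_eq]

/-- In a connected graph the two opened edges are different. -/
theorem opn2_ne {G : Gr V n} {a b : V} (h : GConn (opn2 G a b)) : b ≠ a ∧ b ≠ G.e a := by
  constructor
  · rintro rfl
    have h1 : (opn2 G b b).e (Sum.inl (Sum.inr false)) = Sum.inr true := by
      have h2 := Gr.opn_e_eh (G.opn b) (h := Sum.inl b)
      rw [Gr.opn_e_h] at h2
      exact h2
    have h2 : (opn2 G b b).e (Sum.inr true) = Sum.inl (Sum.inr false) := by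
      rw [← h1, (opn2 G b b).e2]
    have h3 := h {Sum.inl (Sum.inr false), Sum.inr true} ⟨?_, ?_⟩ ⟨_, Or.inl rfl⟩
    · have h4 : (Sum.inl (Sum.inl b) : (V ⊕ Bool) ⊕ Bool) ∈
          ({Sum.inl (Sum.inr false), Sum.inr true} : Set ((V ⊕ Bool) ⊕ Bool)) := by
        rw [h3]; exact Set.mem_univ _
      rcases h4 with h4 | h4
      · cases h4
      · cases h4
    · rintro w (hw | hw)
      · rw [hw, h1]; exact Or.inr rfl
      · have hw' : w = Sum.inr true := hw
        rw [hw', h2]; exact Or.inl rfl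
    · rintro w (hw | hw)
      · rw [hw]; exact Or.inl rfl
      · have hw' : w = Sum.inr true := hw
        rw [hw']; exact Or.inr rfl
  · rintro rfl
    have h1 : (opn2 G a (G.e a)).e (Sum.inl (Sum.inr true)) = Sum.inr true := by
      have h2 := Gr.opn_e_eh (G.opn a) (h := Sum.inl (G.e a))
      have h0 : (G.opn a).e (Sum.inl (G.e a)) = Sum.inr true := Gr.opn_e_eh G a
      rw [h0] at h2
      exact h2
    have h2 : (opn2 G a (G.e a)).e (Sum.inr true) = Sum.inl (Sum.inr true) := by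
      rw [← h1, (opn2 G a (G.e a)).e2]
    have h3 := h {Sum.inl (Sum.inr true), Sum.inr true} ⟨?_, ?_⟩ ⟨_, Or.inl rfl⟩
    · have h4 : (Sum.inl (Sum.inl a) : (V ⊕ Bool) ⊕ Bool) ∈
          ({Sum.inl (Sum.inr true), Sum.inr true} : Set ((V ⊕ Bool) ⊕ Bool)) := by
        rw [h3]; exact Set.mem_univ _
      rcases h4 with h4 | h4
      · cases h4
      · cases h4
    · rintro w (hw | hw)
      · rw [hw, h1]; exact Or.inr rfl
      · have hw' : w = Sum.inr true := hw
        rw [hw', h2]; exact Or.inl rfl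
    · rintro w (hw | hw)
      · rw [hw]; exact Or.inl rfl
      · have hw' : w = Sum.inr true := hw
        rw [hw']; exact Or.inr rfl

theorem cd_of_opn2 {G : Gr V n} {a b : V} (h : GConn (opn2 G a b)) : CD G (D2 G a b) :=
  (gconn_opn2 (opn2_ne h).1 (opn2_ne h).2).1 h

/-- The opened edge does not end at a leg. -/
theorem inner_of_cd {G : Gr V n} {D : Set V} (h : CD G D) {v : V} (hv : v ∈ D)
    (hn : ∃ w, w ≠ v) : G.r v ≠ v := by
  intro h1
  have h2 := h {v} ⟨?_, ?_⟩ ⟨v, rfl⟩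
  · obtain ⟨w, hw⟩ := hn
    have h3 : w ∈ ({v} : Set V) := by rw [h2]; exact Set.mem_univ _
    exact hw h3
  · rintro u hu hu'
    have hu2 : u = v := hu
    exact absurd (hu2 ▸ hv) hu'
  · rintro u hu
    have hu2 : u = v := hu
    rw [hu2, h1]
    rfl

/-! ### The cycle, IHX -/

theorem cy_opn {G : Gr V n} {R : Set V} (hR : Cy G R) {h : V} (hh : h ∉ R) :
    Cy (G.opn h) (Sum.inl '' R) := by
  have hh' : G.e h ∉ R := fun h' => hh (hR.e_iff.1 h')
  refine ⟨?_, ?_⟩
  · rintro _ ⟨v, hv, rfl⟩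
    have k1 : v ≠ h := fun h' => hh (h' ▸ hv)
    have k2 : v ≠ G.e h := fun h' => hh' (h' ▸ hv)
    rw [Gr.opn_e_o _ _ k1 k2, inl_mem]
    exact hR.e v hv
  · rintro _ ⟨v, hv, rfl⟩
    rw [Gr.opn_r, Gr.opn_r, inl_mem, inl_mem]
    exact hR.two v hv

theorem on_opn {G : Gr V n} {R : Set V} {h : V} {v : V} :
    On (G.opn h) (Sum.inl '' R) (Sum.inl v) ↔ On G R v := by
  unfold On
  rw [Gr.opn_r, inl_mem, inl_mem]

theorem cy_opn2 {G : Gr V n} {R : Set V} (hR : Cy G R) {a b : V} (ha : a ∉ R) (hb : b ∉ R) :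
    Cy (opn2 G a b) (Sum.inl '' (Sum.inl '' R)) :=
  cy_opn (cy_opn hR ha) (fun h => hb (inl_mem.1 h))

theorem loc_opn2 {I J X : Gr V n} {x a b : V} (hL : Gr.Loc I J X x) (hx : x ∉ D2 I a b) :
    Gr.Loc (opn2 I a b) (opn2 J a b) (opn2 X a b) (Sum.inl (Sum.inl x)) := by
  have k1 : x ≠ a := fun h => hx (Or.inl h)
  have k2 : x ≠ I.e a := fun h => hx (Or.inr (Or.inl h))
  have k3 : x ≠ b := fun h => hx (Or.inr (Or.inr (Or.inl h)))
  have k4 : x ≠ I.e b := fun h => hx (Or.inr (Or.inr (Or.inr h)))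
  refine SWT67.opn_loc (fun h => k3 (Sum.inl.inj h)) (fun h => ?_) (SWT67.opn_loc k1 k2 hL)
  by_cases k5 : b = a
  · rw [k5, Gr.opn_e_h] at h
    cases h
  by_cases k6 : b = I.e a
  · rw [k6, Gr.opn_e_eh] at h
    cases h
  rw [Gr.opn_e_o _ _ k5 k6] at h
  exact k4 (Sum.inl.inj h)

/-- No cherry in the opened graph if everything is at the rim. -/
theorem nocherry_opn2 {G : Gr V n} {R : Set V} {a b : V} (hc : GConn (opn2 G a b)) (hR : Cy G R)
    (hne : R.Nonempty) (ha : a ∉ R) (hb : b ∉ R)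
    (ht : ∀ v, v ∉ R → v ∉ D2 G a b → G.r v ∈ R → On G R (G.e v) ∨ G.r (G.e v) = G.e v) :
    NoCherry (opn2 G a b) := by
  refine nocherry_of_cy hc (cy_opn2 hR ha hb) ((hne.image _).image _) ?_
  rintro ((v | t) | t) hv hr
  · have hv' : v ∉ R := fun h => hv (inl_mem.2 (inl_mem.2 h))
    have hr' : G.r v ∈ R := inl_mem.1 (inl_mem.1 hr)
    by_cases hD : v ∈ D2 G a b
    · right
      obtain ⟨n1, n2⟩ := opn2_ne hc
      rcases hD with h | h | h | h
      · have h1 : (opn2 G a b).e (Sum.inl (Sum.inl v)) = Sum.inl (Sum.inr false) := by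
          have h2 : (G.opn a).e (Sum.inl v) = Sum.inr false := by rw [h]; exact Gr.opn_e_h _ _
          have h3 : (opn2 G a b).e (Sum.inl (Sum.inl v)) = Sum.inl ((G.opn a).e (Sum.inl v)) := by
            refine Gr.opn_e_o _ _ (fun h' => n1 ?_) (fun h' => n2 ?_)
            · rw [← Sum.inl.inj h', h]
            · rw [Gr.opn_e_o _ _ n1 n2] at h'
              have h4 := Sum.inl.inj h'
              rw [← h, h4, G.e2]
          rw [h3, h2]
        rw [h1]
        rfl
      · have h1 : (opn2 G a b).e (Sum.inl (Sum.inl v)) = Sum.inl (Sum.inr true) := by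
          have h2 : (G.opn a).e (Sum.inl v) = Sum.inr true := by rw [h]; exact Gr.opn_e_eh _ _
          have h3 : (opn2 G a b).e (Sum.inl (Sum.inl v)) = Sum.inl ((G.opn a).e (Sum.inl v)) := by
            refine Gr.opn_e_o _ _ (fun h' => n2 ?_) (fun h' => n1 ?_)
            · rw [← Sum.inl.inj h', h]
            · rw [Gr.opn_e_o _ _ n1 n2] at h'
              have h4 := Sum.inl.inj h'
              rw [h] at h4
              exact (G.e_inj h4).symm
          rw [h3, h2]
        rw [h1]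
        rfl
      · have h1 : (opn2 G a b).e (Sum.inl (Sum.inl v)) = Sum.inr false := by
          rw [h]
          exact Gr.opn_e_h _ _
        rw [h1]
        rfl
      · have h1 : (opn2 G a b).e (Sum.inl (Sum.inl v)) = Sum.inr true := by
          have h2 := Gr.opn_e_eh (G.opn a) (h := Sum.inl b)
          rw [Gr.opn_e_o _ _ n1 n2] at h2
          rw [h]
          exact h2
        rw [h1]
        rfl
    · have k1 : v ≠ a := fun h => hD (Or.inl h)
      have k2 : v ≠ G.e a := fun h => hD (Or.inr (Or.inl h))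
      have k3 : v ≠ b := fun h => hD (Or.inr (Or.inr (Or.inl h)))
      have k4 : v ≠ G.e b := fun h => hD (Or.inr (Or.inr (Or.inr h)))
      have h1 : (opn2 G a b).e (Sum.inl (Sum.inl v)) = Sum.inl (Sum.inl (G.e v)) := by
        obtain ⟨n1, n2⟩ := opn2_ne hc
        have h3 : (opn2 G a b).e (Sum.inl (Sum.inl v)) = Sum.inl ((G.opn a).e (Sum.inl v)) := by
          refine Gr.opn_e_o _ _ (fun h' => k3 (Sum.inl.inj h')) (fun h' => k4 ?_)
          rw [Gr.opn_e_o _ _ n1 n2] at h'
          exact Sum.inl.inj h'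
        rw [h3, Gr.opn_e_o _ _ k1 k2]
      rw [h1]
      rcases ht v hv' hD hr' with h | h
      · exact Or.inl (on_opn.2 (on_opn.2 h))
      · right
        show Sum.inl (Sum.inl (G.r (G.e v))) = _
        rw [h]
  · exact absurd (inl_mem.1 hr) inr_mem
  · exact absurd hr inr_mem

end Pool.Agent.SWT89
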