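import Mathlib
import Pool.Agent.SWT36.Face
import Pool.Agent.SWT89.Opn2

/-!
# Functionals of the graphs with two opened edges
-/

set_option autoImplicit false

namespace Pool.Agent.SWT89

open Equiv Pool.Agent.SWT49 Pool.Agent.SWT80 Pool.Agent.SWT93 Pool.Agent.SWT84
  Pool.Agent.SWT84.Cy Pool.Agent.SWT65

variable {V W M : Type} {n : ℕ} [AddCommGroup M]

/-- Every natural function on the wheels extends to a functional of the graphs with one loop. -/
def ExtP (M : Type) [AddCommGroup M] (n : ℕ) : Prop :=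
  ∀ v : (V : Type) → Gr V n → M,
    (∀ (V W : Type) [Finite V] (f : V ≃ W) (G : Gr V n), GConn G → NoCherry G →
      Nat.card V = 4 * n → v W (G.map f) = v V G) →
    (∀ (V : Type) [Finite V] (G : Gr V n) (x : V), GConn G → NoCherry G →
      Nat.card V = 4 * n → G.r x ≠ x → v V (G.flip x) = - v V G) →
    ∃ F : (V : Type) → Gr V n → M, Rel F ∧
      (∀ (V : Type) [Finite V] (G : Gr V n), GConn G → NoCherry G → Nat.card V = 4 * n →
        F V G = v V G) ∧
      ∀ (V : Type) [Finite V] (G : Gr V n), ¬ (GConn G ∧ Nat.card V = 4 * n) → F V G = 0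

theorem of_opn2_map {G : Gr V n} {G' : Gr W n} {a b : V} {a' b' : W}
    {f : (V ⊕ Bool) ⊕ Bool ≃ (W ⊕ Bool) ⊕ Bool} (hf : (opn2 G a b).map f = opn2 G' a' b') :
    ∃ g : V ≃ W, G.map g = G' ∧ g a = a' ∧ g b = b' := by
  obtain ⟨f1, h1, h2, _⟩ := SWT67.of_opn_map hf
  obtain ⟨g, h3, h4, h5⟩ := SWT67.of_opn_map h1
  refine ⟨g, h3, h4, ?_⟩
  rw [h5] at h2
  exact Sum.inl.inj h2

theorem opn2_map (f : V ≃ W) (G : Gr V n) (a b : V) :
    (opn2 G a b).map (Gr.exm (Gr.exm f)) = opn2 (G.map f) (f a) (f b) := by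
  unfold opn2
  rw [SWT67.opn_map, SWT67.opn_map]
  rfl

theorem opn2_flip (G : Gr V n) (x a b : V) :
    opn2 (G.flip x) a b = (opn2 G a b).flip (Sum.inl (Sum.inl x)) := by
  unfold opn2
  rw [SWT67.opn_flip, SWT67.opn_flip]

/-- The function `H` of a graph and two of its edges is natural. -/
structure HNat (H : (V : Type) → Gr V n → V → V → M) : Prop where
  iso : ∀ (V W : Type) [Finite V] (f : V ≃ W) (G : Gr V n) (a b : V),
    H W (G.map f) (f a) (f b) = H V G a b
  as : ∀ (V : Type) [Finite V] (G : Gr V n) (x a b : V), G.r x ≠ x →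
    H V (G.flip x) a b = - H V G a b

/-- A graph, two edges and an isomorphism from the graph with these edges opened to `T`. -/
def IsOp {V' : Type} (T : Gr V' (n + 2 + 2)) (V : Type) (G : Gr V n) (a b : V)
    (f : (V ⊕ Bool) ⊕ Bool ≃ V') : Prop := (opn2 G a b).map f = T

open Classical in
/-- `H` as a function of the opened graph. -/
noncomputable def vOf (H : (V : Type) → Gr V n → V → V → M) (V' : Type)
    (T : Gr V' (n + 2 + 2)) : M :=
  if h : ∃ (V : Type) (G : Gr V n) (a b : V) (f : (V ⊕ Bool) ⊕ Bool ≃ V'), IsOp T V G a b f then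
    H h.choose h.choose_spec.choose h.choose_spec.choose_spec.choose
      h.choose_spec.choose_spec.choose_spec.choose
  else 0

theorem isOp_unique {V' V W : Type} {T : Gr V' (n + 2 + 2)} {G : Gr V n} {a b : V}
    {f : (V ⊕ Bool) ⊕ Bool ≃ V'} {G' : Gr W n} {a' b' : W} {f' : (W ⊕ Bool) ⊕ Bool ≃ V'}
    (h : IsOp T V G a b f) (h' : IsOp T W G' a' b' f') :
    ∃ g : V ≃ W, G.map g = G' ∧ g a = a' ∧ g b = b' := by
  apply of_opn2_map (f := f.trans f'.symm)
  have h1 : (opn2 G a b).map f = (opn2 G' a' b').map f' := h.trans h'.symm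
  refine Gr.map_eq ?_ ?_ ?_
  · intro v
    have h2 : ((opn2 G a b).map f).e (f v) = ((opn2 G' a' b').map f').e (f v) := by rw [h1]
    obtain ⟨w, hw⟩ := f'.surjective (f v)
    rw [Gr.map_e, ← hw, Gr.map_e] at h2
    show (opn2 G' a' b').e (f'.symm (f v)) = f'.symm (f ((opn2 G a b).e v))
    rw [← hw, h2, Equiv.symm_apply_apply, Equiv.symm_apply_apply]
  · intro v
    have h2 : ((opn2 G a b).map f).r (f v) = ((opn2 G' a' b').map f').r (f v) := by rw [h1]
    obtain ⟨w, hw⟩ := f'.surjective (f v)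
    rw [Gr.map_r, ← hw, Gr.map_r] at h2
    show (opn2 G' a' b').r (f'.symm (f v)) = f'.symm (f ((opn2 G a b).r v))
    rw [← hw, h2, Equiv.symm_apply_apply, Equiv.symm_apply_apply]
  · intro i
    have h2 : ((opn2 G a b).map f).leg i = ((opn2 G' a' b').map f').leg i := by rw [h1]
    rw [Gr.map_leg, Gr.map_leg] at h2
    show (opn2 G' a' b').leg i = f'.symm (f ((opn2 G a b).leg i))
    rw [h2, Equiv.symm_apply_apply]

theorem finite_of_exm {V V' : Type} [Finite V'] (f : (V ⊕ Bool) ⊕ Bool ≃ V') : Finite V :=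
  Finite.of_injective (fun v => f (Sum.inl (Sum.inl v)))
    fun _ _ h => Sum.inl.inj (Sum.inl.inj (f.injective h))

theorem vOf_eq {H : (V : Type) → Gr V n → V → V → M} (hH : HNat H) {V' : Type} [Finite V']
    {T : Gr V' (n + 2 + 2)} {V : Type} {G : Gr V n} {a b : V} {f : (V ⊕ Bool) ⊕ Bool ≃ V'}
    (h : IsOp T V G a b f) : vOf H V' T = H V G a b := by
  have hV : Finite V := finite_of_exm f
  have h0 : ∃ (V : Type) (G : Gr V n) (a b : V) (f : (V ⊕ Bool) ⊕ Bool ≃ V'), IsOp T V G a b f :=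
    ⟨V, G, a, b, f, h⟩
  unfold vOf
  rw [dif_pos h0]
  obtain ⟨g, h1, h2, h3⟩ := isOp_unique h h0.choose_spec.choose_spec.choose_spec.choose_spec.choose_spec
  rw [← hH.iso V _ g G a b, h1, h2, h3]

theorem flip_map {V V' : Type} {m : ℕ} (f : V ≃ V') (G : Gr V m) (x : V) :
    (G.map f).flip (f x) = (G.flip x).map f := by
  symm
  refine Gr.map_eq (fun v => ?_) (fun v => ?_) (fun i => rfl)
  · rw [Gr.flip_e, Gr.flip_e, Gr.map_e]
  · rw [Gr.flip_r, Gr.flip_r]
    by_cases h : G.vt x v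
    · rw [Gr.fr_pos h, Gr.fr_pos, Gr.map_r, Gr.map_r]
      unfold Gr.vt
      rw [Gr.map_r, Gr.map_r]
      rcases h with h | h | h
      · exact Or.inl (congrArg f h)
      · exact Or.inr (Or.inl (congrArg f h))
      · exact Or.inr (Or.inr (congrArg f h))
    · rw [Gr.fr_neg h, Gr.fr_neg, Gr.map_r]
      unfold Gr.vt
      rw [Gr.map_r, Gr.map_r]
      rintro (h' | h' | h')
      · exact h (Or.inl (f.injective h'))
      · exact h (Or.inr (Or.inl (f.injective h')))
      · exact h (Or.inr (Or.inr (f.injective h')))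

theorem vOf_iso {H : (V : Type) → Gr V n → V → V → M} (hH : HNat H) {V' W' : Type} [Finite V']
    (g : V' ≃ W') (T : Gr V' (n + 2 + 2)) : vOf H W' (T.map g) = vOf H V' T := by
  have hW : Finite W' := Finite.of_equiv V' g
  by_cases h : ∃ (V : Type) (G : Gr V n) (a b : V) (f : (V ⊕ Bool) ⊕ Bool ≃ V'),
      IsOp T V G a b f
  · obtain ⟨V, G, a, b, f, hf⟩ := h
    have hf' : IsOp (T.map g) V G a b (f.trans g) := by
      unfold IsOp at hf ⊢
      rw [← hf]
      rfl
    rw [vOf_eq hH hf, vOf_eq hH hf']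
  · have h' : ¬ ∃ (V : Type) (G : Gr V n) (a b : V) (f : (V ⊕ Bool) ⊕ Bool ≃ W'),
        IsOp (T.map g) V G a b f := by
      rintro ⟨V, G, a, b, f, hf⟩
      refine h ⟨V, G, a, b, f.trans g.symm, ?_⟩
      unfold IsOp at hf ⊢
      have h1 : (opn2 G a b).map (f.trans g.symm) = ((opn2 G a b).map f).map g.symm := rfl
      rw [h1, hf]
      refine Gr.ext (Equiv.ext fun v => ?_) (Equiv.ext fun v => ?_) (funext fun i => ?_)
      · show g.symm (g (T.e (g.symm (g v)))) = T.e v
        rw [Equiv.symm_apply_apply, Equiv.symm_apply_apply]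
      · show g.symm (g (T.r (g.symm (g v)))) = T.r v
        rw [Equiv.symm_apply_apply, Equiv.symm_apply_apply]
      · show g.symm (g (T.leg i)) = T.leg i
        rw [Equiv.symm_apply_apply]
    unfold vOf
    rw [dif_neg h, dif_neg h']

theorem isOp_flip {V' V : Type} {T : Gr V' (n + 2 + 2)} {G : Gr V n} {a b : V}
    {f : (V ⊕ Bool) ⊕ Bool ≃ V'} (h : IsOp T V G a b f) {x : V'} (hx : T.r x ≠ x) :
    ∃ z : V, G.r z ≠ z ∧ IsOp (T.flip x) V (G.flip z) a b f := by
  unfold IsOp at h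
  subst h
  obtain ⟨w, rfl⟩ := f.surjective x
  rw [Gr.map_r] at hx
  have hw : (opn2 G a b).r w ≠ w := fun h' => hx (congrArg f h')
  rcases w with (z | t) | t
  · refine ⟨z, fun h' => hw ?_, ?_⟩
    · show Sum.inl (Sum.inl (G.r z)) = _
      rw [h']
    · unfold IsOp
      rw [flip_map, opn2_flip]
  · exact absurd rfl hw
  · exact absurd rfl hw

theorem vOf_as {H : (V : Type) → Gr V n → V → V → M} (hH : HNat H) {V' : Type} [Finite V']
    (T : Gr V' (n + 2 + 2)) {x : V'} (hx : T.r x ≠ x) :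
    vOf H V' (T.flip x) = - vOf H V' T := by
  by_cases h : ∃ (V : Type) (G : Gr V n) (a b : V) (f : (V ⊕ Bool) ⊕ Bool ≃ V'),
      IsOp T V G a b f
  · obtain ⟨V, G, a, b, f, hf⟩ := h
    have hV : Finite V := finite_of_exm f
    obtain ⟨z, hz, hf'⟩ := isOp_flip hf hx
    rw [vOf_eq hH hf, vOf_eq hH hf', hH.as V G z a b hz]
  · have h' : ¬ ∃ (V : Type) (G : Gr V n) (a b : V) (f : (V ⊕ Bool) ⊕ Bool ≃ V'),
        IsOp (T.flip x) V G a b f := by
      rintro ⟨V, G, a, b, f, hf⟩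
      have hx' : (T.flip x).r x ≠ x := by
        rw [Gr.flip_r, Gr.fr_pos (Or.inl rfl)]
        exact fun h1 => hx (T.r2 h1)
      obtain ⟨z, hz, hf'⟩ := isOp_flip hf hx'
      rw [SWT36.flip_flip] at hf'
      exact h ⟨V, _, a, b, f, hf'⟩
    unfold vOf
    rw [dif_neg h, dif_neg h', neg_zero]

/-- **The extension of `H` to the graphs with one loop and four more legs.** -/
theorem ext14 (hE : ExtP M (n + 2 + 2)) {H : (V : Type) → Gr V n → V → V → M} (hH : HNat H) :
    ∃ F : (V : Type) → Gr V (n + 2 + 2) → M, Rel F ∧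
      (∀ (V : Type) [Finite V] (G : Gr V (n + 2 + 2)),
        ¬ (GConn G ∧ Nat.card V = 4 * (n + 2 + 2)) → F V G = 0) ∧
      ∀ (V : Type) [Finite V] (G : Gr V (n + 2 + 2)), GConn G → NoCherry G →
        Nat.card V = 4 * (n + 2 + 2) → F V G = vOf H V G := by
  obtain ⟨F, h1, h2, h3⟩ := hE (vOf H) (fun V W _ f G _ _ _ => vOf_iso hH f G)
    (fun V _ G x _ _ _ hx => vOf_as hH G hx)
  exact ⟨F, h1, h3, h2⟩

theorem card_opn2 [Finite V] : Nat.card ((V ⊕ Bool) ⊕ Bool) = Nat.card V + 4 := by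
  rw [Nat.card_sum, Nat.card_sum]
  simp

theorem vOf_opn2 [Finite V] {H : (V : Type) → Gr V n → V → V → M} (hH : HNat H) (G : Gr V n)
    (a b : V) : vOf H _ (opn2 G a b) = H V G a b := by
  refine vOf_eq (f := Equiv.refl _) hH ?_
  unfold IsOp
  exact Gr.ext rfl rfl rfl

end Pool.Agent.SWT89
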