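import Mathlib
import Pool.Agent.SWT80.Ops2
import Pool.Agent.SWT89.Ext

/-!
# Values with a hub at the end of an opened edge: the rim lemma R6 and the crossing of a hair

`A V G x` is the value on the graph `G` with the hub at the vertex of `x`.
-/

set_option autoImplicit false

namespace Pool.Agent.SWT89

open Equiv Pool.Agent.SWT49 Pool.Agent.SWT80 Pool.Agent.SWT93 Pool.Agent.SWT84
  Pool.Agent.SWT84.Cy Pool.Agent.SWT65

variable {V W M : Type} {n : ℕ} [AddCommGroup M]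

/-- The properties of the values with a hub. -/
structure HubF (A : (V : Type) → Gr V n → V → M) : Prop where
  iso : ∀ (V W : Type) [Finite V] (f : V ≃ W) (G : Gr V n) (x : V),
    A W (G.map f) (f x) = A V G x
  as : ∀ (V : Type) [Finite V] (G : Gr V n) (y x : V), G.r y ≠ y → A V (G.flip y) x = - A V G x
  ihx : ∀ (V : Type) [Finite V] (I J X : Gr V n) (y x : V), Gr.Loc I J X y → I.r x ≠ x →
    ¬ I.vt x y → ¬ I.vt x (I.e y) → A V I x = A V J x - A V X x
  slide : ∀ (V : Type) [Finite V] (I J X : Gr V n) (x u w : V) (p : Fin n), Gr.Loc I J X x →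
    ((u = I.r (I.e x) ∧ w = I.r (I.r (I.e x))) ∨ (w = I.r (I.e x) ∧ u = I.r (I.r (I.e x)))) →
    I.e w = I.leg p → A V I x = A V J u - A V X u

/-- The half-edges at the two opened edges: the vertices of the four new legs. -/
def kap (k : Fin 4) (G : Gr V n) (a b : V) : V := ![a, G.e a, b, G.e b] k

theorem kap_mem (k : Fin 4) (G : Gr V n) (a b : V) : kap k G a b ∈ D2 G a b := by
  fin_cases k
  · exact Or.inl rfl
  · exact Or.inr (Or.inl rfl)
  · exact Or.inr (Or.inr (Or.inl rfl))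
  · exact Or.inr (Or.inr (Or.inr rfl))

theorem kap_e {k : Fin 4} {G G' : Gr V n} (h : G'.e = G.e) (a b : V) :
    kap k G' a b = kap k G a b := by
  unfold kap
  rw [h]

theorem kap_map (k : Fin 4) (G : Gr V n) (f : V ≃ W) (a b : V) :
    kap k (G.map f) (f a) (f b) = f (kap k G a b) := by
  fin_cases k
  · rfl
  · exact Gr.map_e f G a
  · rfl
  · exact Gr.map_e f G b

theorem hNat (k : Fin 4) {A : (V : Type) → Gr V n → V → M} (hA : HubF A) :
    HNat (fun (V : Type) (G : Gr V n) a b => A V G (kap k G a b)) where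
  iso V W _ f G a b := by
    show A W (G.map f) (kap k (G.map f) (f a) (f b)) = _
    rw [kap_map, hA.iso]
  as V _ G x a b hx := by
    show A V (G.flip x) (kap k (G.flip x) a b) = _
    rw [hA.as V G x _ hx, kap_e (G := G) (G' := G.flip x) rfl]

/-! ### The rim lemma -/

/-- The properties of the extension with the hub at the end number `k`. -/
structure IsExt (k : Fin 4) (A : (V : Type) → Gr V n → V → M)
    (F : (V : Type) → Gr V (n + 2 + 2) → M) : Prop where
  rel : Rel F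
  off : ∀ (V : Type) [Finite V] (G : Gr V (n + 2 + 2)),
    ¬ (GConn G ∧ Nat.card V = 4 * (n + 2 + 2)) → F V G = 0
  wh : ∀ (V : Type) [Finite V] (G : Gr V (n + 2 + 2)), GConn G → NoCherry G →
    Nat.card V = 4 * (n + 2 + 2) →
      F V G = vOf (fun (V : Type) (G : Gr V n) a b => A V G (kap k G a b)) V G

theorem IsExt.eq {k : Fin 4} {A : (V : Type) → Gr V n → V → M} (hA : HubF A)
    {F : (V : Type) → Gr V (n + 2 + 2) → M} (h : IsExt k A F) (V : Type) [Finite V] (G : Gr V n)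
    (a b : V) (h1 : GConn (opn2 G a b)) (h2 : NoCherry (opn2 G a b))
    (h3 : Nat.card V = 4 * n + 12) : F _ (opn2 G a b) = A V G (kap k G a b) := by
  rw [h.wh _ _ h1 h2 (by rw [card_opn2, h3]; omega), vOf_opn2 (hNat k hA)]

theorem exists_ext (hE : ExtP M (n + 2 + 2)) (k : Fin 4) {A : (V : Type) → Gr V n → V → M}
    (hA : HubF A) : ∃ F, IsExt k A F := by
  obtain ⟨F, h1, h2, h3⟩ := ext14 hE (hNat k hA)
  exact ⟨F, h1, h2, h3⟩

/-- The rim property: `val G a b` is the value with the hub at `kap k G a b` if this vertex is at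
the rim. -/
def RimP (k : Fin 4) (A : Gr V n → V → M) (val : Gr V n → V → V → M) : Prop :=
  ∀ (G : Gr V n) (R : Set V) (a b : V), Cy G R → R.Nonempty → (∀ v ∈ D2 G a b, v ∉ R) →
    b ≠ a → b ≠ G.e a → CD G (D2 G a b) → G.r (kap k G a b) ∈ R →
    val G a b = A G (kap k G a b)

/-- The relation IHX away from the opened edges. -/
def IhxP (val : Gr V n → V → V → M) : Prop :=
  ∀ (I J X : Gr V n) (x a b : V), Gr.Loc I J X x → x ∉ D2 I a b →
    val I a b = val J a b - val X a b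

theorem IsExt.ihxP {k : Fin 4} {A : (V : Type) → Gr V n → V → M}
    {F : (V : Type) → Gr V (n + 2 + 2) → M} (h : IsExt k A F) [Finite V] :
    IhxP (fun (G : Gr V n) a b => F _ (opn2 G a b)) :=
  fun _ _ _ _ _ _ hL hx => h.rel.ihx _ _ _ _ _ (loc_opn2 hL hx)

/-- **R6.** -/
theorem IsExt.rimP {k : Fin 4} {A : (V : Type) → Gr V n → V → M} (hA : HubF A)
    {F : (V : Type) → Gr V (n + 2 + 2) → M} (h : IsExt k A F) [Finite V]
    (hV : Nat.card V = 4 * n + 12) : RimP k (A V) (fun (G : Gr V n) a b => F _ (opn2 G a b)) := by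
  intro G R a b hR hne hD hn1 hn2 hc hk
  let P : Gr V n → Set V → Prop := fun G' R' => G'.e = G.e → (∀ v ∈ D2 G a b, v ∉ R') →
    CD G' (D2 G a b) → G'.r (kap k G a b) ∈ R' →
    F _ (opn2 G' a b) = A V G' (kap k G a b)
  have hP : P G R := by
    refine rim_ind_D (D2 G a b) P ?_ ?_ hR hne
    · intro G' R' hR' hne' ht he hD' hc' hk'
      have hD2 : D2 G' a b = D2 G a b := by unfold D2; rw [he]
      have hn2' : b ≠ G'.e a := by rw [he]; exact hn2
      have hg : GConn (opn2 G' a b) := (gconn_opn2 hn1 hn2').2 (by rw [hD2]; exact hc')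
      rw [h.eq hA V G' a b hg ?_ hV, kap_e he]
      refine nocherry_opn2 hg hR' hne' (hD' _ (Or.inl rfl))
        (hD' _ (Or.inr (Or.inr (Or.inl rfl)))) ?_
      intro v hv hv' hr
      rw [hD2] at hv'
      exact ht v hv hv' hr
    · intro I J X x R' hI hne' hL hx hxD ha hy hJ hX he hD' hc' hk'
      have hD2 : D2 I a b = D2 G a b := by unfold D2; rw [he]
      have hE : Ecl I (D2 G a b) := by rw [← hD2]; exact ecl_D2 I a b
      have hκ : kap k G a b ∈ D2 G a b := kap_mem k G a b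
      have hκR := hD' _ hκ
      have hxκ : ¬ I.vt (kap k G a b) x := by
        rintro (h' | h' | h')
        · exact hxD (h' ▸ hκ)
        · exact hx (h' ▸ hk')
        · exact hx (h' ▸ hI.rr_of hκR hk')
      have hyκ : ¬ I.vt (kap k G a b) (I.e x) := by
        intro h'
        apply hy
        rcases h' with h' | h' | h'
        · exact Or.inr (h' ▸ hk')
        · exact Or.inl (h' ▸ hk')
        · exact Or.inl (h' ▸ hI.rr_of hκR hk')
      have hin : I.r (kap k G a b) ≠ kap k G a b := fun h' => hκR (h' ▸ hk')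
      have hD'' : ∀ v ∈ D2 G a b, v ∉ R' ∪ {x, I.e x} := by
        rintro v hv (h' | h' | h')
        · exact hD' v hv h'
        · exact hxD (h' ▸ hv)
        · have h'' : v = I.e x := h'
          exact hxD (hE.iff.1 (h'' ▸ hv))
      obtain ⟨o1, o2⟩ := hL.oth (kap k G a b) (fun h' => hxκ (Gr.vt_symm I h'))
        (fun h' => hyκ (Gr.vt_symm I h'))
      have e1 := hJ (hL.eJ.trans he) hD'' ((cd_J hL hE hxD).2 hc') (by rw [o1]; exact Or.inl hk')
      have e2 := hX (hL.eX.trans he) hD'' ((cd_X hL hE hxD).2 hc') (by rw [o2]; exact Or.inl hk')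
      rw [h.rel.ihx _ _ _ _ _ (loc_opn2 hL (by rw [hD2]; exact hxD)), e1, e2,
        ← hA.ihx V I J X x _ hL hin hxκ hyκ]
  exact hP rfl hD hc hk

/-! ### The crossing of a hair -/

/-- The vertex of `x` is `{x, y, z}`. -/
def V3 (G : Gr V n) (x y z : V) : Prop :=
  (G.r x = y ∧ G.r y = z ∧ G.r z = x) ∨ (G.r x = z ∧ G.r z = y ∧ G.r y = x)

theorem V3.swap {G : Gr V n} {x y z : V} (h : V3 G x y z) : V3 G y x z := by
  rcases h with ⟨h1, h2, h3⟩ | ⟨h1, h2, h3⟩
  · exact Or.inr ⟨h2, h3, h1⟩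
  · exact Or.inl ⟨h3, h1, h2⟩

theorem V3.of {G : Gr V n} {x y : V} (h : y = G.r x ∨ y = G.r (G.r x)) :
    ∃ z, V3 G x y z := by
  rcases h with rfl | rfl
  · exact ⟨G.r (G.r x), Or.inl ⟨rfl, rfl, G.r3 x⟩⟩
  · exact ⟨G.r x, Or.inr ⟨rfl, rfl, G.r3 x⟩⟩

theorem V3.nf {G : Gr V n} {x y z : V} (h : V3 G x y z) (hx : G.r x ≠ x) :
    y ≠ x ∧ z ≠ x ∧ y ≠ z ∧ G.r y ≠ y ∧ G.r z ≠ z := by
  have k : ∀ {a b c : V}, G.r a = b → G.r b = c → G.r c = a → G.r a ≠ a →
      b ≠ a ∧ c ≠ a ∧ b ≠ c ∧ G.r b ≠ b ∧ G.r c ≠ c := by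
    intro a b c h1 h2 h3 h4
    have h5 : b ≠ a := fun h => h4 (h1.trans h)
    have h6 : b ≠ c := fun h => h5 (G.r_inj (by rw [h2, h1, ← h]))
    have h7 : c ≠ a := fun h => by
      rw [h] at h3
      exact h4 h3
    exact ⟨h5, h7, h6, fun h => h6 (h.symm.trans h2), fun h => h7 (h.symm.trans h3)⟩
  rcases h with ⟨h1, h2, h3⟩ | ⟨h1, h2, h3⟩
  · exact k h1 h2 h3 hx
  · obtain ⟨k1, k2, k3, k4, k5⟩ := k h1 h2 h3 hx
    exact ⟨k2, k1, Ne.symm k3, k5, k4⟩

theorem V3.cl {G : Gr V n} {x y z v : V} (h : V3 G x y z) (hv : v = x ∨ v = y ∨ v = z) :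
    G.r v = x ∨ G.r v = y ∨ G.r v = z := by
  rcases h with ⟨h1, h2, h3⟩ | ⟨h1, h2, h3⟩
  · rcases hv with rfl | rfl | rfl
    · exact Or.inr (Or.inl h1)
    · exact Or.inr (Or.inr h2)
    · exact Or.inl h3
  · rcases hv with rfl | rfl | rfl
    · exact Or.inr (Or.inr h1)
    · exact Or.inl h3
    · exact Or.inr (Or.inl h2)

/-- Two half-edges of a vertex are off the cycle, so is the third one. -/
theorem V3.off {G : Gr V n} {R : Set V} (hR : Cy G R) {x y z : V} (h : V3 G x y z) (hx : x ∉ R)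
    (hz : z ∉ R) : y ∉ R ∧ ¬ On G R x ∧ ¬ On G R y ∧ ¬ On G R z := by
  have hy : y ∉ R := by
    intro hy
    rcases h with ⟨h1, h2, h3⟩ | ⟨h1, h2, h3⟩
    · rcases hR.two y hy with ⟨h4, _⟩ | ⟨_, h4⟩
      · exact hz (h2 ▸ h4)
      · rw [h2, h3] at h4
        exact hx h4
    · rcases hR.two y hy with ⟨h4, _⟩ | ⟨_, h4⟩
      · exact hx (h3 ▸ h4)
      · rw [h3, h1] at h4
        exact hz h4
  have k : ∀ v, (v = x ∨ v = y ∨ v = z) → v ∉ R := by
    rintro v (rfl | rfl | rfl)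
    · exact hx
    · exact hy
    · exact hz
  have k2 : ∀ v, (v = x ∨ v = y ∨ v = z) → ¬ On G R v := by
    intro v hv h'
    rcases h' with h' | h'
    · exact k v hv h'
    · exact k _ (h.cl hv) h'
  exact ⟨hy, k2 x (Or.inl rfl), k2 y (Or.inr (Or.inl rfl)), k2 z (Or.inr (Or.inr rfl))⟩

/-- The hair: `z` leads to an ordinary leg, or is one of the two halves of the other opened
edge. -/
def Hair (G : Gr V n) (c z : V) : Prop := G.r (G.e z) = G.e z ∨ z = c ∨ z = G.e c

theorem V3.J {I J X : Gr V n} {w x y z : V} (hL : Gr.Loc I J X w) (h : V3 I x y z)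
    (h1 : ¬ I.vt x w) (h2 : ¬ I.vt x (I.e w)) : V3 J x y z ∧ V3 X x y z := by
  have hvt : ∀ v, (v = x ∨ v = y ∨ v = z) → I.vt x v := by
    intro v hv
    unfold Gr.vt
    rcases h with ⟨k1, k2, k3⟩ | ⟨k1, k2, k3⟩
    · rcases hv with rfl | rfl | rfl
      · exact Or.inl rfl
      · exact Or.inr (Or.inl k1.symm)
      · exact Or.inr (Or.inr (by rw [k1, k2]))
    · rcases hv with rfl | rfl | rfl
      · exact Or.inl rfl
      · exact Or.inr (Or.inr (by rw [k1, k2]))
      · exact Or.inr (Or.inl k1.symm)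
  have ho : ∀ v, (v = x ∨ v = y ∨ v = z) → J.r v = I.r v ∧ X.r v = I.r v := by
    intro v hv
    have h3 := hvt v hv
    exact hL.oth v (fun h' => h1 (I.vt_trans h3 (I.vt_symm h')))
      (fun h' => h2 (I.vt_trans h3 (I.vt_symm h')))
  have o1 := ho x (Or.inl rfl)
  have o2 := ho y (Or.inr (Or.inl rfl))
  have o3 := ho z (Or.inr (Or.inr rfl))
  constructor
  · rcases h with ⟨k1, k2, k3⟩ | ⟨k1, k2, k3⟩
    · exact Or.inl ⟨o1.1.trans k1, o2.1.trans k2, o3.1.trans k3⟩
    · exact Or.inr ⟨o1.1.trans k1, o3.1.trans k2, o2.1.trans k3⟩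
  · rcases h with ⟨k1, k2, k3⟩ | ⟨k1, k2, k3⟩
    · exact Or.inl ⟨o1.2.trans k1, o2.2.trans k2, o3.2.trans k3⟩
    · exact Or.inr ⟨o1.2.trans k1, o3.2.trans k2, o2.2.trans k3⟩

theorem leg_off {G : Gr V n} {R : Set V} (hR : Cy G R) {z : V} (h : G.r (G.e z) = G.e z) :
    z ∉ R := fun hz => hR.ne_leg (hR.e z hz) h

end Pool.Agent.SWT89
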