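import Mathlib
import Pool.Agent.SWT89.Hub

/-!
# The crossing of a hair (TV)

`x`, `y`, `z` is a vertex, `z` leads to a leg or is a half of the other opened edge `c`. The value
with the edge of `x` opened is the value with the edge of `y` opened.
-/

set_option autoImplicit false

namespace Pool.Agent.SWT89

open Equiv Pool.Agent.SWT49 Pool.Agent.SWT80 Pool.Agent.SWT93 Pool.Agent.SWT84
  Pool.Agent.SWT84.Cy Pool.Agent.SWT65

variable {V W M : Type} {n : ℕ} [AddCommGroup M]

theorem exists_ne (G : Gr V n) (v : V) : ∃ w, w ≠ v := ⟨G.e v, G.e1 v⟩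

section

variable {G : Gr V n} {R : Set V} {c x y z : V}

/-- The set-up of the crossing. -/
structure Cross (G : Gr V n) (c x y z : V) : Prop where
  v : V3 G x y z
  hair : Hair G c z
  cd : CD G (D2 G c x)
  n1 : x ≠ c
  n2 : x ≠ G.e c

theorem Cross.xin (h : Cross G c x y z) : G.r x ≠ x :=
  inner_of_cd h.cd (Or.inr (Or.inr (Or.inl rfl))) (exists_ne G x)

theorem Cross.cin (h : Cross G c x y z) : G.r c ≠ c :=
  inner_of_cd h.cd (Or.inl rfl) (exists_ne G c)

theorem Cross.ecin (h : Cross G c x y z) : G.r (G.e c) ≠ G.e c :=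
  inner_of_cd h.cd (Or.inr (Or.inl rfl)) (exists_ne G _)

theorem Cross.exin (h : Cross G c x y z) : G.r (G.e x) ≠ G.e x :=
  inner_of_cd h.cd (Or.inr (Or.inr (Or.inr rfl))) (exists_ne G _)

/-- `y` is not at the opened edges: otherwise the vertex would be a component. -/
theorem Cross.yD (h : Cross G c x y z) (hne : ∃ v, G.r v ≠ v ∧ v ≠ x ∧ v ≠ y ∧ v ≠ z) :
    y ∉ D2 G c x := by
  intro hy
  have h1 := h.cd {v | (v = x ∨ v = y ∨ v = z) ∨ (v = G.e z ∧ G.r v = v)} ⟨?_, ?_⟩
    ⟨x, Or.inl (Or.inl rfl)⟩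
  · obtain ⟨v, k1, k2, k3, k4⟩ := hne
    have h2 : v ∈ {v | (v = x ∨ v = y ∨ v = z) ∨ (v = G.e z ∧ G.r v = v)} := by
      rw [h1]; exact Set.mem_univ _
    rcases h2 with (h2 | h2 | h2) | ⟨_, h2⟩
    · exact k2 h2
    · exact k3 h2
    · exact k4 h2
    · exact k1 h2
  · rintro v ((rfl | rfl | rfl) | ⟨rfl, hv⟩) hv'
    · exact absurd (Or.inr (Or.inr (Or.inl rfl))) hv'
    · exact absurd hy hv'
    · rcases h.hair with h2 | h2 | h2
      · exact Or.inr ⟨rfl, h2⟩
      · exact absurd (Or.inl h2) hv'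
      · exact absurd (Or.inr (Or.inl h2)) hv'
    · rw [G.e2]
      exact Or.inl (Or.inr (Or.inr rfl))
  · rintro v (hv | ⟨rfl, hv⟩)
    · exact Or.inl (h.v.cl hv)
    · exact Or.inr ⟨hv, by rw [hv]; exact hv⟩

theorem Cross.ex (h : Cross G c x y z) (hy : y ∉ D2 G c x) :
    G.e x ≠ x ∧ G.e x ≠ y ∧ G.e x ≠ z ∧ ¬ (G.e x = G.e z ∧ G.r (G.e x) = G.e x) := by
  obtain ⟨k1, k2, k3, k4, k5⟩ := h.v.nf h.xin
  refine ⟨G.e1 x, fun h1 => hy (Or.inr (Or.inr (Or.inr h1.symm))), fun h1 => ?_, fun h1 =>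
    k2 (G.e_inj h1.1).symm⟩
  rcases h.hair with h2 | h2 | h2
  · rw [← h1, G.e2] at h2
    exact h.xin h2
  · exact h.n2 (by rw [← h2, ← h1, G.e2])
  · exact h.n1 (G.e_inj (h1.trans h2))

theorem Cross.ey (h : Cross G c x y z) (hy : y ∉ D2 G c x) :
    G.e y ≠ x ∧ G.e y ≠ y ∧ G.e y ≠ z ∧ ¬ (G.e y = G.e z ∧ G.r (G.e y) = G.e y) := by
  obtain ⟨k1, k2, k3, k4, k5⟩ := h.v.nf h.xin
  refine ⟨fun h1 => hy (Or.inr (Or.inr (Or.inr ?_))), G.e1 y, fun h1 => ?_, fun h1 =>
    k3 (G.e_inj h1.1)⟩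
  · rw [← h1, G.e2]
  · rcases h.hair with h2 | h2 | h2
    · rw [← h1, G.e2] at h2
      exact k4 h2
    · exact hy (Or.inr (Or.inl (by rw [← h2, ← h1, G.e2])))
    · exact hy (Or.inl (G.e_inj (h1.trans h2)))

/-- Opening on the other side of the hair does not disconnect the graph. -/
theorem Cross.series (h : Cross G c x y z) (hy : y ∉ D2 G c x) : CD G (D2 G c y) := by
  intro S hS hne
  obtain ⟨k1, k2, k3, k4, k5⟩ := h.v.nf h.xin
  obtain ⟨a1, a2, a3, a4⟩ := h.ex hy
  obtain ⟨b1, b2, b3, b4⟩ := h.ey hy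
  have yc : y ≠ c := fun h' => hy (Or.inl h')
  have yc' : y ≠ G.e c := fun h' => hy (Or.inr (Or.inl h'))
  have hxD : x ∉ D2 G c y := by
    rintro (h1 | h1 | h1 | h1)
    · exact h.n1 h1
    · exact h.n2 h1
    · exact k1 h1.symm
    · exact b1 h1.symm
  have hexD : G.e x ∉ D2 G c y := fun h' => hxD ((ecl_D2 G c y).iff.1 h')
  -- the vertex and its leg
  let U : Set V := {v | (v = x ∨ v = y ∨ v = z) ∨ (v = G.e z ∧ G.r v = v)}
  have hexU : G.e x ∉ U := by
    rintro ((h1 | h1 | h1) | h1)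
    · exact a1 h1
    · exact a2 h1
    · exact a3 h1
    · exact a4 h1
  have heyU : G.e y ∉ U := by
    rintro ((h1 | h1 | h1) | h1)
    · exact b1 h1
    · exact b2 h1
    · exact b3 h1
    · exact b4 h1
  have hUr : ∀ v ∈ U, G.r v ∈ U := by
    rintro v (hv | ⟨rfl, hv⟩)
    · exact Or.inl (h.v.cl hv)
    · exact Or.inr ⟨hv, by rw [hv]; exact hv⟩
  have hUr' : ∀ v, v ∉ U → G.r v ∉ U := fun v hv h' => hv (by
    have h1 := hUr _ (hUr _ h')
    rw [G.r3] at h1
    exact h1)
  have hzleg : G.r (G.e z) = G.e z → z ∉ D2 G c y := by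
    rintro hz (h1 | h1 | h1 | h1)
    · rw [h1] at hz
      exact h.ecin hz
    · rw [h1, G.e2] at hz
      exact h.cin hz
    · exact k3 h1.symm
    · exact b3 h1.symm
  let T : Set V := {v | (v ∉ U ∧ v ∈ S) ∨ (v ∈ U ∧ G.e y ∈ S)}
  have hxS : x ∈ S → G.e x ∈ S := fun h' => hS.e x h' hxD
  have hT : T = Set.univ := by
    refine h.cd T ⟨?_, ?_⟩ ?_
    · rintro v (⟨hv, hvS⟩ | ⟨hv, hyS⟩) hv'
      · by_cases h1 : v = G.e y
        · subst h1
          rw [G.e2]
          exact Or.inr ⟨Or.inl (Or.inr (Or.inl rfl)), hvS⟩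
        · have h2 : v ∉ D2 G c y := by
            rintro (h3 | h3 | h3 | h3)
            · exact hv' (Or.inl h3)
            · exact hv' (Or.inr (Or.inl h3))
            · exact hv (Or.inl (Or.inr (Or.inl h3)))
            · exact h1 h3
          refine Or.inl ⟨?_, hS.e v hvS h2⟩
          rintro ((h3 | h3 | h3) | ⟨h3, h4⟩)
          · exact hv' (Or.inr (Or.inr (Or.inr (by rw [← h3, G.e2]))))
          · exact h1 (by rw [← h3, G.e2])
          · have h5 : v = G.e z := by rw [← h3, G.e2]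
            rcases h.hair with h6 | h6 | h6
            · exact hv (Or.inr ⟨h5, by rw [h5]; exact h6⟩)
            · exact hv' (Or.inr (Or.inl (by rw [h5, h6])))
            · exact hv' (Or.inl (by rw [h5, h6, G.e2]))
          · exact hv (Or.inl (Or.inr (Or.inr (G.e_inj h3))))
      · rcases hv with (rfl | rfl | rfl) | ⟨rfl, hv⟩
        · exact absurd (Or.inr (Or.inr (Or.inl rfl))) hv'
        · exact Or.inl ⟨heyU, hyS⟩
        · rcases h.hair with h6 | h6 | h6
          · exact Or.inr ⟨Or.inr ⟨rfl, h6⟩, hyS⟩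
          · exact absurd (Or.inl h6) hv'
          · exact absurd (Or.inr (Or.inl h6)) hv'
        · rw [G.e2]
          exact Or.inr ⟨Or.inl (Or.inr (Or.inr rfl)), hyS⟩
    · rintro v (⟨hv, hvS⟩ | ⟨hv, hyS⟩)
      · exact Or.inl ⟨hUr' v hv, hS.r v hvS⟩
      · exact Or.inr ⟨hUr v hv, hyS⟩
    · obtain ⟨s, hs⟩ := hne
      by_cases hsU : s ∈ U
      · have hxx : x ∈ S := by
          have key : ∀ s, s ∈ S → (s = x ∨ s = y ∨ s = z) → x ∈ S := by
            intro s hs hs'
            have h1 := hS.r _ hs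
            have h2 := hS.r _ h1
            rcases h.v with ⟨e1, e2, e3⟩ | ⟨e1, e2, e3⟩
            · rcases hs' with rfl | rfl | rfl
              · exact hs
              · rw [e2, e3] at h2
                exact h2
              · rw [e3] at h1
                exact h1
            · rcases hs' with rfl | rfl | rfl
              · exact hs
              · rw [e3] at h1
                exact h1
              · rw [e2, e3] at h2
                exact h2
          rcases hsU with h1 | ⟨h1, h2⟩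
          · exact key s hs h1
          · have h3 : z ∈ S := by
              have h4 := hS.e s hs (fun h5 => ?_)
              · rw [h1, G.e2] at h4
                exact h4
              · rw [h1] at h5 h2
                exact hzleg h2 ((ecl_D2 G c y).iff.1 h5)
            exact key z h3 (Or.inr (Or.inr rfl))
        exact ⟨G.e x, Or.inl ⟨hexU, hxS hxx⟩⟩
      · exact ⟨s, Or.inl ⟨hsU, hs⟩⟩
  have hmem : ∀ v, v ∈ T := fun v => by rw [hT]; exact Set.mem_univ v
  have hoff : ∀ v, v ∉ U → v ∈ S := by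
    intro v hv
    rcases hmem v with h1 | h1
    · exact h1.2
    · exact absurd h1.1 hv
  have hx : x ∈ S := by
    have h1 := hS.e _ (hoff _ hexU) hexD
    rw [G.e2] at h1
    exact h1
  have hyz : y ∈ S ∧ z ∈ S := by
    have h1 := hS.r _ hx
    have h2 := hS.r _ h1
    rcases h.v with ⟨e1, e2, e3⟩ | ⟨e1, e2, e3⟩
    · rw [e1] at h1
      rw [e1, e2] at h2
      exact ⟨h1, h2⟩
    · rw [e1] at h1
      rw [e1, e2] at h2
      exact ⟨h2, h1⟩
  ext v
  refine ⟨fun _ => Set.mem_univ _, fun _ => ?_⟩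
  by_cases hv : v ∈ U
  · rcases hv with (rfl | rfl | rfl) | ⟨rfl, hv⟩
    · exact hx
    · exact hyz.1
    · exact hyz.2
    · exact hS.e _ hyz.2 (hzleg hv)
  · exact hoff v hv

/-- The situation in which everything except the hair is at the rim. -/
theorem Cross.base (h : Cross G c x y z) (hR : Cy G R) (hne : R.Nonempty)
    (hD : ∀ v ∈ D2 G c x, v ∉ R)
    (ht : ∀ v, v ∉ R → v ∉ D2 G c x → v ≠ y → v ≠ G.e y → G.r v ∈ R →
      On G R (G.e v) ∨ G.r (G.e v) = G.e v) :
    On G R (G.e y) ∧ On G R (G.e x) ∧ (z ≠ c → On G R c) ∧ (z ≠ G.e c → On G R (G.e c)) ∧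
      y ∉ R ∧ ¬ On G R x ∧ y ∉ D2 G c x := by
  have hxR : x ∉ R := hD x (Or.inr (Or.inr (Or.inl rfl)))
  have hzR : z ∉ R := by
    rcases h.hair with h1 | h1 | h1
    · exact leg_off hR h1
    · exact hD z (Or.inl h1)
    · exact hD z (Or.inr (Or.inl h1))
  obtain ⟨hyR, ox, oy, oz⟩ := h.v.off hR hxR hzR
  obtain ⟨k1, k2, k3, k4, k5⟩ := h.v.nf h.xin
  obtain ⟨s, hs⟩ := hne
  have hyD : y ∉ D2 G c x := by
    refine h.yD ⟨s, hR.ne_leg hs, fun h1 => hxR (h1 ▸ hs), fun h1 => hyR (h1 ▸ hs),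
      fun h1 => hzR (h1 ▸ hs)⟩
  let S' : Set V := {v | On G R v ∨ (G.r v = v ∧ On G R (G.e v))}
  have hcl : ∀ v ∈ S', v ∉ D2 G c x → v ≠ G.e y → G.e v ∈ S' := by
    rintro v (h1 | ⟨h1, h2⟩) hv hvy
    · by_cases hvR : v ∈ R
      · exact Or.inl (Or.inl (hR.e v hvR))
      · have h2 : G.r v ∈ R := h1.resolve_left hvR
        have h3 : v ≠ y := fun h' => oy (h' ▸ h1)
        rcases ht v hvR hv h3 hvy h2 with h4 | h4
        · exact Or.inl h4
        · exact Or.inr ⟨h4, by rw [G.e2]; exact h1⟩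
    · exact Or.inl h2
  have hr : ∀ v ∈ S', G.r v ∈ S' := by
    rintro v (h1 | ⟨h1, h2⟩)
    · exact Or.inl (hR.on_r.2 h1)
    · rw [h1]
      exact Or.inr ⟨h1, h2⟩
  have hB : On G R (G.e y) := by
    by_contra hB
    have h1 := h.cd S' ⟨fun v hv hv' => hcl v hv hv' ?_, hr⟩ ⟨s, Or.inl (Or.inl hs)⟩
    · have h2 : y ∈ S' := by rw [h1]; exact Set.mem_univ _
      rcases h2 with h2 | ⟨h2, _⟩
      · exact oy h2
      · exact k4 h2
    · rintro rfl
      rcases hv with h2 | ⟨_, h2⟩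
      · exact hB h2
      · rw [G.e2] at h2
        exact oy h2
  have hS := h.cd {v | v ∈ S' ∨ (v = x ∨ v = y ∨ v = z) ∨ (v = G.e z ∧ G.r v = v)} ⟨?_, ?_⟩
    ⟨s, Or.inl (Or.inl (Or.inl hs))⟩
  · have hm : ∀ v, v ∈ {v | v ∈ S' ∨ (v = x ∨ v = y ∨ v = z) ∨ (v = G.e z ∧ G.r v = v)} :=
      fun v => by rw [hS]; exact Set.mem_univ _
    obtain ⟨a1, a2, a3, a4⟩ := h.ex hyD
    refine ⟨hB, ?_, fun hzc => ?_, fun hzc => ?_, hyR, ox, hyD⟩
    · rcases hm (G.e x) with (h1 | ⟨h1, _⟩) | (h1 | h1 | h1) | h1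
      · exact h1
      · exact absurd h1 h.exin
      · exact absurd h1 a1
      · exact absurd h1 a2
      · exact absurd h1 a3
      · exact absurd h1 a4
    · rcases hm c with (h1 | ⟨h1, _⟩) | (h1 | h1 | h1) | ⟨_, h1⟩
      · exact h1
      · exact absurd h1 h.cin
      · exact absurd h1.symm h.n1
      · exact absurd (Or.inl h1.symm) hyD
      · exact absurd h1.symm hzc
      · exact absurd h1 h.cin
    · rcases hm (G.e c) with (h1 | ⟨h1, _⟩) | (h1 | h1 | h1) | ⟨_, h1⟩
      · exact h1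
      · exact absurd h1 h.ecin
      · exact absurd h1.symm h.n2
      · exact absurd (Or.inr (Or.inl h1.symm)) hyD
      · exact absurd h1.symm hzc
      · exact absurd h1 h.ecin
  · rintro v (hv | (rfl | rfl | rfl) | ⟨rfl, hv⟩) hv'
    · by_cases h1 : v = G.e y
      · subst h1
        rw [G.e2]
        exact Or.inr (Or.inl (Or.inr (Or.inl rfl)))
      · exact Or.inl (hcl v hv hv' h1)
    · exact absurd (Or.inr (Or.inr (Or.inl rfl))) hv'
    · exact Or.inl (Or.inl hB)
    · rcases h.hair with h2 | h2 | h2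
      · exact Or.inr (Or.inr ⟨rfl, h2⟩)
      · exact absurd (Or.inl h2) hv'
      · exact absurd (Or.inr (Or.inl h2)) hv'
    · rw [G.e2]
      exact Or.inr (Or.inl (Or.inr (Or.inr rfl)))
  · rintro v (hv | hv | ⟨rfl, hv⟩)
    · exact Or.inl (hr v hv)
    · exact Or.inr (Or.inl (h.v.cl hv))
    · exact Or.inr (Or.inr ⟨hv, by rw [hv]; exact hv⟩)

end

/-- After the expansion of a branch at the rim the vertex at its end is at the rim. -/
theorem loc_side {I J X : Gr V n} {R : Set V} {w u : V} (hR : Cy I R) (hL : Gr.Loc I J X w)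
    (hw : w ∉ R) (ha : I.r w ∈ R) (hu : u = I.r (I.e w) ∨ u = I.r (I.r (I.e w))) :
    J.r u ∈ R ∪ {w, I.e w} ∧ X.r u ∈ R ∪ {w, I.e w} := by
  rcases hu with rfl | rfl
  · rw [hL.j3, hL.x3]
    exact ⟨Or.inr (Or.inl rfl), Or.inr (Or.inl rfl)⟩
  · rw [hL.j5, hL.x5]
    exact ⟨Or.inl ha, Or.inl (hR.rr_of hw ha)⟩

/-! ### The theorem -/

theorem mem_r_of_on {G : Gr V n} {R : Set V} {v : V} (h : On G R v) (hv : v ∉ R) : G.r v ∈ R :=
  h.resolve_left hv

theorem D2_congr {G G' : Gr V n} (h : G'.e = G.e) (a b : V) : D2 G' a b = D2 G a b := by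
  unfold D2
  rw [h]

/-- Expansion of the branch which carries the hub at its end. -/
theorem tv_exp [Finite V] {A : (V : Type) → Gr V n → V → M} (hA : HubF A)
    {val : Gr V n → V → V → M} {k : Fin 4} (hi : IhxP val) (hrim : RimP k (A V) val)
    {G : Gr V n} {R : Set V} {c b w u z : V} {p : Fin n} (hR : Cy G R)
    (hD : ∀ v ∈ D2 G c b, v ∉ R) (hn1 : b ≠ c) (hn2 : b ≠ G.e c) (hc : CD G (D2 G c b))
    (hwD : w ∉ D2 G c b) (hwR : w ∉ R) (ha : G.r w ∈ R) (hin : G.r (G.e w) ≠ G.e w)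
    (hy : ¬ On G R (G.e w)) (hu : kap k G c b = u)
    (huz : (u = G.r (G.e w) ∧ z = G.r (G.r (G.e w))) ∨ (z = G.r (G.e w) ∧ u = G.r (G.r (G.e w))))
    (hz : G.e z = G.leg p) : val G c b = A V G w := by
  have hb := hR.rr_of hwR ha
  have heR : G.e w ∉ R := fun h => hy (Or.inl h)
  have hok : Gr.Ok G w := ⟨fun h1 => hwR (h1 ▸ ha), hin, fun h1 => heR (h1 ▸ ha),
    fun h1 => heR (h1 ▸ hb)⟩
  obtain ⟨J, X, hL⟩ := SWT36.exists_loc hok
  obtain ⟨hJ, hX⟩ := hR.loc hL hwR ha hy
  have hne' : (R ∪ {w, G.e w}).Nonempty := ⟨w, Or.inr (Or.inl rfl)⟩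
  have hE := ecl_D2 G c b
  have hD' : ∀ v ∈ D2 G c b, v ∉ R ∪ {w, G.e w} := by
    rintro v hv (h' | h' | h')
    · exact hD v hv h'
    · exact hwD (h' ▸ hv)
    · have h'' : v = G.e w := h'
      exact hwD (hE.iff.1 (h'' ▸ hv))
  have hu' : u = G.r (G.e w) ∨ u = G.r (G.r (G.e w)) := by
    rcases huz with h | h
    · exact Or.inl h.1
    · exact Or.inr h.2
  obtain ⟨sJ, sX⟩ := loc_side hR hL hwR ha hu'
  have e1 := hrim J _ c b hJ hne' (by rw [D2_J hL]; exact hD') hn1 (by rw [hL.eJ]; exact hn2)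
    (by rw [D2_J hL]; exact (cd_J hL hE hwD).2 hc) (by rw [kap_e hL.eJ, hu]; exact sJ)
  have e2 := hrim X _ c b hX hne' (by rw [D2_X hL]; exact hD') hn1 (by rw [hL.eX]; exact hn2)
    (by rw [D2_X hL]; exact (cd_X hL hE hwD).2 hc) (by rw [kap_e hL.eX, hu]; exact sX)
  rw [kap_e hL.eJ, hu] at e1
  rw [kap_e hL.eX, hu] at e2
  rw [hi G J X w c b hL hwD, e1, e2]
  exact (hA.slide V G J X w u z p hL huz hz).symm

/-- **TV**: the crossing of a hair. -/
theorem tv_val [Finite V] {A : (V : Type) → Gr V n → V → M} (hA : HubF A)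
    {val : Gr V n → V → V → M} {k : Fin 4} (hi : IhxP val) (hrim : RimP k (A V) val)
    {G : Gr V n} {R : Set V} {c x y z : V} (h : Cross G c x y z) (hR : Cy G R) (hne : R.Nonempty)
    (hD : ∀ v ∈ D2 G c x, v ∉ R) (hk0 : k = 0 → z ≠ c) (hk1 : k = 1 → z ≠ G.e c)
    (hk2 : k = 2 ∨ k = 3 → ∃ p, G.e z = G.leg p) : val G c x = val G c (G.e y) := by
  let P : Gr V n → Set V → Prop := fun G' R' => G'.e = G.e → G'.leg = G.leg → V3 G' x y z →
    CD G' (D2 G c x) → (∀ v ∈ D2 G c x, v ∉ R') → val G' c x = val G' c (G.e y)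
  have hP : P G R := by
    refine rim_ind_D (D2 G c x ∪ {y, G.e y}) P ?_ ?_ hR hne
    · intro G' R' hR' hne' ht he hl h3 hc' hD'
      have hD2 : D2 G' c x = D2 G c x := D2_congr he c x
      have hair' : Hair G' c z := by
        rcases h.hair with h1 | h1 | h1
        · left
          obtain ⟨i, hi⟩ := (G.fix _).1 h1
          rw [he, ← hi, ← hl]
          exact G'.r_leg i
        · exact Or.inr (Or.inl h1)
        · right; right
          rw [he]
          exact h1
      have hx : Cross G' c x y z :=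
        ⟨h3, hair', by rw [hD2]; exact hc', h.n1, by rw [he]; exact h.n2⟩
      have hD'' : ∀ v ∈ D2 G' c x, v ∉ R' := by rw [hD2]; exact hD'
      obtain ⟨oey, oex, oc, oec, hyR, nox, hyD⟩ := hx.base hR' hne' hD'' (by
        intro v hv hv' h1 h2 hr
        refine ht v hv ?_ hr
        rintro (h4 | h4 | h4)
        · rw [hD2] at hv'
          exact hv' h4
        · exact h1 h4
        · rw [he] at h2
          exact h2 h4)
      obtain ⟨a1, a2, a3, a4⟩ := hx.ex hyD
      obtain ⟨b1, b2, b3, b4⟩ := hx.ey hyD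
      obtain ⟨k1, k2, k3, k4, k5⟩ := h3.nf hx.xin
      have hey : G.e y = G'.e y := by rw [he]
      have hcs : CD G' (D2 G' c (G'.e y)) := by
        rw [D2_eb]
        exact hx.series hyD
      have heyR : G'.e y ∉ R' := fun h' => hyR (hR'.e_iff.1 h')
      have hD3 : ∀ v ∈ D2 G' c (G'.e y), v ∉ R' := by
        rw [D2_eb]
        rintro v (h1 | h1 | h1 | h1)
        · exact hD'' v (Or.inl h1)
        · exact hD'' v (Or.inr (Or.inl h1))
        · rw [h1]; exact hyR
        · rw [h1]; exact heyR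
      have n3 : G'.e y ≠ c := fun h1 => hyD (Or.inr (Or.inl (by rw [← h1, G'.e2])))
      have n4 : G'.e y ≠ G'.e c := fun h1 => hyD (Or.inl (G'.e_inj h1))
      have hcR : c ∉ R' := hD'' c (Or.inl rfl)
      have hecR : G'.e c ∉ R' := hD'' _ (Or.inr (Or.inl rfl))
      have hxR : x ∉ R' := hD'' x (Or.inr (Or.inr (Or.inl rfl)))
      have hexR : G'.e x ∉ R' := hD'' _ (Or.inr (Or.inr (Or.inr rfl)))
      rw [hey]
      fin_cases k
      · have hz : z ≠ c := hk0 rfl
        have h1 := mem_r_of_on (oc hz) hcR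
        exact (hrim G' R' c x hR' hne' hD'' hx.n1 hx.n2 hx.cd h1).trans
          (hrim G' R' c (G'.e y) hR' hne' hD3 n3 n4 hcs h1).symm
      · have hz : z ≠ G'.e c := by rw [he]; exact hk1 rfl
        have h1 := mem_r_of_on (oec hz) hecR
        exact (hrim G' R' c x hR' hne' hD'' hx.n1 hx.n2 hx.cd h1).trans
          (hrim G' R' c (G'.e y) hR' hne' hD3 n3 n4 hcs h1).symm
      · obtain ⟨p, hp⟩ := hk2 (Or.inl rfl)
        have hp' : G'.e z = G'.leg p := by rw [he, hl]; exact hp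
        have h1 := mem_r_of_on oey heyR
        have h2 := hrim G' R' c (G'.e y) hR' hne' hD3 n3 n4 hcs h1
        refine Eq.trans ?_ h2.symm
        show val G' c x = A V G' (G'.e y)
        refine tv_exp hA hi hrim (u := x) (z := z) (p := p) hR' hD'' hx.n1 hx.n2 hx.cd
          (fun h' => hyD ((ecl_D2 G' c x).iff.1 h')) heyR h1 ?_ ?_ rfl ?_ hp'
        · rw [G'.e2]
          exact k4
        · rw [G'.e2]
          intro h'
          rcases h' with h' | h'
          · exact hyR h'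
          · exact nox (by
              rcases h3 with ⟨e1, e2, e3⟩ | ⟨e1, e2, e3⟩
              · have h5 := hR'.on_r.2 (Or.inr h' : On G' R' y)
                have h6 := hR'.on_r.2 h5
                rw [e2, e3] at h6
                exact h6
              · exact Or.inl (e3 ▸ h'))
        · rw [G'.e2]
          rcases h3 with ⟨e1, e2, e3⟩ | ⟨e1, e2, e3⟩
          · exact Or.inr ⟨e2.symm, by rw [e2, e3]⟩
          · exact Or.inl ⟨e3.symm, by rw [e3, e1]⟩
      · obtain ⟨p, hp⟩ := hk2 (Or.inr rfl)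
        have hp' : G'.e z = G'.leg p := by rw [he, hl]; exact hp
        have h1 := mem_r_of_on oex hexR
        have h2 := hrim G' R' c x hR' hne' hD'' hx.n1 hx.n2 hx.cd h1
        refine h2.trans (Eq.symm ?_)
        show val G' c (G'.e y) = A V G' (G'.e x)
        refine tv_exp hA hi hrim (u := y) (z := z) (p := p) hR' hD3 n3 n4 hcs ?_ hexR h1 ?_
          ?_ ?_ ?_ hp'
        · rw [D2_eb]
          rintro (h4 | h4 | h4 | h4)
          · exact hx.n2 (by rw [← h4, G'.e2])
          · exact hx.n1 (G'.e_inj h4)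
          · exact a2 h4
          · exact k1 (G'.e_inj h4).symm
        · rw [G'.e2]
          exact hx.xin
        · rw [G'.e2]
          exact nox
        · show G'.e (G'.e y) = y
          exact G'.e2 y
        · rw [G'.e2]
          rcases h3 with ⟨e1, e2, e3⟩ | ⟨e1, e2, e3⟩
          · exact Or.inl ⟨e1.symm, by rw [e1, e2]⟩
          · exact Or.inr ⟨e1.symm, by rw [e1, e2]⟩
    · intro I J X w R' hI hne' hL hw hwD ha hy hJ hX he hl h3 hc' hD'
      have hD2 : D2 I c x = D2 G c x := D2_congr he c x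
      have hE : Ecl I (D2 G c x) := by rw [← hD2]; exact ecl_D2 I c x
      have hxR : x ∉ R' := hD' x (Or.inr (Or.inr (Or.inl rfl)))
      have hzR : z ∉ R' := by
        rcases h.hair with h1 | h1 | h1
        · obtain ⟨i, hi⟩ := (G.fix _).1 h1
          apply leg_off hI
          rw [he, ← hi, ← hl]
          exact I.r_leg i
        · exact hD' z (Or.inl h1)
        · exact hD' z (Or.inr (Or.inl h1))
      obtain ⟨hyR, ox, oy, oz⟩ := h3.off hI hxR hzR
      have hvt : ∀ v, I.vt x v → v = x ∨ v = y ∨ v = z := by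
        rintro v (h1 | h1 | h1)
        · exact Or.inl h1
        · rcases h3 with ⟨e1, e2, e3⟩ | ⟨e1, e2, e3⟩
          · exact Or.inr (Or.inl (h1.trans e1))
          · exact Or.inr (Or.inr (h1.trans e1))
        · rcases h3 with ⟨e1, e2, e3⟩ | ⟨e1, e2, e3⟩
          · exact Or.inr (Or.inr (by rw [h1, e1, e2]))
          · exact Or.inr (Or.inl (by rw [h1, e1, e2]))
      have hwon : On I R' w := Or.inr ha
      have hv1 : ¬ I.vt x w := by
        intro h1
        rcases hvt _ h1 with h1 | h1 | h1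
        · exact ox (h1 ▸ hwon)
        · exact oy (h1 ▸ hwon)
        · exact oz (h1 ▸ hwon)
      have hv2 : ¬ I.vt x (I.e w) := by
        intro h1
        rcases hvt _ h1 with h1 | h1 | h1
        · apply hwD
          refine Or.inl (Or.inr (Or.inr (Or.inr ?_)))
          rw [← he, ← h1, I.e2]
        · apply hwD
          refine Or.inr (Or.inr ?_)
          show w = G.e y
          rw [← he, ← h1, I.e2]
        · have hwz : w = I.e z := by rw [← h1, I.e2]
          rcases h.hair with h2 | h2 | h2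
          · obtain ⟨i, hi⟩ := (G.fix _).1 h2
            have h4 : I.r w = w := by
              rw [hwz, he, ← hi, ← hl]
              exact I.r_leg i
            rw [h4] at ha
            exact hw ha
          · apply hwD
            refine Or.inl (Or.inr (Or.inl ?_))
            rw [hwz, h2, he]
          · apply hwD
            refine Or.inl (Or.inl ?_)
            rw [hwz, h2, he, G.e2]
      obtain ⟨v3J, v3X⟩ := h3.J hL hv1 hv2
      have hwD2 : w ∉ D2 G c x := fun h' => hwD (Or.inl h')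
      have hD'' : ∀ v ∈ D2 G c x, v ∉ R' ∪ {w, I.e w} := by
        rintro v hv (h' | h' | h')
        · exact hD' v hv h'
        · exact hwD2 (h' ▸ hv)
        · have h'' : v = I.e w := h'
          exact hwD2 (hE.iff.1 (h'' ▸ hv))
      have e1 := hJ (hL.eJ.trans he) (hL.lJ.trans hl) v3J ((cd_J hL hE hwD2).2 hc') hD''
      have e2 := hX (hL.eX.trans he) (hL.lX.trans hl) v3X ((cd_X hL hE hwD2).2 hc') hD''
      have e3 : w ∉ D2 I c (G.e y) := by
        rw [D2_congr he, D2_eb]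
        rintro (h' | h' | h' | h')
        · exact hwD2 (Or.inl h')
        · exact hwD2 (Or.inr (Or.inl h'))
        · exact hwD (Or.inr (Or.inl h'))
        · exact hwD (Or.inr (Or.inr h'))
      rw [hi I J X w c x hL (by rw [hD2]; exact hwD2), hi I J X w c (G.e y) hL e3, e1, e2]
  exact hP rfl rfl h.v h.cd hD

end Pool.Agent.SWT89
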