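import Mathlib
import Pool.Agent.SWT45.Opc
import Pool.Agent.SWT65.Stmts
import Pool.Agent.SWT80.Ops4
import Pool.Agent.SWT89.Tv

/-!
# The functional on the graphs with two opened edges (M6)

It is built from the functional with a hub, under the assumption `AllHubs`: on the wheels with two
opened edges the four values with the hub at the ends of the opened edges agree.
-/

set_option autoImplicit false

namespace Pool.Agent.SWT89

open Equiv Pool.Agent.SWT49 Pool.Agent.SWT80 Pool.Agent.SWT93 Pool.Agent.SWT84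
  Pool.Agent.SWT84.Cy Pool.Agent.SWT65

variable {V W M : Type} {n : ℕ} [AddCommGroup M]

/-- The four hubs agree on the wheels. -/
def AllHubs (W₂ : (V : Type) → Gr V (n + 3) → M) : Prop :=
  ∀ (V : Type) [Finite V] (G : Gr V n) (h k : V), One (opn2 G h k) →
    SWT93.NoCherry (opn2 G h k) →
    at3 W₂ V G h = at3 W₂ V G k ∧ at3 W₂ V G (G.e h) = at3 W₂ V G k ∧
      at3 W₂ V G (G.e k) = at3 W₂ V G k

/-- M6b and M6c. -/
def S_allHubs (M : Type) [AddCommGroup M] : Prop :=
  ∀ n : ℕ, 4 ≤ n + 1 → Even (n + 1) → (n + 1) % 3 = 1 →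
    ∀ (c : (V : Type) → Gr V (n + 1) → Fin n → M) (W₂ : (V : Type) → Gr V (n + 1 + 3) → M),
      Form c → Hub c W₂ → Slide W₂ → Hi W₂ → AllHubs W₂

theorem d2_45 (G : Gr V n) (a b : V) : SWT45.D2 G a b = D2 G a b := by
  rw [D2_eq, Set.union_comm]
  rfl

/-! ### The values with a hub -/

theorem alt3_of_hub {c : (V : Type) → Gr V (n + 1) → Fin n → M}
    {W₂ : (V : Type) → Gr V (n + 1 + 3) → M} (h : Hub c W₂) : Alt3 W₂ where
  s0 V _ R := by
    rw [h.alt, Perm.sign_swap (by decide)]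
    simp
  s1 V _ R := by
    rw [h.alt, Perm.sign_swap (by decide)]
    simp

theorem hubF_of {c : (V : Type) → Gr V (n + 1) → Fin n → M}
    {W₂ : (V : Type) → Gr V (n + 1 + 3) → M} (h : Hub c W₂) (hs : Slide W₂) :
    HubF (at3 W₂) where
  iso _ _ _ f G x := at3_map h.rel f G x
  as _ _ G _ x hy := at3_flip h.rel (alt3_of_hub h) G hy x
  ihx _ _ _ _ _ _ _ hL _ h1 h2 := at3_ihx h.rel hL h1 h2
  slide V _ I J X x u w p hL huw hw := hs V I J X x u w p hL huw hw

theorem extP_of (h : S_ext M) {m : ℕ} (h3 : 3 ≤ m) (hd : ¬ 3 ∣ m) : ExtP M m := by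
  intro v hi ha
  obtain ⟨F, h1, h2, h4⟩ := h m h3 hd v
    ⟨fun V W _ f G h1 h2 => hi V W f G h1.conn h2 h1.card,
      fun V _ G x h1 h2 hx => ha V G x h1.conn h2 h1.card hx⟩
  exact ⟨F, h1, fun V _ G h5 h6 h7 => h2 V G ⟨h5, h7⟩ h6,
    fun V _ G h5 => h4 V G fun h6 => h5 ⟨h6.conn, h6.card⟩⟩

/-! ### Uniqueness -/

theorem rim_uniq [Finite V] {G : Gr V n} {R D : Set V} (hE : Ecl G D) (hR : Cy G R)
    (hne : R.Nonempty) (hD : ∀ v ∈ D, v ∉ R) (hc : CD G D) (f : Gr V n → M)
    (hi : ∀ (I J X : Gr V n) (x : V), Gr.Loc I J X x → I.e = G.e → x ∉ D → f I = f J - f X)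
    (hb : ∀ (G' : Gr V n) (R' : Set V), G'.e = G.e → Cy G' R' → R'.Nonempty →
      (∀ v ∈ D, v ∉ R') → CD G' D → (∀ v, v ∉ R' → v ∉ D → G'.r v ∈ R' →
        On G' R' (G'.e v) ∨ G'.r (G'.e v) = G'.e v) → f G' = 0) : f G = 0 := by
  let P : Gr V n → Set V → Prop := fun G' R' => G'.e = G.e → (∀ v ∈ D, v ∉ R') → CD G' D →
    f G' = 0
  have hP : P G R := by
    refine rim_ind_D D P ?_ ?_ hR hne
    · intro G' R' hR' hne' ht he hD' hc'
      exact hb G' R' he hR' hne' hD' hc' ht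
    · intro I J X x R' hI hne' hL hx hxD ha hy hJ hX he hD' hc'
      have hE' : Ecl I D := by
        unfold Ecl
        rw [he]
        exact hE
      have hD'' : ∀ v ∈ D, v ∉ R' ∪ {x, I.e x} := by
        rintro v hv (h' | h' | h')
        · exact hD' v hv h'
        · exact hxD (h' ▸ hv)
        · have h'' : v = I.e x := h'
          exact hxD (hE'.iff.1 (h'' ▸ hv))
      rw [hi I J X x hL he hxD, hJ (hL.eJ.trans he) hD'' ((cd_J hL hE' hxD).2 hc'),
        hX (hL.eX.trans he) hD'' ((cd_X hL hE' hxD).2 hc'), sub_zero]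
  exact hP rfl hD hc

/-- A cycle of the graph with two opened edges. -/
theorem exists_rim [Finite V] {G : Gr V (n + 1)} {a b : V} (h : One (opn2 G a b)) :
    ∃ R : Set V, Cy G R ∧ R.Nonempty ∧ ∀ v ∈ D2 G a b, v ∉ R := by
  obtain ⟨S, hne, hS⟩ := exists_cy (n := n + 2 + 2) (opn2 G a b) h.card.ge
  obtain ⟨R, rfl, hR, hd⟩ := SWT45.cy_opn2.1 hS
  refine ⟨R, hR, ?_, fun v hv hv' => ?_⟩
  · obtain ⟨_, _, ⟨v, hv, _⟩, _⟩ := hne
    exact ⟨v, hv⟩
  · apply hd v hv'
    rw [d2_45]
    exact hv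

theorem card_of_one [Finite V] {G : Gr V n} {a b : V} (h : One (opn2 G a b)) :
    Nat.card V = 4 * n + 12 := by
  have h1 := h.card
  rw [card_opn2] at h1
  omega

section

variable {A : (V : Type) → Gr V (n + 1) → V → M}

theorem ext_unique {W₂ : (V : Type) → Gr V (n + 1 + 3) → M} (hU : S_uniq M)
    (hA : HubF (at3 W₂)) (hAll : AllHubs W₂) {k : Fin 4}
    {F F' : (V : Type) → Gr V (n + 1 + 2 + 2) → M} (h : IsExt k (at3 W₂) F)
    (h' : IsExt 2 (at3 W₂) F') (V : Type) [Finite V] (T : Gr V (n + 1 + 2 + 2)) :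
    F V T = F' V T := by
  by_cases hT : One T
  · have key := hU (n + 1 + 2 + 2) (by omega) V (fun T => F V T - F' V T) ?_ ?_ T hT
    · exact sub_eq_zero.1 key
    · intro I J X x hL _
      show F V I - F' V I = (F V J - F' V J) - (F V X - F' V X)
      rw [h.rel.ihx V I J X x hL, h'.rel.ihx V I J X x hL]
      abel
    · intro G hG hn
      show F V G - F' V G = 0
      rw [h.wh V G hG.conn hn hG.card, h'.wh V G hG.conn hn hG.card, sub_eq_zero]
      by_cases hr : ∃ (V0 : Type) (G0 : Gr V0 (n + 1)) (a b : V0)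
          (f : (V0 ⊕ Bool) ⊕ Bool ≃ V), IsOp G V0 G0 a b f
      · obtain ⟨V0, G0, a, b, f, hf⟩ := hr
        have hV0 : Finite V0 := finite_of_exm f
        rw [vOf_eq (hNat k hA) hf, vOf_eq (hNat 2 hA) hf]
        have hO : One (opn2 G0 a b) := by
          refine ⟨?_, ?_⟩
          · have h1 := hG.conn
            rw [← hf] at h1
            exact (SWT93.gconn_map f).1 h1
          · rw [Nat.card_congr f]
            exact hG.card
        have hN : SWT93.NoCherry (opn2 G0 a b) := by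
          intro i j hij
          apply hn i j
          rw [← hf]
          exact (SWT93.cherry_map f).2 hij
        obtain ⟨e1, e2, e3⟩ := hAll V0 G0 a b hO hN
        fin_cases k
        · exact e1
        · exact e2
        · rfl
        · exact e3
      · unfold vOf
        rw [dif_neg hr, dif_neg hr]
  · rw [h.off V T (fun h1 => hT ⟨h1.1, h1.2⟩), h'.off V T (fun h1 => hT ⟨h1.1, h1.2⟩)]

/-- The same opened edges with other names. -/
theorem ext_swap {A : (V : Type) → Gr V (n + 1) → V → M} (hA : HubF A)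
    {F : (V : Type) → Gr V (n + 1 + 2 + 2) → M} (h : IsExt 2 A F) (V : Type) [Finite V]
    (G : Gr V (n + 1)) (a b a' b' : V) (hO : One (opn2 G a b))
    (hD : ∀ G' : Gr V (n + 1), G'.e = G.e → D2 G' a' b' = D2 G' a b) (hn1 : b' ≠ a')
    (hn2 : b' ≠ G.e a')
    (heq : ∀ G' : Gr V (n + 1), G'.e = G.e → One (opn2 G' a b) →
      SWT93.NoCherry (opn2 G' a b) → A V G' b' = A V G' b) :
    F _ (opn2 G a' b') = F _ (opn2 G a b) := by
  have hV := card_of_one hO
  obtain ⟨R, hR, hne, hd⟩ := exists_rim hO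
  obtain ⟨m1, m2⟩ := opn2_ne hO.conn
  rw [← sub_eq_zero]
  refine rim_uniq (ecl_D2 G a b) hR hne hd (cd_of_opn2 hO.conn)
    (fun G' => F _ (opn2 G' a' b') - F _ (opn2 G' a b)) ?_ ?_
  · intro I J X x hL he hx
    have h1 : x ∉ D2 I a b := by rw [D2_congr he]; exact hx
    have h2 : x ∉ D2 I a' b' := by rw [hD I he]; exact h1
    show F _ (opn2 I a' b') - F _ (opn2 I a b) = (F _ (opn2 J a' b') - F _ (opn2 J a b)) -
      (F _ (opn2 X a' b') - F _ (opn2 X a b))
    rw [h.rel.ihx _ _ _ _ _ (loc_opn2 hL h1), h.rel.ihx _ _ _ _ _ (loc_opn2 hL h2)]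
    abel
  · intro G' R' he hR' hne' hD' hc' ht
    have hD2 : D2 G' a b = D2 G a b := D2_congr he a b
    have hg : SWT93.GConn (opn2 G' a b) :=
      (gconn_opn2 m1 (by rw [he]; exact m2)).2 (by rw [hD2]; exact hc')
    have hg' : SWT93.GConn (opn2 G' a' b') :=
      (gconn_opn2 hn1 (by rw [he]; exact hn2)).2 (by rw [hD G' he, hD2]; exact hc')
    have hm : ∀ v, v ∈ D2 G' a' b' ↔ v ∈ D2 G a b := fun v => by rw [hD G' he, hD2]
    have hN : SWT93.NoCherry (opn2 G' a b) := by
      refine nocherry_opn2 hg hR' hne' (hD' _ (Or.inl rfl))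
        (hD' _ (Or.inr (Or.inr (Or.inl rfl)))) ?_
      intro v hv hv' hr
      rw [hD2] at hv'
      exact ht v hv hv' hr
    have hN' : SWT93.NoCherry (opn2 G' a' b') := by
      refine nocherry_opn2 hg' hR' hne' (hD' _ ((hm _).1 (Or.inl rfl)))
        (hD' _ ((hm _).1 (Or.inr (Or.inr (Or.inl rfl))))) ?_
      intro v hv hv' hr
      exact ht v hv (fun h1 => hv' ((hm v).2 h1)) hr
    show F _ (opn2 G' a' b') - F _ (opn2 G' a b) = 0
    rw [h.eq hA V G' a' b' hg' hN' hV, h.eq hA V G' a b hg hN hV, sub_eq_zero]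
    refine heq G' he ⟨hg, ?_⟩ hN
    rw [card_opn2, hV]
    omega

end

/-- If everything is at the rim then the ends of the opened edges are at the rim. -/
theorem at_rim {G : Gr V n} {D R : Set V} (hc : CD G D) (hR : Cy G R) (hne : R.Nonempty)
    (hd : ∀ v ∈ D, v ∉ R)
    (ht : ∀ v, v ∉ R → v ∉ D → G.r v ∈ R → On G R (G.e v) ∨ G.r (G.e v) = G.e v) {k : V}
    (hk : k ∈ D) : G.r k ∈ R := by
  have h1 := hc {v | On G R v ∨ (G.r v = v ∧ On G R (G.e v))} ⟨?_, ?_⟩ ?_
  · have h2 : k ∈ {v | On G R v ∨ (G.r v = v ∧ On G R (G.e v))} := by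
      rw [h1]; exact Set.mem_univ _
    rcases h2 with h2 | ⟨h2, _⟩
    · exact h2.resolve_left (hd k hk)
    · exact absurd h2 (inner_of_cd hc hk (exists_ne G k))
  · rintro v (hv | ⟨_, hv⟩) hvD
    · by_cases hvR : v ∈ R
      · exact Or.inl (Or.inl (hR.e v hvR))
      · rcases ht v hvR hvD (hv.resolve_left hvR) with h2 | h2
        · exact Or.inl h2
        · exact Or.inr ⟨h2, by rw [G.e2]; exact hv⟩
    · exact Or.inl hv
  · rintro v (hv | ⟨h2, hv⟩)
    · exact Or.inl (hR.on_r.2 hv)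
    · rw [h2]
      exact Or.inr ⟨h2, hv⟩
  · obtain ⟨s, hs⟩ := hne
    exact ⟨s, Or.inl (Or.inl hs)⟩

/-! ### The graph cut at the end of an opened edge -/

/-- The graph cut at a vertex of the rim is connected if one edge at this vertex is opened. -/
theorem cut_conn [Finite V] {G : Gr V n} {D R : Set V} (hc : CD G D) (hR : Cy G R)
    (hd : ∀ v ∈ D, v ∉ R) (hE : Ecl G D) {k : V} (hk : k ∈ D) (hr : G.r k ∈ R)
    (hin : G.r k ≠ k) : SWT93.GConn (G.cut k hin) := by
  have hkR := hd k hk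
  have hb : G.r (G.r k) ∈ R := hR.rr_of hkR hr
  have hc2 := SWT45.cd_remove hc hR (fun v hv hv' => hd v hv' hv) hr
  intro C hC hne
  obtain ⟨c1, c2⟩ := (G.cld_cut hin).1 hC
  have n1 : G.r (G.r k) ≠ k := fun h => hkR (h ▸ hb)
  have n2 : G.r (G.r k) ≠ G.r k := fun h => hin (G.r_inj h)
  have n3 : G.e k ≠ G.r k := fun h => hd _ (hE k hk) (h ▸ hr)
  have n4 : G.e (G.r k) ≠ k := fun h => hkR (by rw [← h]; exact hR.e _ hr)
  let C' : Set V := {v | (v ≠ k ∧ v ≠ G.r k ∧ v ∈ C) ∨
    ((v = k ∨ v = G.r k) ∧ G.r (G.r k) ∈ C)}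
  have hC' : CldD G (D ∪ {G.r k, G.e (G.r k)}) C' := by
    refine ⟨?_, ?_⟩
    · rintro v (⟨h1, h2, h3⟩ | ⟨h1 | h1, _⟩) hv
      · refine Or.inl ⟨fun h4 => ?_, fun h4 => ?_, c1 v h3⟩
        · apply hv
          left
          rw [← G.e2 v, h4]
          exact hE k hk
        · apply hv
          right; right
          show v = G.e (G.r k)
          rw [← h4, G.e2]
      · exact absurd (Or.inl (h1 ▸ hk)) hv
      · exact absurd (Or.inr (Or.inl h1)) hv
    · rintro v (⟨h1, h2, h3⟩ | ⟨h1 | h1, h2⟩)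
      · by_cases h4 : v = G.r (G.r k)
        · subst h4
          rw [G.r3]
          exact Or.inr ⟨Or.inl rfl, h3⟩
        · have h5 : ¬ G.vt k v := by
            rintro (h6 | h6 | h6)
            · exact h1 h6
            · exact h2 h6
            · exact h4 h6
          refine Or.inl ⟨fun h6 => h4 ?_, fun h6 => h1 (G.r_inj h6), c2 v h3 h5⟩
          apply G.r_inj
          rw [h6, G.r3]
      · subst h1
        exact Or.inr ⟨Or.inr rfl, h2⟩
      · subst h1
        exact Or.inl ⟨n1, n2, h2⟩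
  by_cases hne' : C'.Nonempty
  · have h1 := hc2 C' hC' hne'
    have hm : ∀ v, v ∈ C' := fun v => by rw [h1]; exact Set.mem_univ _
    have h2 : ∀ v, v ≠ k → v ≠ G.r k → v ∈ C := by
      intro v k1 k2
      rcases hm v with h3 | ⟨h3 | h3, _⟩
      · exact h3.2.2
      · exact absurd h3 k1
      · exact absurd h3 k2
    ext v
    refine ⟨fun _ => Set.mem_univ _, fun _ => ?_⟩
    by_cases k1 : v = k
    · subst k1
      have h3 := c1 _ (h2 (G.e v) (G.e1 v) n3)
      rw [G.e2] at h3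
      exact h3
    by_cases k2 : v = G.r k
    · subst k2
      have h3 := c1 _ (h2 (G.e (G.r k)) n4 (G.e1 _))
      rw [G.e2] at h3
      exact h3
    exact h2 v k1 k2
  · exfalso
    rw [Set.not_nonempty_iff_eq_empty] at hne'
    have h2 : ∀ v, v ∈ C → v = k ∨ v = G.r k := by
      intro v hv
      by_contra hcon
      push Not at hcon
      have h3 : v ∈ C' := Or.inl ⟨hcon.1, hcon.2, hv⟩
      rw [hne'] at h3
      exact h3
    obtain ⟨v, hv⟩ := hne
    have hev := h2 _ (c1 v hv)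
    rcases h2 v hv with rfl | rfl
    · rcases hev with h3 | h3
      · exact G.e1 _ h3
      · exact n3 h3
    · rcases hev with h3 | h3
      · exact n4 h3
      · exact G.e1 _ h3

/-- The difference rule with the hub at the end of an opened edge. -/
theorem diff_hub {c : (V : Type) → Gr V (n + 1) → Fin n → M}
    {W₂ : (V : Type) → Gr V (n + 1 + 3) → M} (h : Hub c W₂) [Finite V] {G : Gr V (n + 1)}
    {D R : Set V} (hc : CD G D) (hR : Cy G R) (hd : ∀ v ∈ D, v ∉ R) (hE : Ecl G D) {k : V}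
    (hk : k ∈ D) (hr : G.r k ∈ R) (hV : Nat.card V = 4 * (n + 1) + 12) (i : Fin n) :
    at3 W₂ V G k - at3 W₂ V (s i • G) k = c V G i := by
  have hin : G.r k ≠ k := fun h' => hd k hk (h' ▸ hr)
  have hO : One (G.cut k hin) := ⟨cut_conn hc hR hd hE hk hr hin, by rw [hV]; ring⟩
  have h1 := h.diff V (G.cut k hin) i hO
  rw [G.join_cut hin] at h1
  rw [at3_smul, at3_in _ hin, at3_in _ hin]
  exact h1

/-- M6 from the agreement of the four hubs. -/
theorem s_pair (hE : S_ext M) (hU : S_uniq M) (hAll : S_allHubs M) : S_pair M := by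
  intro n h4 hev hmod c W₂ hc hW hS hH
  have hA : HubF (at3 W₂) := hubF_of hW hS
  have hAH : AllHubs W₂ := hAll n h4 hev hmod c W₂ hc hW hS hH
  have hEP : ExtP M (n + 1 + 2 + 2) := extP_of hE (by omega) (by omega)
  obtain ⟨F0, h0⟩ := exists_ext hEP 0 hA
  obtain ⟨F1, h1⟩ := exists_ext hEP 1 hA
  obtain ⟨F, h2⟩ := exists_ext hEP 2 hA
  have e0 := ext_unique hU hA hAH h0 h2
  have e1 := ext_unique hU hA hAH h1 h2
  refine ⟨F, h2.rel, fun V _ T hT => h2.off V T fun h => hT ⟨h.1, h.2⟩, ?_, ?_, ?_, ?_, ?_, ?_⟩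
  · -- hub
    intro V _ G h k S hO hS' hk
    obtain ⟨R, rfl, hR, hd⟩ := SWT45.cy_opn2.1 hS'
    have hkR : G.r k ∈ R := by
      obtain ⟨w, ⟨v, hv, rfl⟩, h5⟩ := hk
      rw [← Sum.inl.inj (Sum.inl.inj h5)]
      exact hv
    obtain ⟨m1, m2⟩ := opn2_ne hO.conn
    exact h2.rimP hA (card_of_one hO) G R h k hR ⟨_, hkR⟩ (fun v hv hv' => hd v hv' (by
      rw [d2_45]; exact hv)) m1 m2 (cd_of_opn2 hO.conn) hkR
  · -- sw₁
    intro V _ G h k hO
    obtain ⟨m1, m2⟩ := opn2_ne hO.conn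
    refine ext_swap hA h2 V G h k (G.e h) k hO ?_ m2 ?_ ?_
    · intro G' he
      rw [← he, D2_comm, D2_eb, D2_comm]
    · rw [G.e2]
      exact m1
    · intro G' _ _ _
      rfl
  · -- sw₂
    intro V _ G h k hO
    obtain ⟨m1, m2⟩ := opn2_ne hO.conn
    refine ext_swap hA h2 V G h k h (G.e k) hO ?_ ?_ ?_ ?_
    · intro G' he
      rw [← he, D2_eb]
    · intro h'
      apply m2
      rw [← h', G.e2]
    · intro h'
      exact m1 (G.e_inj h')
    · intro G' he hO' hN'
      rw [← he]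
      exact (hAH V G' h k hO' hN').2.2
  · -- sw
    intro V _ G h k hO
    obtain ⟨m1, m2⟩ := opn2_ne hO.conn
    refine ext_swap hA h2 V G h k k h hO ?_ (Ne.symm m1) ?_ ?_
    · intro G' _
      rw [D2_comm]
    · intro h'
      apply m2
      rw [h', G.e2]
    · intro G' _ hO' hN'
      exact (hAH V G' h k hO' hN').1
  · -- diff
    intro V _ G h k i hO
    have hV := card_of_one hO
    obtain ⟨R, hR, hne, hd⟩ := exists_rim hO
    obtain ⟨m1, m2⟩ := opn2_ne hO.conn
    have key := rim_uniq (ecl_D2 G h k) hR hne hd (cd_of_opn2 hO.conn)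
      (fun G' => F _ (opn2 G' h k) - F _ (opn2 (s i • G') h k) - c V G' i) ?_ ?_
    · exact sub_eq_zero.1 key
    · intro I J X x hL he hx
      have h5 : x ∉ D2 I h k := by rw [D2_congr he]; exact hx
      show F _ (opn2 I h k) - F _ (opn2 (s i • I) h k) - c V I i =
        (F _ (opn2 J h k) - F _ (opn2 (s i • J) h k) - c V J i) -
        (F _ (opn2 X h k) - F _ (opn2 (s i • X) h k) - c V X i)
      rw [h2.rel.ihx _ _ _ _ _ (loc_opn2 hL h5),
        h2.rel.ihx _ _ _ _ _ (loc_opn2 (hL.smul (s i)) h5), hc.ihx V I J X x hL i]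
      abel
    · intro G' R' he hR' hne' hD' hc' ht
      have hD2 : D2 G' h k = D2 G h k := D2_congr he h k
      have hg : SWT93.GConn (opn2 G' h k) :=
        (gconn_opn2 m1 (by rw [he]; exact m2)).2 (by rw [hD2]; exact hc')
      have hg' : SWT93.GConn (opn2 (s i • G') h k) :=
        (gconn_opn2 m1 (by rw [Gr.smul_e, he]; exact m2)).2
          ((cd_smul (s i)).2 (show CD G' (D2 G' h k) by rw [hD2]; exact hc'))
      have hN : SWT93.NoCherry (opn2 G' h k) := by
        refine nocherry_opn2 hg hR' hne' (hD' _ (Or.inl rfl))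
          (hD' _ (Or.inr (Or.inr (Or.inl rfl)))) ?_
        intro v hv hv' hr
        rw [hD2] at hv'
        exact ht v hv hv' hr
      have hN' : SWT93.NoCherry (opn2 (s i • G') h k) := by
        refine nocherry_opn2 hg' (hR'.smul (s i)) hne' (hD' _ (Or.inl rfl))
          (hD' _ (Or.inr (Or.inr (Or.inl rfl)))) ?_
        intro v hv hv' hr
        refine ht v hv ?_ hr
        rw [← hD2]
        exact hv'
      show F _ (opn2 G' h k) - F _ (opn2 (s i • G') h k) - c V G' i = 0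
      have hkr : G'.r k ∈ R' :=
        at_rim hc' hR' hne' hD' ht (Or.inr (Or.inr (Or.inl rfl)))
      rw [h2.eq hA V G' h k hg hN hV, h2.eq hA V (s i • G') h k hg' hN' hV, sub_eq_zero]
      exact diff_hub hW (D := D2 G h k) hc' hR' hD' (by rw [← hD2]; exact ecl_D2 G' h k)
        (Or.inr (Or.inr (Or.inl rfl))) hkr hV i
  · -- tv
    intro V _ G h x y z hxyz hz hO
    obtain ⟨m1, m2⟩ := opn2_ne hO.conn
    have hV := card_of_one hO
    obtain ⟨R, hR, hne, hd⟩ := exists_rim hO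
    have h3 : V3 G x y z := by
      rcases hxyz with ⟨rfl, rfl⟩ | ⟨rfl, rfl⟩
      · exact Or.inl ⟨rfl, rfl, G.r3 x⟩
      · exact Or.inr ⟨rfl, rfl, G.r3 x⟩
    have hair : Hair G h z := by
      rcases hz with h5 | h5 | ⟨i, h5⟩
      · exact Or.inr (Or.inl h5)
      · exact Or.inr (Or.inr h5)
      · left
        rw [h5]
        exact G.r_leg i
    have hx : Cross G h x y z := ⟨h3, hair, cd_of_opn2 hO.conn, m1, m2⟩
    rcases hz with h5 | h5 | ⟨i, h5⟩
    · rw [← e1, ← e1]
      exact tv_val hA (k := 1) (val := fun G a b => F1 _ (opn2 G a b)) h1.ihxP (h1.rimP hA hV)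
        hx hR hne hd (fun h' => absurd h' (by decide)) (fun _ h' => G.e1 h (by rw [← h', h5]))
        (fun h' => by rcases h' with h' | h' <;> exact absurd h' (by decide))
    · rw [← e0, ← e0]
      exact tv_val hA (k := 0) (val := fun G a b => F0 _ (opn2 G a b)) h0.ihxP (h0.rimP hA hV)
        hx hR hne hd (fun _ h' => G.e1 h (by rw [← h5, h'])) (fun h' => absurd h' (by decide))
        (fun h' => by rcases h' with h' | h' <;> exact absurd h' (by decide))
    · exact tv_val hA (k := 2) (val := fun G a b => F _ (opn2 G a b)) h2.ihxP (h2.rimP hA hV)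
        hx hR hne hd (fun h' => absurd h' (by decide)) (fun h' => absurd h' (by decide))
        (fun _ => ⟨i, h5⟩)

end Pool.Agent.SWT89
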