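import Mathlib
import Pool.Agent.SWT89.Pair

/-!
# The four functionals with a hub at the end of an opened edge, and the crossing of a hair
-/

set_option autoImplicit false

namespace Pool.Agent.SWT89

open Equiv Pool.Agent.SWT49 Pool.Agent.SWT80 Pool.Agent.SWT93 Pool.Agent.SWT84
  Pool.Agent.SWT84.Cy Pool.Agent.SWT65

variable {V W M : Type} {n : ℕ} [AddCommGroup M]

/-- The functional with the hub at the end number `j` of the opened edges. -/
structure HubAt (W₂ : (V : Type) → Gr V (n + 1 + 3) → M) (j : Fin 4)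
    (W : (V : Type) → Gr V (n + 1 + 2 + 2) → M) : Prop where
  rel : Rel W
  off : ∀ (V : Type) [Finite V] (T : Gr V (n + 1 + 2 + 2)), ¬ One T → W V T = 0
  wheel : ∀ (V : Type) [Finite V] (G : Gr V (n + 1)) (h k : V), One (opn2 G h k) →
    SWT93.NoCherry (opn2 G h k) → W _ (opn2 G h k) = at3 W₂ V G (kap j G h k)
  /-- a special leg on the rim -/
  rim : ∀ (V : Type) [Finite V] (G : Gr V (n + 1)) (h k : V) (S : Set ((V ⊕ Bool) ⊕ Bool)),
    One (opn2 G h k) → Cy (opn2 G h k) S → Sum.inl (Sum.inl (G.r (kap j G h k))) ∈ S →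
    W _ (opn2 G h k) = at3 W₂ V G (kap j G h k)
  tv : ∀ (V : Type) [Finite V] (G : Gr V (n + 1)) (h x y z : V),
    (y = G.r x ∧ z = G.r (G.r x) ∨ z = G.r x ∧ y = G.r (G.r x)) →
    (∃ i, G.e z = G.leg i) → One (opn2 G h x) →
    W _ (opn2 G h x) = W _ (opn2 G h (G.e y))
  tv' : ∀ (V : Type) [Finite V] (G : Gr V (n + 1)) (k x y z : V),
    (y = G.r x ∧ z = G.r (G.r x) ∨ z = G.r x ∧ y = G.r (G.r x)) →
    (∃ i, G.e z = G.leg i) → One (opn2 G x k) →
    W _ (opn2 G x k) = W _ (opn2 G (G.e y) k)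

theorem v3_of {G : Gr V n} {x y z : V}
    (h : y = G.r x ∧ z = G.r (G.r x) ∨ z = G.r x ∧ y = G.r (G.r x)) : V3 G x y z := by
  rcases h with ⟨rfl, rfl⟩ | ⟨rfl, rfl⟩
  · exact Or.inl ⟨rfl, rfl, G.r3 x⟩
  · exact Or.inr ⟨rfl, rfl, G.r3 x⟩

/-- The exchange of the two pairs of ends. -/
def flp (j : Fin 4) : Fin 4 := j + 2

theorem kap_flp (j : Fin 4) (G : Gr V n) (a b : V) : kap (flp j) G a b = kap j G b a := by
  fin_cases j <;> rfl

theorem hubAt_of {W₂ : (V : Type) → Gr V (n + 1 + 3) → M} (hA : HubF (at3 W₂)) {j : Fin 4}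
    {W : (V : Type) → Gr V (n + 1 + 2 + 2) → M} (h : IsExt j (at3 W₂) W) : HubAt W₂ j W where
  rel := h.rel
  off V _ T hT := h.off V T fun h' => hT ⟨h'.1, h'.2⟩
  wheel V _ G a b hO hN := h.eq hA V G a b hO.conn hN (card_of_one hO)
  rim V _ G a b S hO hS' hk := by
    obtain ⟨R, rfl, hR, hd⟩ := SWT45.cy_opn2.1 hS'
    have hkR : G.r (kap j G a b) ∈ R := by
      obtain ⟨w, ⟨v, hv, rfl⟩, h5⟩ := hk
      rw [← Sum.inl.inj (Sum.inl.inj h5)]
      exact hv
    obtain ⟨m1, m2⟩ := opn2_ne hO.conn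
    exact h.rimP hA (card_of_one hO) G R a b hR ⟨_, hkR⟩ (fun v hv hv' => hd v hv' (by
      rw [d2_45]; exact hv)) m1 m2 (cd_of_opn2 hO.conn) hkR
  tv V _ G c x y z hxyz hz hO := by
    obtain ⟨m1, m2⟩ := opn2_ne hO.conn
    have hV := card_of_one hO
    obtain ⟨R, hR, hne, hd⟩ := exists_rim hO
    obtain ⟨i, hi⟩ := hz
    have hzl : G.r (G.e z) = G.e z := by rw [hi]; exact G.r_leg i
    have hx : Cross G c x y z := ⟨v3_of hxyz, Or.inl hzl, cd_of_opn2 hO.conn, m1, m2⟩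
    refine tv_val hA (k := j) (val := fun G a b => W _ (opn2 G a b)) h.ihxP (h.rimP hA hV)
      hx hR hne hd ?_ ?_ (fun _ => ⟨i, hi⟩)
    · rintro _ rfl
      exact hx.ecin hzl
    · rintro _ rfl
      rw [G.e2] at hzl
      exact hx.cin hzl
  tv' V _ G c x y z hxyz hz hO := by
    obtain ⟨m1, m2⟩ := opn2_ne hO.conn
    have hV := card_of_one hO
    obtain ⟨R, hR, hne, hd⟩ := exists_rim hO
    obtain ⟨i, hi⟩ := hz
    have hzl : G.r (G.e z) = G.e z := by rw [hi]; exact G.r_leg i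
    have hcd : CD G (D2 G c x) := by rw [D2_comm]; exact cd_of_opn2 hO.conn
    have hn1 : x ≠ c := Ne.symm m1
    have hn2 : x ≠ G.e c := fun h' => m2 (by rw [h', G.e2])
    have hx : Cross G c x y z := ⟨v3_of hxyz, Or.inl hzl, hcd, hn1, hn2⟩
    have hihx : IhxP (fun (G : Gr V (n + 1)) a b => W _ (opn2 G b a)) := by
      intro I J X w a b hL hw
      exact h.rel.ihx _ _ _ _ _ (loc_opn2 hL (by rw [D2_comm]; exact hw))
    have hrim : RimP (flp j) (at3 W₂ V) (fun (G : Gr V (n + 1)) a b => W _ (opn2 G b a)) := by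
      intro G' R' a b hR' hne' hD' h1 h2 hc' hk
      rw [kap_flp] at hk ⊢
      refine h.rimP hA hV G' R' b a hR' hne' (by rw [D2_comm]; exact hD') (Ne.symm h1) ?_
        (by rw [D2_comm]; exact hc') hk
      intro h'
      apply h2
      rw [h', G'.e2]
    refine tv_val hA (k := flp j) (val := fun G a b => W _ (opn2 G b a)) hihx hrim hx hR hne
      (by rw [D2_comm]; exact hd) ?_ ?_ (fun _ => ⟨i, hi⟩)
    · rintro _ rfl
      exact hx.ecin hzl
    · rintro _ rfl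
      rw [G.e2] at hzl
      exact hx.cin hzl

/-- M6a. -/
theorem exists_hubAt (hE : S_ext M) (h4 : 4 ≤ n + 1) (hmod : (n + 1) % 3 = 1)
    {c : (V : Type) → Gr V (n + 1) → Fin n → M} {W₂ : (V : Type) → Gr V (n + 1 + 3) → M}
    (hW : Hub c W₂) (hS : Slide W₂) (j : Fin 4) :
    ∃ W : (V : Type) → Gr V (n + 1 + 2 + 2) → M, HubAt W₂ j W := by
  obtain ⟨W, h⟩ := exists_ext (extP_of hE (by omega) (by omega) : ExtP M (n + 1 + 2 + 2)) j
    (hubF_of hW hS)
  exact ⟨W, hubAt_of (hubF_of hW hS) h⟩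

end Pool.Agent.SWT89
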