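import Mathlib
import Pool.Agent.SWT36.HId
import Pool.Agent.SWT80.Adj
import Pool.Agent.SWT89.Pair

/-!
# The sum over the positions of the hub on a wheel
-/

set_option autoImplicit false

namespace Pool.Agent.SWT89

open Equiv Pool.Agent.SWT49 Pool.Agent.SWT80 Pool.Agent.SWT93 Pool.Agent.SWT84
  Pool.Agent.SWT84.Cy Pool.Agent.SWT65

variable {V W M : Type} {n : ℕ} [AddCommGroup M]

theorem hw_wheel (h3M : ∀ m : M, m + m + m = 0) {c : (V : Type) → Gr V (n + 1) → Fin n → M}
    {F : (V : Type) → Gr V (n + 1 + 3) → M} (hF : Hub c F) (hHi : Hi F) (V : Type) [Finite V]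
    (R : Gr V (n + 1 + 3)) (hR : One R) (hno : SWT93.NoCherry R) :
    F V R = SWT36.FF F V R.join := by
  have hA := alt3_of_hub hF
  have hO : SWT36.Off F := hF.off
  obtain ⟨Rm, hne, hC, hxe⟩ := SWT36.wheel_xe (n := n + 3) hR (by omega) hno
  set f : V → M := fun x => at3 F V R.join x with hf
  have hfr : ∀ v, f (R.join.r v) = f v := fun v => at3_r hA R.join v
  have e1 : SWT36.FF F V R.join = SWT36.vs R.join f := rfl
  rw [e1, SWT36.vs_join_wheel hR.conn hR.card hno hfr]
  have e3 : f (R.leg (Fin.natAdd (n + 1) 0)) = F V R := at3_join R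
  have k2 : ∀ j : Fin (n + 1), f (xe R (Fin.castAdd 3 j)) = 0 := by
    intro j
    refine SWT36.at3_hair hO (w := xe R (Fin.castAdd 3 j)) (R.join.vt_self _) (i := j) ?_
    rw [Gr.join_e, Gr.join_leg, e_xe]
  have k4 : ∀ j : Fin 3, f (xe R (Fin.natAdd (n + 1) j)) = F V R := by
    intro j
    exact (hHi V R Rm j hR hC (hxe _).2).symm
  rw [e3, Finset.sum_eq_zero (fun j _ => k2 j), Fin.sum_univ_three, k4, k4, k4, h3M, add_zero,
    add_zero]

end Pool.Agent.SWT89
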