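import Mathlib
import Pool.Agent.SWT45.Cross
import Pool.Agent.SWT89.Wd

/-!
# The arms of the graph cut at the end of an opened edge
-/

set_option autoImplicit false

namespace Pool.Agent.SWT89

open Equiv Pool.Agent.SWT49 Pool.Agent.SWT80 Pool.Agent.SWT93 Pool.Agent.SWT84
  Pool.Agent.SWT84.Cy Pool.Agent.SWT65

open SWT36 (Arm)
open SWT45 (oth oth_mem oth_oth oth_ne Ch)

variable {V W M : Type} {n : ℕ} [AddCommGroup M]

/-! ### The other half-edge of a cycle -/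

theorem oth_cases {G : Gr V n} {R : Set V} (hR : Cy G R) {v : V} (hv : v ∈ R) :
    (oth G R v = G.r v ∧ G.r v ∈ R ∧ G.r (G.r v) ∉ R) ∨
      (oth G R v = G.r (G.r v) ∧ G.r v ∉ R ∧ G.r (G.r v) ∈ R) := by
  unfold SWT45.oth
  rcases hR.two v hv with ⟨h1, h2⟩ | ⟨h1, h2⟩
  · exact Or.inl ⟨if_pos h1, h1, h2⟩
  · exact Or.inr ⟨if_neg h1, h1, h2⟩

theorem vt_oth {G : Gr V n} {R : Set V} {u v : V} : G.vt u (oth G R v) ↔ G.vt u v := by
  unfold SWT45.oth
  split_ifs
  · exact G.vt_r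
  · exact G.vt_r.trans G.vt_r

/-- An arm does not begin on a cycle. -/
theorem arm_not_mem {R : Gr V (n + 3)} {C : Set V} (hC : Cy R C) {j : Fin 3} {v : V}
    (h : Arm R j v) : v ∉ C := by
  have hleg : ∀ i, R.leg i ∉ C := fun i h1 => hC.ne_leg h1 (R.r_leg i)
  induction h with
  | base h h1 =>
    intro h2
    have h3 := hC.e _ h2
    rw [h1] at h3
    exact hleg _ h3
  | s1 h i h1 h2 ih =>
    intro h3
    have h4 := hC.e _ h3
    rcases hC.two _ h4 with ⟨h5, _⟩ | ⟨_, h5⟩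
    · have h6 := hC.e _ h5
      rw [h1] at h6
      exact hleg _ h6
    · exact ih h5
  | s2 h i h1 h2 ih =>
    intro h3
    have h4 := hC.e _ h3
    rcases hC.two _ h4 with ⟨h5, _⟩ | ⟨_, h5⟩
    · exact ih h5
    · have h6 := hC.e _ h5
      rw [h1] at h6
      exact hleg _ h6

/-- The first step of an arm which enters the vertex of `v` through `v`. -/
theorem arm_inv {R : Gr V (n + 3)} {j : Fin 3} {v : V} (h : Arm R j (R.e v)) :
    v = R.leg (Fin.natAdd n j) ∨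
    (∃ i, R.e (R.r v) = R.leg (Fin.castAdd 3 i) ∧ Arm R j (R.r (R.r v))) ∨
    (∃ i, R.e (R.r (R.r v)) = R.leg (Fin.castAdd 3 i) ∧ Arm R j (R.r v)) := by
  have key : ∀ u, Arm R j u → u = R.e v → v = R.leg (Fin.natAdd n j) ∨
      (∃ i, R.e (R.r v) = R.leg (Fin.castAdd 3 i) ∧ Arm R j (R.r (R.r v))) ∨
      (∃ i, R.e (R.r (R.r v)) = R.leg (Fin.castAdd 3 i) ∧ Arm R j (R.r v)) := by
    intro u hu he
    have he' : R.e u = v := by rw [he, R.e2]
    cases hu with
    | base _ h1 =>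
      left
      rw [← he', h1]
    | s1 _ i h1 h2 =>
      rw [he'] at h1 h2
      exact Or.inr (Or.inl ⟨i, h1, h2⟩)
    | s2 _ i h1 h2 =>
      rw [he'] at h1 h2
      exact Or.inr (Or.inr ⟨i, h1, h2⟩)
  exact key _ h rfl

/-! ### An arm begins at one of the two ends of the other opened edge -/

theorem exists_arm [Finite V] {G : Gr V (n + 1)} {h k : V} {R : Set V} (c : Ch G h k R)
    (hx : G.r h ≠ h) {S : Set V} (hS : Cy G S) (hne : S.Nonempty) (ha : ∀ v ∈ S, ¬ G.vt h v) :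
    ∃ (b : V) (j : Fin 3), (G.vt k b ∨ G.vt (G.e k) b) ∧ b ∉ S ∧ G.r b ∈ S ∧
      Arm (G.cut h hx) j b := by
  classical
  by_contra hnone
  push Not at hnone
  have hkS : k ∈ S := c.mem_k hS hne ha
  have hekS : G.e k ∈ S := hS.e k hkS
  have hS' : Cy (G.cut h hx) S := by
    refine ⟨hS.e, fun v hv => ?_⟩
    rw [G.cut_r_o hx (ha v hv), G.cut_r_o hx (fun h' => ha v hv (G.vt_r.1 h'))]
    exact hS.two v hv
  have hRleg : ∀ i, G.leg i ∉ R := fun i h' => c.cy.ne_leg h' (G.r_leg i)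
  have hSleg : ∀ i, G.leg i ∉ S := fun i h' => hS.ne_leg h' (G.r_leg i)
  have hcr : ∀ {v : V}, ¬ G.vt h v → (G.cut h hx).r v = G.r v ∧
      (G.cut h hx).r (G.r v) = G.r (G.r v) := fun {v} hv =>
    ⟨G.cut_r_o hx hv, G.cut_r_o hx (fun h' => hv (G.vt_r.1 h'))⟩
  let Good : V → Prop := fun v => ∃ j, Arm (G.cut h hx) j v ∨ Arm (G.cut h hx) j (G.e v)
  have good_e : ∀ v, Good (G.e v) → Good v := by
    rintro v ⟨j, h1 | h1⟩
    · exact ⟨j, Or.inr h1⟩
    · rw [G.e2] at h1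
      exact ⟨j, Or.inl h1⟩
  -- the half-edges on the cycle are not good
  have good_S : ∀ v ∈ S, ¬ Good v := by
    rintro v hv ⟨j, h1 | h1⟩
    · exact arm_not_mem hS' h1 hv
    · exact arm_not_mem hS' h1 (hS.e v hv)
  -- the half-edges of the rim at the vertex of `h` are good
  have good_h : ∀ v ∈ R, G.vt h v → Good v := by
    rintro v hv (h1 | h1 | h1)
    · exact absurd (h1 ▸ hv) c.h_not
    · refine ⟨1, Or.inr (Arm.base _ ?_)⟩
      rw [Gr.cut_leg_1, Gr.cut_e, G.e2, h1]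
    · refine ⟨2, Or.inr (Arm.base _ ?_)⟩
      rw [Gr.cut_leg_2, Gr.cut_e, G.e2, h1]
  -- the inner half-edges which are not at the vertex of `h`: the arm through `e v`
  have good_inv : ∀ v ∈ R, ¬ G.vt h v → ∀ j, Arm (G.cut h hx) j (G.e v) →
      (∃ i, G.e (G.r v) = G.leg i ∧ Arm (G.cut h hx) j (G.r (G.r v))) ∨
      (∃ i, G.e (G.r (G.r v)) = G.leg i ∧ Arm (G.cut h hx) j (G.r v)) := by
    intro v hv hvt j h1
    obtain ⟨e1, e2⟩ := hcr hvt
    rcases arm_inv (R := G.cut h hx) h1 with h2 | ⟨i, h2, h3⟩ | ⟨i, h2, h3⟩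
    · exfalso
      apply c.cy.ne_leg hv
      rw [← e1]
      have h4 := (G.cut h hx).r_leg (Fin.natAdd (n + 1) j)
      rw [← h2] at h4
      exact h4
    · left
      rw [e1, Gr.cut_leg_l, Gr.cut_e] at h2
      rw [e1, e2] at h3
      exact ⟨i, h2, h3⟩
    · right
      rw [e1, e2, Gr.cut_leg_l, Gr.cut_e] at h2
      rw [e1] at h3
      exact ⟨i, h2, h3⟩
  -- hairs
  have good_oth : ∀ v ∈ R, ¬ G.vt h v → ∀ t i, G.vt v t → t ∉ R → G.e t = G.leg i →
      Good v → Good (oth G R v) := by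
    intro v hv hvt t i htv htR hti hg
    have hv'R := oth_mem c.cy hv
    have hvt' : ¬ G.vt h (oth G R v) := fun h' => hvt (vt_oth.1 h')
    obtain ⟨f1, f2⟩ := hcr hvt'
    have hnl : ∀ w ∈ R, ∀ i, G.e w ≠ G.leg i := fun w hw i h' => hRleg i (h' ▸ c.cy.e w hw)
    obtain ⟨j, h1 | h1⟩ := hg
    · refine ⟨j, Or.inr ?_⟩
      rcases oth_cases c.cy hv with ⟨h2, h3, h4⟩ | ⟨h2, h3, h4⟩
      · -- `oth v = r v`, `t = r (r v)`
        have ht : t = G.r (G.r v) := by
          rcases htv with h5 | h5 | h5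
          · exact absurd (h5 ▸ hv) htR
          · exact absurd (h5 ▸ h3) htR
          · exact h5
        rw [h2] at f1 f2 ⊢
        refine Arm.s1 _ i ?_ ?_
        · rw [Gr.cut_e, G.e2, f1, ← ht, hti, Gr.cut_leg_l]
        · rw [Gr.cut_e, G.e2, f1, f2, G.r3]
          exact h1
      · have ht : t = G.r v := by
          rcases htv with h5 | h5 | h5
          · exact absurd (h5 ▸ hv) htR
          · exact h5
          · exact absurd (h5 ▸ h4) htR
        rw [h2] at f1 f2 ⊢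
        rw [G.r3] at f1 f2
        refine Arm.s2 _ i ?_ ?_
        · rw [Gr.cut_e, G.e2, f1, f2, ← ht, hti, Gr.cut_leg_l]
        · rw [Gr.cut_e, G.e2, f1]
          exact h1
    · refine ⟨j, Or.inl ?_⟩
      rcases good_inv v hv hvt j h1 with ⟨i', h2, h3⟩ | ⟨i', h2, h3⟩
      · rcases oth_cases c.cy hv with ⟨h4, h5, _⟩ | ⟨h4, _, _⟩
        · exact absurd h2 (hnl _ h5 i')
        · rw [h4]
          exact h3
      · rcases oth_cases c.cy hv with ⟨h4, _, _⟩ | ⟨h4, _, h5⟩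
        · rw [h4]
          exact h3
        · exact absurd h2 (hnl _ h5 i')
  -- the vertices of the other opened edge
  have good_k : ∀ q ∈ S, (∀ b j, G.vt q b → b ∉ S → G.r b ∈ S → ¬ Arm (G.cut h hx) j b) →
      ∀ v ∈ R, G.vt q v → ¬ Good v := by
    intro q hq hq2 v hv hqv hg
    by_cases hvS : v ∈ S
    · exact good_S v hvS hg
    have hvt : ¬ G.vt h v := fun h' => ha q hq (G.vt_trans h' (G.vt_symm hqv))
    have hrS : G.r v ∈ S := by
      have h1 : On G S v := by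
        rcases hqv with h2 | h2 | h2
        · rw [h2]
          exact Or.inl hq
        · rw [h2]
          exact hS.on_r.2 (Or.inl hq)
        · rw [h2]
          exact hS.on_r.2 (hS.on_r.2 (Or.inl hq))
      exact h1.resolve_left hvS
    have hrrS : G.r (G.r v) ∈ S := hS.rr_of hvS hrS
    obtain ⟨j, h1 | h1⟩ := hg
    · exact hq2 v j hqv hvS hrS h1
    · rcases good_inv v hv hvt j h1 with ⟨i', h2, _⟩ | ⟨i', h2, _⟩
      · exact hSleg i' (h2 ▸ hS.e _ hrS)
      · exact hSleg i' (h2 ▸ hS.e _ hrrS)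
  have good_k1 := good_k k hkS fun b j h1 h2 h3 => hnone b j (Or.inl h1) h2 h3
  have good_k2 := good_k _ hekS fun b j h1 h2 h3 => hnone b j (Or.inr h1) h2 h3
  -- the bad half-edges of the rim form a cycle
  let Z : Set V := {v | v ∈ R ∧ ¬ Good v}
  have hZe : ∀ v ∈ Z, G.e v ∈ Z := fun v hv =>
    ⟨c.cy.e v hv.1, fun h' => hv.2 (good_e v h')⟩
  have hZo1 : ∀ v ∈ Z, ¬ G.vt (G.e h) v → oth G R v ∈ Z := by
    intro v hv hvt2
    have hv' := oth_mem c.cy hv.1
    have hvt : ¬ G.vt h v := fun h' => hv.2 (good_h v hv.1 h')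
    -- the third half-edge
    obtain ⟨t, htv, htR⟩ : ∃ t, G.vt v t ∧ t ∉ R := by
      rcases oth_cases c.cy hv.1 with ⟨_, _, h4⟩ | ⟨_, h4, _⟩
      · exact ⟨_, G.vt_r2 v, h4⟩
      · exact ⟨_, G.vt_r1 v, h4⟩
    have hvv' : G.vt v (oth G R v) := vt_oth.2 (G.vt_self v)
    by_cases htD : t ∈ SWT45.D2 G h k
    · rcases htD with (h1 | h1) | (h1 | h1)
      · exact absurd (G.vt_symm (h1 ▸ htv)) hvt
      · have h2 : t = G.e h := h1
        exact absurd (G.vt_symm (h2 ▸ htv)) hvt2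
      · exact ⟨hv', good_k1 _ hv' (G.vt_trans (G.vt_symm (h1 ▸ htv)) hvv')⟩
      · have h2 : t = G.e k := h1
        exact ⟨hv', good_k2 _ hv' (G.vt_trans (G.vt_symm (h2 ▸ htv)) hvv')⟩
    · have htr : G.r t ∈ R := by
        have h1 : On G R t := by
          rcases htv with h2 | h2 | h2
          · rw [h2]; exact Or.inl hv.1
          · rw [h2]; exact c.cy.on_r.2 (Or.inl hv.1)
          · rw [h2]; exact c.cy.on_r.2 (c.cy.on_r.2 (Or.inl hv.1))
        exact h1.resolve_left htR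
      obtain ⟨i, hi⟩ := (G.fix _).1 (c.lg t htR htD htr)
      refine ⟨hv', fun h' => hv.2 ?_⟩
      have h1 := good_oth _ hv' (fun h' => hvt (vt_oth.1 h')) t i
        (G.vt_trans (G.vt_symm hvv') htv) htR hi.symm h'
      rwa [oth_oth c.cy hv.1] at h1
  have hZo : ∀ v ∈ Z, oth G R v ∈ Z := by
    intro v hv
    by_cases h1 : G.vt (G.e h) v
    · refine SWT45.par_sub c.cy (fun v hv => hv.1) hZe hv fun w hw hvw => hZo1 w hw fun h' =>
        hvw (G.vt_trans (G.vt_symm h1) h')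
    · exact hZo1 v hv h1
  have hZ : Cy G Z := by
    refine ⟨hZe, fun v hv => ?_⟩
    have h1 := hZo v hv
    rcases oth_cases c.cy hv.1 with ⟨h2, h3, h4⟩ | ⟨h2, h3, h4⟩
    · left
      rw [h2] at h1
      exact ⟨h1, fun h' => h4 h'.1⟩
    · right
      rw [h2] at h1
      exact ⟨fun h' => h3 h'.1, h1⟩
  have hZne : Z.Nonempty := by
    rcases hS.two k hkS with ⟨h1, _⟩ | ⟨_, h1⟩
    · exact ⟨_, c.swap.rh, good_S _ h1⟩
    · exact ⟨_, c.swap.rrh, good_S _ h1⟩
  have h1 := c.uniq Z hZ hZne (fun v hv => c.hd v hv.1) h hx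
  rcases h1 with h1 | h1
  · exact c.h_not h1.1
  · exact h1.2 (good_h _ h1.1 (G.vt_r1 h))

end Pool.Agent.SWT89
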