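import Mathlib
import Pool.Agent.SWT89.Arms

/-!
# The four hubs agree on the wheels with two opened edges

It remains to compare the two ends of the same opened edge in the non-crossing case (`S_L`).
-/

set_option autoImplicit false

namespace Pool.Agent.SWT89

open Equiv Pool.Agent.SWT49 Pool.Agent.SWT80 Pool.Agent.SWT93 Pool.Agent.SWT84
  Pool.Agent.SWT84.Cy Pool.Agent.SWT65

open SWT45 (Ch Crs)

variable {V W M : Type} {n : ℕ} [AddCommGroup M]

/-- The two ends of an opened edge, if the two opened edges do not cross. -/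
def S_L (M : Type) [AddCommGroup M] : Prop :=
  ∀ n : ℕ, 4 ≤ n + 1 → Even (n + 1) → (n + 1) % 3 = 1 →
    ∀ (c : (V : Type) → Gr V (n + 1) → Fin n → M) (W₂ : (V : Type) → Gr V (n + 1 + 3) → M),
      Form c → Hub c W₂ → Slide W₂ → Hi W₂ →
      ∀ (V : Type) [Finite V] (G : Gr V (n + 1)) (h k : V), One (opn2 G h k) →
        SWT93.NoCherry (opn2 G h k) → ¬ Crs G h → at3 W₂ V G h = at3 W₂ V G (G.e h)

/-- The hub may be moved from `h` to one of the two ends of the other opened edge. -/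
theorem at3_arm (h3M : ∀ m : M, m + m + m = 0) {c : (V : Type) → Gr V (n + 1) → Fin n → M}
    {W₂ : (V : Type) → Gr V (n + 1 + 3) → M} (hH : Hub c W₂) (hSl : Slide W₂) (hHi : Hi W₂)
    [Finite V] {G : Gr V (n + 1)} {h k : V} {R : Set V} (c : Ch G h k R) :
    at3 W₂ V G h = at3 W₂ V G k ∨ at3 W₂ V G h = at3 W₂ V G (G.e k) := by
  have hA := alt3_of_hub hH
  have hx := c.inn _ (Ch.mem_h G h k)
  obtain ⟨S, hS, hne, ha⟩ := c.ex
  obtain ⟨b, j, hb, hbS, hrb, harm⟩ := exists_arm c hx hS hne ha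
  have hnv : ¬ G.vt h b := fun h' => ha _ hrb (G.vt_r.2 h')
  have hS' : Cy (G.cut h hx) S := by
    refine ⟨hS.e, fun v hv => ?_⟩
    rw [G.cut_r_o hx (ha v hv), G.cut_r_o hx (fun h' => ha v hv (G.vt_r.1 h'))]
    exact hS.two v hv
  have key := SWT36.hi_arm hH.rel hA hH.off hSl hH.rel hSl (hw_wheel h3M hH hHi)
    (c.one_cut hx) hS' hbS (by rw [G.cut_r_o hx hnv]; exact hrb) harm
  rw [Gr.join_cut] at key
  rw [at3_in G hx, key]
  rcases hb with h1 | h1
  · left
    exact at3_vt hA G h1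
  · right
    exact at3_vt hA G h1

/-- **The four hubs agree on the wheels**, if the two ends of one opened edge agree in the
non-crossing case. -/
theorem allHubs_of (h3M : ∀ m : M, m + m + m = 0) (hL : S_L M) : S_allHubs M := by
  intro n h4 hev h3 c W₂ hc hH hSl hHi V _ G h k hO hN
  by_cases hcr : Crs G h
  · exact SWT45.cross_all hH.rel (alt3_of_hub hH) hH.off hSl hH.rel (hw_wheel h3M hH hHi) hO hN hcr
  · obtain ⟨R, ch⟩ := SWT45.exists_ch hO hN
    have hO' : One (opn2 G k h) := by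
      refine ⟨?_, hO.card⟩
      have h1 := hO.conn
      obtain ⟨n1, n2⟩ := opn2_ne h1
      rw [gconn_opn2 n1 n2] at h1
      rw [gconn_opn2 n1.symm (fun h' => n2 (by rw [h', G.e2])), D2_comm]
      exact h1
    have hN' : SWT93.NoCherry (opn2 G k h) :=
      nocherry_opn2 hO'.conn ch.cy ⟨_, ch.rh⟩ ch.swap.h_not ch.h_not fun v h1 h2 h3 =>
        Or.inr (ch.swap.lg v h1 (by rwa [d2_45]) h3)
    have e1 := hL n h4 hev h3 c W₂ hc hH hSl hHi V G h k hO hN hcr
    have e2 := hL n h4 hev h3 c W₂ hc hH hSl hHi V G k h hO' hN'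
      (fun h' => hcr (ch.crs_k_iff.1 h'))
    rcases at3_arm h3M hH hSl hHi ch with h1 | h1
    · exact ⟨h1, e1.symm.trans h1, e2.symm⟩
    · rw [← e2] at h1
      exact ⟨h1, e1.symm.trans h1, e2.symm⟩

end Pool.Agent.SWT89
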