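import Mathlib
import Pool.Agent.SWT89.Four
import Pool.Agent.SWT75.Tr

/-!
# The four functionals with a hub at the end of an opened edge
-/

set_option autoImplicit false

namespace Pool.Agent.SWT89

open Equiv Pool.Agent.SWT49 Pool.Agent.SWT80 Pool.Agent.SWT93 Pool.Agent.SWT84
  Pool.Agent.SWT84.Cy Pool.Agent.SWT65

variable {V W M : Type} {n : ℕ} [AddCommGroup M]

theorem exists_ext4 (hE : S_ext M) (h4 : 4 ≤ n + 1) (hmod : (n + 1) % 3 = 1)
    {c : (V : Type) → Gr V (n + 1) → Fin n → M} {W₂ : (V : Type) → Gr V (n + 1 + 3) → M}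
    (hW : Hub c W₂) (hS : Slide W₂) :
    ∃ F : Fin 4 → (V : Type) → Gr V (n + 1 + 2 + 2) → M, SWT75.Ext4 W₂ F := by
  choose F hF using fun j : Fin 4 => exists_hubAt hE h4 hmod hW hS j
  exact ⟨F, fun s => (hF s).rel, fun s => (hF s).wheel, fun s => (hF s).tv⟩

end Pool.Agent.SWT89
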