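import Mathlib
import Pool.Agent.SWT75.Four
import Pool.Agent.SWT84.Loop
import Pool.Agent.SWT89.Ext4
import Pool.Agent.SWT93.Lvl

/-!
# M6 and the functional at level 10
-/

set_option autoImplicit false

namespace Pool.Agent.SWT89

open Equiv Pool.Agent.SWT49 Pool.Agent.SWT80 Pool.Agent.SWT93 Pool.Agent.SWT84
  Pool.Agent.SWT84.Cy Pool.Agent.SWT65

variable {V W M : Type} {n : ℕ} [AddCommGroup M]

/-- The four hubs agree on the wheels with two opened edges. -/
theorem s_allHubs (hE : S_ext M) (h2 : ∀ m : M, m + m = 0 → m = 0) : S_allHubs M := by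
  intro n h4 hev hmod c W₂ _ hW hS hH V _ G h k hO hN
  obtain ⟨F, hF⟩ := exists_ext4 hE h4 hmod hW hS
  have key := fun s => SWT75.four_hubs h2 hev (by omega) hW hH hF s V G h k hO hN
  have h1 : at3 W₂ V G (G.e h) = at3 W₂ V G h := key 1
  have h3 : at3 W₂ V G k = at3 W₂ V G h := key 2
  have h4 : at3 W₂ V G (G.e k) = at3 W₂ V G h := key 3
  exact ⟨h3.symm, h1.trans h3.symm, h4.trans h3.symm⟩

/-- **M6.** -/
theorem s_pair_all (M : Type) [AddCommGroup M] (h3 : ∀ m : M, m + m + m = 0) : S_pair M := by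
  have h2 : ∀ m : M, m + m = 0 → m = 0 := fun m hm => by
    have h := h3 m
    rwa [hm, zero_add] at h
  exact s_pair (SWT84.ext M h3) (SWT84.uniq M) (s_allHubs (SWT84.ext M h3) h2)

/-- **The functional at level 10.** -/
theorem in10 : In10 72 SWT45.z8 :=
  SWT93.in10_of_pair (s_pair_all (ZMod 3) (by decide))

end Pool.Agent.SWT89
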