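import Pool.Agent.SWT93.Stmts
import Pool.Agent.SWT36.LocShape

/-!
# A functional on unicyclic graphs which vanishes on the wheels is zero
-/

set_option autoImplicit false

namespace Pool.Agent.SWT89

open Equiv Pool.Agent.SWT80 Pool.Agent.SWT93
open scoped Classical

variable {V : Type} {n : ℕ}

/-- Every union of components has four half-edges for every leg: all components have exactly one
cycle. -/
def Uni (G : Gr V n) : Prop :=
  ∀ S : Set V, Cld G S → S.ncard = 4 * {i : Fin n | G.leg i ∈ S}.ncard

/-- A set of edges which meets no vertex exactly once. -/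
structure Cor (G : Gr V n) (S : Set V) : Prop where
  e : ∀ v ∈ S, G.e v ∈ S
  nf : ∀ v ∈ S, G.r v ≠ v
  two : ∀ v ∈ S, G.r v ∈ S ∨ G.r (G.r v) ∈ S

/-- The largest set of edges which meets no vertex exactly once. -/
def core (G : Gr V n) : Set V := {v | ∃ S, Cor G S ∧ v ∈ S}

theorem le_core {G : Gr V n} {S : Set V} (h : Cor G S) : S ⊆ core G := fun _ hv => ⟨S, h, hv⟩

theorem cor_core (G : Gr V n) : Cor G (core G) where
  e := fun v ⟨S, h, hv⟩ => ⟨S, h, h.e v hv⟩
  nf := fun v ⟨_, h, hv⟩ => h.nf v hv
  two := fun v ⟨S, h, hv⟩ => (h.two v hv).imp (fun h1 => ⟨S, h, h1⟩) fun h1 => ⟨S, h, h1⟩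

/-- The vertex of a half-edge. -/
noncomputable def vs (G : Gr V n) (v : V) : Finset V := {v, G.r v, G.r (G.r v)}

theorem mem_vs {G : Gr V n} {v w : V} : w ∈ vs G v ↔ w = v ∨ w = G.r v ∨ w = G.r (G.r v) := by
  unfold vs
  rw [Finset.mem_insert, Finset.mem_insert, Finset.mem_singleton]

theorem self_vs (G : Gr V n) (v : V) : v ∈ vs G v := mem_vs.2 (Or.inl rfl)

theorem vs_r (G : Gr V n) (v : V) : vs G (G.r v) = vs G v := by
  ext w
  rw [mem_vs, mem_vs, G.r3]
  tauto

/-- Sets of edges without a subset as in `Cor` have few edges. -/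
theorem count {G : Gr V n} : ∀ (k : ℕ) (T : Finset V), T.card = k → T.Nonempty →
    (∀ v ∈ T, G.e v ∈ T) → (∀ S : Set V, Cor G S → S.Nonempty → ¬ S ⊆ (T : Set V)) →
    T.card < 2 * (T.image (vs G)).card := by
  intro k
  induction k using Nat.strong_induction_on with
  | _ k ih =>
    intro T hk hT he hc
    have h0 : ¬ Cor G (T : Set V) := fun h1 => hc _ h1 (by simpa using hT) subset_rfl
    have h1 : ∃ v ∈ T, ∀ w ∈ T, w ∈ vs G v → w = v := by
      by_contra hcon
      apply h0
      refine ⟨fun v hv => he v hv, fun v hv hr => ?_, fun v hv => ?_⟩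
      · apply hcon
        refine ⟨v, hv, fun w _ hw => ?_⟩
        rcases mem_vs.1 hw with h2 | h2 | h2
        · exact h2
        · rw [h2, hr]
        · rw [h2, hr, hr]
      · by_contra h2
        apply hcon
        refine ⟨v, hv, fun w hw hw2 => ?_⟩
        rcases mem_vs.1 hw2 with h3 | h3 | h3
        · exact h3
        · exact (h2 (Or.inl (h3 ▸ hw))).elim
        · exact (h2 (Or.inr (h3 ▸ hw))).elim
    obtain ⟨v, hv, hv1⟩ := h1
    have hne : G.e v ≠ v := G.e1 v
    have hev := he v hv
    set T' := (T.erase v).erase (G.e v) with hT'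
    have hc' : T'.card + 2 = T.card := by
      have e1 : (G.e v) ∈ T.erase v := Finset.mem_erase.2 ⟨hne, hev⟩
      have e2 : T'.card + 1 = (T.erase v).card := by
        rw [hT']
        exact Finset.card_erase_add_one e1
      have e3 : (T.erase v).card + 1 = T.card := Finset.card_erase_add_one hv
      omega
    have hm : ∀ w, w ∈ T' ↔ w ≠ G.e v ∧ w ≠ v ∧ w ∈ T := fun w => by
      rw [hT', Finset.mem_erase, Finset.mem_erase]
    have hvn : vs G v ∉ T'.image (vs G) := by
      intro h2
      obtain ⟨w, hw, hw2⟩ := Finset.mem_image.1 h2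
      have h3 := (hm w).1 hw
      have h4 : w ∈ vs G v := by
        rw [← hw2]
        exact self_vs G w
      exact h3.2.1 (hv1 w h3.2.2 h4)
    have hle : (T'.image (vs G)).card + 1 ≤ (T.image (vs G)).card := by
      rw [← Finset.card_insert_of_notMem hvn]
      apply Finset.card_le_card
      intro A hA
      rcases Finset.mem_insert.1 hA with h2 | h2
      · rw [h2]
        exact Finset.mem_image_of_mem _ hv
      · obtain ⟨w, hw, hw2⟩ := Finset.mem_image.1 h2
        rw [← hw2]
        exact Finset.mem_image_of_mem _ ((hm w).1 hw).2.2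
    rcases T'.eq_empty_or_nonempty with h2 | h2
    · have h3 : vs G (G.e v) ≠ vs G v := fun h4 => by
        have h5 : G.e v ∈ vs G v := by
          rw [← h4]
          exact self_vs G _
        exact hne (hv1 _ hev h5)
      have h4 : ({vs G (G.e v), vs G v} : Finset (Finset V)) ⊆ T.image (vs G) := by
        intro A hA
        rw [Finset.mem_insert, Finset.mem_singleton] at hA
        rcases hA with h5 | h5
        · rw [h5]
          exact Finset.mem_image_of_mem _ hev
        · rw [h5]
          exact Finset.mem_image_of_mem _ hv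
      have h5 := Finset.card_le_card h4
      rw [Finset.card_pair h3] at h5
      rw [h2, Finset.card_empty] at hc'
      omega
    · have h3 := ih T'.card (by omega) T' rfl h2 (fun w hw => by
        rw [hm] at hw ⊢
        refine ⟨fun h4 => hw.2.1 (G.e_inj h4), fun h4 => hw.1 ?_, he w hw.2.2⟩
        rw [← h4, G.e2]) (fun S hS hS1 hS2 => hc S hS hS1 fun w hw => ((hm w).1 (hS2 hw)).2.2)
      omega

/-- The number of vertices of a union of components. -/
theorem count_cld {G : Gr V n} {T : Finset V} (hr : ∀ v ∈ T, G.r v ∈ T) :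
    3 * (T.image (vs G)).card ≤ T.card + 2 * (T.filter fun v => G.r v = v).card := by
  have h1 := Finset.card_eq_sum_card_image (vs G) T
  have h2 : (T.filter fun v => G.r v = v).card = ∑ A ∈ T.image (vs G),
      ((T.filter fun v => G.r v = v).filter fun v => vs G v = A).card :=
    Finset.card_eq_sum_card_fiberwise fun v hv =>
      Finset.mem_image_of_mem _ (Finset.mem_filter.1 hv).1
  rw [h2]
  conv_rhs => rw [h1]
  rw [Finset.mul_sum, ← Finset.sum_add_distrib, mul_comm, ← smul_eq_mul, ← Finset.sum_const]
  refine Finset.sum_le_sum fun A hA => ?_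
  obtain ⟨v, hv, rfl⟩ := Finset.mem_image.1 hA
  by_cases h3 : G.r v = v
  · have h4 : v ∈ (T.filter fun w => vs G w = vs G v) := Finset.mem_filter.2 ⟨hv, rfl⟩
    have h5 : v ∈ ((T.filter fun w => G.r w = w).filter fun w => vs G w = vs G v) :=
      Finset.mem_filter.2 ⟨Finset.mem_filter.2 ⟨hv, h3⟩, rfl⟩
    have h6 := Finset.card_pos.2 ⟨v, h4⟩
    have h7 := Finset.card_pos.2 ⟨v, h5⟩
    omega
  · have h4 : vs G v ⊆ (T.filter fun w => vs G w = vs G v) := by
      intro w hw
      rw [Finset.mem_filter]
      rcases mem_vs.1 hw with h5 | h5 | h5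
      · rw [h5]
        exact ⟨hv, rfl⟩
      · rw [h5]
        exact ⟨hr v hv, vs_r G v⟩
      · rw [h5]
        exact ⟨hr _ (hr v hv), by rw [vs_r, vs_r]⟩
    have h5 : (vs G v).card = 3 := by
      unfold vs
      rw [Finset.card_eq_three]
      refine ⟨v, G.r v, G.r (G.r v), fun h6 => h3 h6.symm, fun h6 => ?_, fun h6 => ?_, rfl⟩
      · exact h3 (G.r2 h6.symm)
      · exact h3 (G.r_inj h6).symm
    have h6 := Finset.card_le_card h4
    omega

/-- A union of components without a cycle has too many legs. -/
theorem few {G : Gr V n} [Finite V] {S : Set V} (hS : Cld G S) (hne : S.Nonempty)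
    (hc : ∀ v ∈ S, v ∉ core G) : S.ncard < 4 * {i : Fin n | G.leg i ∈ S}.ncard := by
  have := Fintype.ofFinite V
  set T : Finset V := S.toFinset with hT
  have hm : ∀ v, v ∈ T ↔ v ∈ S := fun v => by rw [hT, Set.mem_toFinset]
  have h1 := count (G := G) T.card T rfl (by
      obtain ⟨v, hv⟩ := hne
      exact ⟨v, (hm v).2 hv⟩) (fun v hv => (hm _).2 (hS.e v ((hm v).1 hv)))
    (fun C hC ⟨v, hv⟩ hCT => hc v ((hm v).1 (hCT hv)) (le_core hC hv))
  have h2 := count_cld (G := G) (T := T) fun v hv => (hm _).2 (hS.r v ((hm v).1 hv))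
  have h3 : (T.filter fun v => G.r v = v).card = {i : Fin n | G.leg i ∈ S}.ncard := by
    have e1 : ((T.filter fun v => G.r v = v : Finset V) : Set V) =
        G.leg '' {i : Fin n | G.leg i ∈ S} := by
      ext v
      rw [Finset.mem_coe, Finset.mem_filter, hm, Set.mem_image]
      constructor
      · rintro ⟨h4, h5⟩
        obtain ⟨i, hi⟩ := (G.fix v).1 h5
        exact ⟨i, by
          show G.leg i ∈ S
          rw [hi]
          exact h4, hi⟩
      · rintro ⟨i, hi, rfl⟩
        exact ⟨hi, G.r_leg i⟩
    rw [← Set.ncard_coe_finset, e1, Set.ncard_image_of_injective _ G.inj]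
  have h4 : S.ncard = T.card := by
    rw [← Set.ncard_coe_finset, hT, Set.coe_toFinset]
  rw [h3] at h2
  rw [h4]
  omega

/-- A union of unicyclic graphs in which all branches are legs has no cherry. -/
theorem noCherry_of {G : Gr V n} [Finite V] (hU : Uni G)
    (ht : ∀ x, x ∉ core G → G.r x ∈ core G → G.r (G.e x) = G.e x) : NoCherry G := by
  intro i j hij
  have hcc := cor_core G
  set mt : V → Prop := fun v => v ∈ core G ∨ G.r v ∈ core G ∨ G.r (G.r v) ∈ core G with hmt
  have mt_r : ∀ v, mt (G.r v) ↔ mt v := fun v => by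
    simp only [hmt, G.r3]
    tauto
  set S : Set V := {v | ¬ mt v ∧ ¬ (G.r v = v ∧ mt (G.e v))} with hS
  have hcl : Cld G S := by
    refine ⟨?_, ?_⟩
    · rintro v ⟨h1, h2⟩
      have h3 : ¬ mt (G.e v) := by
        intro h3
        by_cases h4 : G.r v = v
        · exact h2 ⟨h4, h3⟩
        · have h5 : G.e v ∉ core G := fun h6 => h1 (Or.inl (by
            have h7 := hcc.e _ h6
            rwa [G.e2] at h7))
          have h6 : G.r (G.e v) ∈ core G := by
            rcases h3 with h3 | h3 | h3
            · exact absurd h3 h5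
            · exact h3
            · rcases hcc.two _ h3 with h7 | h7
              · rw [G.r3] at h7
                exact absurd h7 h5
              · rw [G.r3] at h7
                exact h7
          have h7 := ht _ h5 h6
          rw [G.e2] at h7
          exact h4 h7
      refine ⟨h3, fun h4 => h1 ?_⟩
      have h5 := h4.2
      rwa [G.e2] at h5
    · rintro v ⟨h1, h2⟩
      refine ⟨fun h3 => h1 ((mt_r v).1 h3), fun h3 => h2 ?_⟩
      have h4 : G.r v = v := G.r_inj h3.1
      refine ⟨h4, ?_⟩
      have h5 := h3.2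
      rwa [h4] at h5
  have hl : ∀ k, G.e (G.leg k) ∉ core G := fun k hk => by
    have h1 := hcc.e _ hk
    rw [G.e2] at h1
    exact hcc.nf _ h1 (G.r_leg k)
  have hu : G.e (G.leg i) ∈ S := by
    have h1 : G.r (G.e (G.leg i)) ≠ G.e (G.leg i) := by
      rw [hij.2]
      exact fun h2 => G.leg_ne hij.1 (G.e_inj h2).symm
    refine ⟨?_, fun h2 => h1 h2.1⟩
    rintro (h2 | h2 | h2)
    · exact hl i h2
    · rw [hij.2] at h2
      exact hl j h2
    · rcases hcc.two _ h2 with h3 | h3
      · rw [G.r3] at h3
        exact hl i h3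
      · rw [G.r3, hij.2] at h3
        exact hl j h3
  have h1 := few hcl ⟨_, hu⟩ fun v hv h2 => hv.1 (Or.inl h2)
  have h2 := hU S hcl
  omega

/-! ### IHX -/

section Loc

variable {I J X : Gr V n} {x : V}

theorem cld_J (h : Gr.Loc I J X x) (S : Set V) : Cld J S ↔ Cld I S := by
  have ho : ∀ v, ¬ SWT36.DD I x v → J.r v = I.r v := fun v hv =>
    (h.oth v (SWT36.out_vt hv).1 (SWT36.out_vt hv).2).1
  constructor
  · intro hS
    refine ⟨fun v hv => by rw [← h.eJ]; exact hS.e v hv, fun v hv => ?_⟩
    by_cases hD : SWT36.DD I x v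
    · have hx : x ∈ S := by
        have hy : I.e x ∈ S → x ∈ S := fun h1 => by
          have h2 := hS.e _ h1
          rwa [h.eJ, I.e2] at h2
        rcases hD with h1 | h1 | h1 | h1 | h1 | h1
        · exact h1 ▸ hv
        · exact hy (h1 ▸ hv)
        · refine hy ?_
          have h2 := hS.r _ hv
          rwa [h1, h.j6] at h2
        · have h2 := hS.r _ (hS.r _ hv)
          rwa [h1, h.j2, h.j3] at h2
        · have h2 := hS.r _ hv
          rwa [h1, h.j3] at h2
        · refine hy ?_
          have h2 := hS.r _ (hS.r _ hv)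
          rwa [h1, h.j5, h.j6] at h2
      have hy : I.e x ∈ S := by
        have h2 := hS.e _ hx
        rwa [h.eJ] at h2
      have hb : I.r (I.r x) ∈ S := by
        have h2 := hS.r _ hx
        rwa [h.j1] at h2
      have hc : I.r (I.e x) ∈ S := by
        have h2 := hS.r _ hb
        rwa [h.j2] at h2
      have hd : I.r (I.r (I.e x)) ∈ S := by
        have h2 := hS.r _ hy
        rwa [h.j4] at h2
      have ha : I.r x ∈ S := by
        have h2 := hS.r _ hd
        rwa [h.j5] at h2
      rcases hD with h1 | h1 | h1 | h1 | h1 | h1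
      · rw [h1]; exact ha
      · rw [h1]; exact hc
      · rw [h1]; exact hb
      · rw [h1, I.r3]; exact hx
      · rw [h1]; exact hd
      · rw [h1, I.r3]; exact hy
    · rw [← ho v hD]
      exact hS.r v hv
  · intro hS
    refine ⟨fun v hv => by rw [h.eJ]; exact hS.e v hv, fun v hv => ?_⟩
    by_cases hD : SWT36.DD I x v
    · have hx : x ∈ S := by
        have hy : I.e x ∈ S → x ∈ S := fun h1 => by
          have h2 := hS.e _ h1
          rwa [I.e2] at h2
        rcases hD with h1 | h1 | h1 | h1 | h1 | h1
        · exact h1 ▸ hv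
        · exact hy (h1 ▸ hv)
        · have h2 := hS.r _ (hS.r _ hv)
          rwa [h1, I.r3] at h2
        · have h2 := hS.r _ hv
          rwa [h1, I.r3] at h2
        · refine hy ?_
          have h2 := hS.r _ (hS.r _ hv)
          rwa [h1, I.r3] at h2
        · refine hy ?_
          have h2 := hS.r _ hv
          rwa [h1, I.r3] at h2
      have hy := hS.e _ hx
      have ha := hS.r _ hx
      have hb := hS.r _ ha
      have hc := hS.r _ hy
      have hd := hS.r _ hc
      rcases hD with h1 | h1 | h1 | h1 | h1 | h1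
      · rw [h1, h.j1]; exact hb
      · rw [h1, h.j4]; exact hd
      · rw [h1, h.j6]; exact hy
      · rw [h1, h.j2]; exact hc
      · rw [h1, h.j3]; exact hx
      · rw [h1, h.j5]; exact ha
    · rw [ho v hD]
      exact hS.r v hv

theorem cld_X (h : Gr.Loc I J X x) (S : Set V) : Cld X S ↔ Cld I S := by
  have ho : ∀ v, ¬ SWT36.DD I x v → X.r v = I.r v := fun v hv =>
    (h.oth v (SWT36.out_vt hv).1 (SWT36.out_vt hv).2).2
  constructor
  · intro hS
    refine ⟨fun v hv => by rw [← h.eX]; exact hS.e v hv, fun v hv => ?_⟩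
    by_cases hD : SWT36.DD I x v
    · have hx : x ∈ S := by
        have hy : I.e x ∈ S → x ∈ S := fun h1 => by
          have h2 := hS.e _ h1
          rwa [h.eX, I.e2] at h2
        rcases hD with h1 | h1 | h1 | h1 | h1 | h1
        · exact h1 ▸ hv
        · exact hy (h1 ▸ hv)
        · have h2 := hS.r _ (hS.r _ hv)
          rwa [h1, h.x2, h.x3] at h2
        · refine hy ?_
          have h2 := hS.r _ hv
          rwa [h1, h.x6] at h2
        · have h2 := hS.r _ hv
          rwa [h1, h.x3] at h2
        · refine hy ?_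
          have h2 := hS.r _ (hS.r _ hv)
          rwa [h1, h.x5, h.x6] at h2
      have hy : I.e x ∈ S := by
        have h2 := hS.e _ hx
        rwa [h.eX] at h2
      have ha : I.r x ∈ S := by
        have h2 := hS.r _ hx
        rwa [h.x1] at h2
      have hc : I.r (I.e x) ∈ S := by
        have h2 := hS.r _ ha
        rwa [h.x2] at h2
      have hd : I.r (I.r (I.e x)) ∈ S := by
        have h2 := hS.r _ hy
        rwa [h.x4] at h2
      have hb : I.r (I.r x) ∈ S := by
        have h2 := hS.r _ hd
        rwa [h.x5] at h2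
      rcases hD with h1 | h1 | h1 | h1 | h1 | h1
      · rw [h1]; exact ha
      · rw [h1]; exact hc
      · rw [h1]; exact hb
      · rw [h1, I.r3]; exact hx
      · rw [h1]; exact hd
      · rw [h1, I.r3]; exact hy
    · rw [← ho v hD]
      exact hS.r v hv
  · intro hS
    refine ⟨fun v hv => by rw [h.eX]; exact hS.e v hv, fun v hv => ?_⟩
    by_cases hD : SWT36.DD I x v
    · have hx : x ∈ S := by
        have hy : I.e x ∈ S → x ∈ S := fun h1 => by
          have h2 := hS.e _ h1
          rwa [I.e2] at h2
        rcases hD with h1 | h1 | h1 | h1 | h1 | h1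
        · exact h1 ▸ hv
        · exact hy (h1 ▸ hv)
        · have h2 := hS.r _ (hS.r _ hv)
          rwa [h1, I.r3] at h2
        · have h2 := hS.r _ hv
          rwa [h1, I.r3] at h2
        · refine hy ?_
          have h2 := hS.r _ (hS.r _ hv)
          rwa [h1, I.r3] at h2
        · refine hy ?_
          have h2 := hS.r _ hv
          rwa [h1, I.r3] at h2
      have hy := hS.e _ hx
      have ha := hS.r _ hx
      have hb := hS.r _ ha
      have hc := hS.r _ hy
      have hd := hS.r _ hc
      rcases hD with h1 | h1 | h1 | h1 | h1 | h1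
      · rw [h1, h.x1]; exact ha
      · rw [h1, h.x4]; exact hd
      · rw [h1, h.x2]; exact hc
      · rw [h1, h.x6]; exact hy
      · rw [h1, h.x3]; exact hx
      · rw [h1, h.x5]; exact hb
    · rw [ho v hD]
      exact hS.r v hv

theorem uni_J (h : Gr.Loc I J X x) : Uni J ↔ Uni I := by
  unfold Uni
  simp only [cld_J h, h.lJ]

theorem uni_X (h : Gr.Loc I J X x) : Uni X ↔ Uni I := by
  unfold Uni
  simp only [cld_X h, h.lX]

end Loc

/-- A branch at the core which is not a leg: IHX at its first edge enlarges the core. -/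
theorem grow {I J X : Gr V n} {x : V} (h : Gr.Loc I J X x) (hx : x ∉ core I)
    (ha : I.r x ∈ core I) : (core I ∪ {x, I.e x} ⊆ core J) ∧ (core I ∪ {x, I.e x} ⊆ core X) := by
  have hcc := cor_core I
  have hb : I.r (I.r x) ∈ core I := by
    rcases hcc.two _ ha with h1 | h1
    · exact h1
    · rw [I.r3] at h1
      exact absurd h1 hx
  have hy : I.e x ∉ core I := fun h1 => hx (by
    have h2 := hcc.e _ h1
    rwa [I.e2] at h2)
  constructor
  · refine le_core ⟨?_, ?_, ?_⟩
    · rintro v (hv | hv | hv)
      · rw [h.eJ]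
        exact Or.inl (hcc.e v hv)
      · rw [h.eJ, hv]
        exact Or.inr (Or.inr rfl)
      · rw [h.eJ, hv, I.e2]
        exact Or.inr (Or.inl rfl)
    · intro v hv hr
      obtain ⟨i, hi⟩ := (J.fix v).1 hr
      rw [h.lJ] at hi
      have h1 : I.r v = v := (I.fix v).2 ⟨i, hi⟩
      rcases hv with hv | hv | hv
      · exact hcc.nf v hv h1
      · rw [hv] at h1
        exact h.ok.ix h1
      · rw [Set.mem_singleton_iff.1 hv] at h1
        exact h.ok.iy h1
    · rintro v (hv | hv | hv)
      · by_cases hD : SWT36.DD I x v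
        · rcases hD with h1 | h1 | h1 | h1 | h1 | h1
          · exact absurd (h1 ▸ hv) hx
          · exact absurd (h1 ▸ hv) hy
          · left
            rw [h1, h.j6]
            exact Or.inr (Or.inr rfl)
          · right
            rw [h1, h.j2, h.j3]
            exact Or.inr (Or.inl rfl)
          · left
            rw [h1, h.j3]
            exact Or.inr (Or.inl rfl)
          · right
            rw [h1, h.j5, h.j6]
            exact Or.inr (Or.inr rfl)
        · have e1 : J.r v = I.r v := (h.oth v (SWT36.out_vt hD).1 (SWT36.out_vt hD).2).1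
          have hD2 : ¬ SWT36.DD I x (I.r v) := fun h1 => hD ((SWT36.shI h.ok).D_r.1 h1)
          have e2 : J.r (I.r v) = I.r (I.r v) :=
            (h.oth _ (SWT36.out_vt hD2).1 (SWT36.out_vt hD2).2).1
          rw [e1, e2]
          exact (hcc.two v hv).imp Or.inl Or.inl
      · left
        rw [hv, h.j1]
        exact Or.inl hb
      · right
        rw [Set.mem_singleton_iff.1 hv, h.j4, h.j5]
        exact Or.inl ha
  · refine le_core ⟨?_, ?_, ?_⟩
    · rintro v (hv | hv | hv)
      · rw [h.eX]
        exact Or.inl (hcc.e v hv)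
      · rw [h.eX, hv]
        exact Or.inr (Or.inr rfl)
      · rw [h.eX, hv, I.e2]
        exact Or.inr (Or.inl rfl)
    · intro v hv hr
      obtain ⟨i, hi⟩ := (X.fix v).1 hr
      rw [h.lX] at hi
      have h1 : I.r v = v := (I.fix v).2 ⟨i, hi⟩
      rcases hv with hv | hv | hv
      · exact hcc.nf v hv h1
      · rw [hv] at h1
        exact h.ok.ix h1
      · rw [Set.mem_singleton_iff.1 hv] at h1
        exact h.ok.iy h1
    · rintro v (hv | hv | hv)
      · by_cases hD : SWT36.DD I x v
        · rcases hD with h1 | h1 | h1 | h1 | h1 | h1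
          · exact absurd (h1 ▸ hv) hx
          · exact absurd (h1 ▸ hv) hy
          · right
            rw [h1, h.x2, h.x3]
            exact Or.inr (Or.inl rfl)
          · left
            rw [h1, h.x6]
            exact Or.inr (Or.inr rfl)
          · left
            rw [h1, h.x3]
            exact Or.inr (Or.inl rfl)
          · right
            rw [h1, h.x5, h.x6]
            exact Or.inr (Or.inr rfl)
        · have e1 : X.r v = I.r v := (h.oth v (SWT36.out_vt hD).1 (SWT36.out_vt hD).2).2
          have hD2 : ¬ SWT36.DD I x (I.r v) := fun h1 => hD ((SWT36.shI h.ok).D_r.1 h1)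
          have e2 : X.r (I.r v) = I.r (I.r v) :=
            (h.oth _ (SWT36.out_vt hD2).1 (SWT36.out_vt hD2).2).2
          rw [e1, e2]
          exact (hcc.two v hv).imp Or.inl Or.inl
      · left
        rw [hv, h.x1]
        exact Or.inl ha
      · right
        rw [Set.mem_singleton_iff.1 hv, h.x4, h.x5]
        exact Or.inl hb

/-- A functional with IHX on the unions of unicyclic graphs which vanishes on the unions of wheels
is zero. -/
theorem span1 {M : Type} [AddCommGroup M] [Finite V] (L : Gr V n → M)
    (ihx : ∀ (I J X : Gr V n) (x : V), Gr.Loc I J X x → Uni I → L I = L J - L X)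
    (hw : ∀ W : Gr V n, Uni W → NoCherry W → L W = 0) : ∀ W : Gr V n, Uni W → L W = 0 := by
  have key : ∀ (k : ℕ) (W : Gr V n), (core W)ᶜ.ncard = k → Uni W → L W = 0 := by
    intro k
    induction k using Nat.strong_induction_on with
    | _ k ih =>
      intro W hk hU
      by_cases ht : ∀ x, x ∉ core W → W.r x ∈ core W → W.r (W.e x) = W.e x
      · exact hw W hU (noCherry_of hU ht)
      · have h1 : ∃ x, x ∉ core W ∧ W.r x ∈ core W ∧ W.r (W.e x) ≠ W.e x := by
          by_contra h2
          refine ht fun x hx hr => ?_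
          by_contra h3
          exact h2 ⟨x, hx, hr, h3⟩
        obtain ⟨x, hx, ha, hy⟩ := h1
        have hcc := cor_core W
        have hb : W.r (W.r x) ∈ core W := by
          rcases hcc.two _ ha with h1 | h1
          · exact h1
          · rw [W.r3] at h1
            exact absurd h1 hx
        have hee : ∀ v, v ∈ core W → W.e x ≠ v := fun v hv h1 => hx (by
          have h2 := hcc.e _ hv
          rwa [← h1, W.e2] at h2)
        have hok : Gr.Ok W x := ⟨fun h1 => hx (h1 ▸ ha), hy, hee _ ha, hee _ hb⟩
        obtain ⟨J, X, hl⟩ := SWT36.exists_loc hok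
        have hg := grow hl hx ha
        have hsm : ∀ K : Gr V n, core W ∪ {x, W.e x} ⊆ core K → (core K)ᶜ.ncard < k := by
          intro K hK
          rw [← hk]
          refine Set.ncard_lt_ncard ?_ (Set.toFinite _)
          refine ⟨fun v hv h1 => hv (hK (Or.inl h1)), fun h1 => ?_⟩
          exact h1 (show x ∈ (core W)ᶜ from hx) (hK (Or.inr (Or.inl rfl)))
        rw [ihx W J X x hl hU, ih _ (hsm J hg.1) J rfl ((uni_J hl).2 hU),
          ih _ (hsm X hg.2) X rfl ((uni_X hl).2 hU), sub_zero]
  exact fun W hU => key _ W rfl hU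

end Pool.Agent.SWT89
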